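import Pool.Agent.H.MP_2e4794_nt.RL.DU

/-!
# The parameters
-/

namespace Pool.Agent.H.MP_2e4794_nt.RL

open Finset Filter Topology
open Pool.Agent.H.MP_2e4794_nt.ZM (prs mem_prs mertens_minus mertens_plus)

lemma tendsto_loglog : Tendsto (fun H : ℝ => Real.log (Real.log H)) atTop atTop :=
  Real.tendsto_log_atTop.comp Real.tendsto_log_atTop

lemma log_ceil_ge {r v : ℝ} (hr : 0 < v) : r * Real.log v ≤ Real.log (⌈v ^ r⌉₊ : ℝ) := by
  rw [← Real.log_rpow hr]
  apply Real.log_le_log (by positivity)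
  exact Nat.le_ceil _

lemma log_ceil_le {r v : ℝ} (hr : 0 ≤ r) (hv : 1 ≤ v) :
    Real.log (⌈v ^ r⌉₊ : ℝ) ≤ Real.log 2 + r * Real.log v := by
  have h1 : 1 ≤ v ^ r := Real.one_le_rpow hv hr
  have h2 : (⌈v ^ r⌉₊ : ℝ) < v ^ r + 1 := Nat.ceil_lt_add_one (by linarith)
  have h3 : (0 : ℝ) < ⌈v ^ r⌉₊ := by
    have := Nat.le_ceil (v ^ r)
    linarith
  rw [← Real.log_rpow (by linarith), ← Real.log_mul (by norm_num) (by linarith)]
  apply Real.log_le_log h3
  linarith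

lemma ev_H {δ η : ℝ} (K : ℝ) (hδ : 0 < δ) (hη : 0 < η) (Y0 : ℕ) :
    ∃ C : ℝ, 3 ≤ C ∧ ∀ H : ℝ, C ≤ H →
      Y0 ≤ ⌈Real.log H ^ (2 + δ)⌉₊ ∧
      ∏ p ∈ prs 0 ⌈Real.log H ^ (2 + δ)⌉₊, (1 - 1 / (p : ℝ))⁻¹ ≤
        (Real.exp Real.eulerMascheroniConstant + η) * Real.log ⌈Real.log H ^ (2 + δ)⌉₊ ∧
      ∏ p ∈ prs 0 ⌈Real.log H ^ (2 + δ)⌉₊, (1 + 1 / (p : ℝ)) ≤
        (6 / Real.pi ^ 2 * Real.exp Real.eulerMascheroniConstant + η) *
          Real.log ⌈Real.log H ^ (2 + δ)⌉₊ ∧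
      Real.log ⌈Real.log H ^ (2 + δ)⌉₊ ≤ (2 + δ) * (1 + η) * Real.log (Real.log H) ∧
      (2 + δ) * Real.log (Real.log H) ≤ Real.log ⌈Real.log H ^ (2 + δ)⌉₊ ∧
      12 / Real.log ⌈Real.log H ^ (2 + δ)⌉₊ +
        K / Real.sqrt (Real.log ⌈Real.log H ^ (2 + δ)⌉₊) ≤ η ∧
      1 ≤ Real.log (Real.log H) ∧ 1 ≤ Real.log H := by
  have hY : Tendsto (fun H : ℝ => ⌈Real.log H ^ (2 + δ)⌉₊) atTop atTop :=
    tendsto_nat_ceil_atTop.comp ((tendsto_rpow_atTop (by linarith)).comp Real.tendsto_log_atTop)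
  have hlY : Tendsto (fun Y : ℕ => Real.log (Y : ℝ)) atTop atTop :=
    Real.tendsto_log_atTop.comp tendsto_natCast_atTop_atTop
  have e1 : ∀ᶠ H : ℝ in atTop, Y0 ≤ ⌈Real.log H ^ (2 + δ)⌉₊ := hY.eventually_ge_atTop Y0
  have e2 : ∀ᶠ Y : ℕ in atTop, ∏ p ∈ prs 0 Y, (1 - 1 / (p : ℝ))⁻¹ ≤
      (Real.exp Real.eulerMascheroniConstant + η) * Real.log Y := by
    filter_upwards [mertens_minus.eventually (gt_mem_nhds (lt_add_of_pos_right _ hη)),
      hlY.eventually_gt_atTop 0] with Y h1 h2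
    rw [div_lt_iff₀ h2] at h1
    exact h1.le
  have e3 : ∀ᶠ Y : ℕ in atTop, ∏ p ∈ prs 0 Y, (1 + 1 / (p : ℝ)) ≤
      (6 / Real.pi ^ 2 * Real.exp Real.eulerMascheroniConstant + η) * Real.log Y := by
    filter_upwards [mertens_plus.eventually (gt_mem_nhds (lt_add_of_pos_right _ hη)),
      hlY.eventually_gt_atTop 0] with Y h1 h2
    rw [div_lt_iff₀ h2] at h1
    exact h1.le
  have e4 : ∀ᶠ H : ℝ in atTop, Real.log 2 ≤ (2 + δ) * η * Real.log (Real.log H) := by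
    have : Tendsto (fun H : ℝ => (2 + δ) * η * Real.log (Real.log H)) atTop atTop :=
      tendsto_loglog.const_mul_atTop (by positivity)
    exact this.eventually_ge_atTop _
  have e5 : ∀ᶠ Y : ℕ in atTop, 12 / Real.log (Y : ℝ) + K / Real.sqrt (Real.log (Y : ℝ)) ≤ η := by
    have h1 : Tendsto (fun Y : ℕ => 12 / Real.log (Y : ℝ) + K / Real.sqrt (Real.log (Y : ℝ)))
        atTop (𝓝 (0 + 0)) :=
      (hlY.const_div_atTop 12).add ((Real.tendsto_sqrt_atTop.comp hlY).const_div_atTop K)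
    rw [add_zero] at h1
    exact h1.eventually_le_const hη
  have e6 : ∀ᶠ H : ℝ in atTop, 1 ≤ Real.log (Real.log H) := tendsto_loglog.eventually_ge_atTop 1
  have e7 : ∀ᶠ H : ℝ in atTop, 1 ≤ Real.log H := Real.tendsto_log_atTop.eventually_ge_atTop 1
  obtain ⟨C, hC⟩ := eventually_atTop.1 (e1.and ((hY.eventually e2).and ((hY.eventually e3).and
    (e4.and ((hY.eventually e5).and (e6.and e7))))))
  refine ⟨max C 3, le_max_right _ _, ?_⟩
  intro H hH
  obtain ⟨h1, h2, h3, h4, h5, h6, h7⟩ := hC H ((le_max_left _ _).trans hH)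
  refine ⟨h1, h2, h3, ?_, log_ceil_ge (by linarith), h5, h6, h7⟩
  have h8 := log_ceil_le (r := 2 + δ) (by linarith) h7
  linarith

lemma ev_x {δ η : ℝ} (K : ℝ) (hδ : 0 < δ) (hδ1 : δ ≤ 1) (hη : 0 < η) :
    ∃ C : ℝ, ∀ x : ℝ, C ≤ x →
      Real.log ⌈Real.log (2 * x) ^ (2 + δ)⌉₊ ≤ (2 + δ) * (1 + η) * Real.log (Real.log x) ∧
      (2 + δ) * Real.log (Real.log x) ≤ Real.log ⌈Real.log (2 * x) ^ (2 + δ)⌉₊ ∧
      K * (1 + Real.log (Real.log (Real.log x))) / Real.sqrt (Real.log (Real.log x)) ≤ η := by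
  have e4 : ∀ᶠ x : ℝ in atTop, Real.log 16 ≤ (2 + δ) * η * Real.log (Real.log x) := by
    have : Tendsto (fun H : ℝ => (2 + δ) * η * Real.log (Real.log H)) atTop atTop :=
      tendsto_loglog.const_mul_atTop (by positivity)
    exact this.eventually_ge_atTop _
  have e5 : ∀ᶠ X : ℝ in atTop, K * (1 + Real.log X) / Real.sqrt X ≤ η := by
    have h1 : Tendsto (fun X : ℝ => K * (1 / Real.sqrt X + Real.log X / Real.sqrt X)) atTop
        (𝓝 (K * (0 + 0))) := by
      apply Tendsto.const_mul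
      apply Tendsto.add
      · exact Real.tendsto_sqrt_atTop.const_div_atTop 1
      · have := (isLittleO_log_rpow_atTop (r := 1 / 2) (by norm_num)).tendsto_div_nhds_zero
        simpa [Real.sqrt_eq_rpow] using this
    rw [add_zero, mul_zero] at h1
    filter_upwards [h1.eventually_le_const hη] with X hX
    refine le_trans (le_of_eq ?_) hX
    ring
  have e6 : ∀ᶠ x : ℝ in atTop, 1 ≤ Real.log x := Real.tendsto_log_atTop.eventually_ge_atTop 1
  obtain ⟨C, hC⟩ := eventually_atTop.1 (e4.and ((tendsto_loglog.eventually e5).and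
    (e6.and (eventually_ge_atTop 2))))
  refine ⟨C, ?_⟩
  intro x hx
  obtain ⟨h1, h2, h3, h4⟩ := hC x hx
  have h5 : Real.log x ≤ Real.log (2 * x) := Real.log_le_log (by linarith) (by linarith)
  refine ⟨?_, ?_, h2⟩
  · have h6 : Real.log (2 * x) ≤ 2 * Real.log x := by
      rw [Real.log_mul (by norm_num) (by linarith)]
      have : Real.log 2 ≤ Real.log x := Real.log_le_log (by norm_num) h4
      linarith
    have h8 := log_ceil_le (r := 2 + δ) (v := Real.log (2 * x)) (by linarith) (by linarith)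
    have h9 : Real.log (Real.log (2 * x)) ≤ Real.log 2 + Real.log (Real.log x) := by
      rw [← Real.log_mul (by norm_num) (by linarith)]
      exact Real.log_le_log (by linarith) h6
    have h10 : Real.log 16 = 4 * Real.log 2 := by
      have : (16 : ℝ) = 2 ^ 4 := by norm_num
      rw [this, Real.log_pow]
      norm_num
    have h11 : 0 < Real.log 2 := Real.log_pos (by norm_num)
    have h12 : (2 + δ) * Real.log (Real.log (2 * x)) ≤
        (2 + δ) * (Real.log 2 + Real.log (Real.log x)) :=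
      mul_le_mul_of_nonneg_left h9 (by linarith)
    have h13 : δ * Real.log 2 ≤ 1 * Real.log 2 := mul_le_mul_of_nonneg_right hδ1 h11.le
    linarith
  · have h7 := log_ceil_ge (r := 2 + δ) (v := Real.log (2 * x)) (by linarith)
    have h8 : (2 + δ) * Real.log (Real.log x) ≤ (2 + δ) * Real.log (Real.log (2 * x)) := by
      apply mul_le_mul_of_nonneg_left _ (by linarith)
      exact Real.log_le_log (by linarith) h5
    linarith

/-- the choice of `η` -/
lemma choose_eta {a b ε : ℝ} (hε : 0 < ε) : ∃ η : ℝ, 0 < η ∧ η ≤ 1 / 2 ∧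
    (a + η) * ((2 + η) * (1 + η) * Real.exp (4 * η)) ≤ 2 * a + ε ∧
    (b + η) * ((2 + η) * (1 + η) * Real.exp (4 * η)) ≤ 2 * b + ε := by
  have key : ∀ a : ℝ, ∀ᶠ η : ℝ in 𝓝[>] 0,
      (a + η) * ((2 + η) * (1 + η) * Real.exp (4 * η)) ≤ 2 * a + ε := by
    intro a
    have hc : Continuous fun η : ℝ => (a + η) * ((2 + η) * (1 + η) * Real.exp (4 * η)) := by
      fun_prop
    have h1 := hc.tendsto 0
    simp only [add_zero, mul_zero, Real.exp_zero, mul_one] at h1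
    have h2 := h1.eventually_le_const (show a * 2 < 2 * a + ε by linarith)
    exact eventually_nhdsWithin_of_eventually_nhds h2
  have h3 : ∀ᶠ η : ℝ in 𝓝[>] 0, η ≤ 1 / 2 := by
    apply eventually_nhdsWithin_of_eventually_nhds
    exact eventually_le_nhds (by norm_num)
  obtain ⟨η, ⟨h4, h5, h6⟩, h7⟩ := (((key a).and ((key b).and h3)).and
    self_mem_nhdsWithin).exists
  exact ⟨η, h7, h6, h4, h5⟩

end Pool.Agent.H.MP_2e4794_nt.RL
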