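import Pool.Agent.H.MP_2e4794_nt.RL.EV

/-!
# The geometric mean of `|ζ(1 + it)|` over well-spaced points
-/

namespace Pool.Agent.H.MP_2e4794_nt.RL

open Finset Filter Topology
open Pool.Agent.H.MP_2e4794_nt.ZM (prs mem_prs norm_cpow_le factor_bounds)

lemma exp_SY (y : ℕ) {s : ℂ} (hs : 1 ≤ s.re) :
    Complex.exp (SY y s) = ∏ p ∈ prs 0 y, (1 - (p : ℂ) ^ (-s))⁻¹ := by
  unfold SY ll
  rw [Complex.exp_sum]
  apply prod_congr rfl
  intro p hp
  rw [mem_prs] at hp
  have h1 := pcpow_le_half hp.2.two_le hs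
  have h2 : 1 - (p : ℂ) ^ (-s) ≠ 0 := by
    intro h
    rw [← sub_eq_zero.1 h, norm_one] at h1
    norm_num at h1
  rw [Complex.exp_neg, Complex.exp_log h2]

lemma SY_bounds (y : ℕ) {s : ℂ} (hs : 1 ≤ s.re) :
    Real.exp (SY y s).re ≤ ∏ p ∈ prs 0 y, (1 - 1 / (p : ℝ))⁻¹ ∧
    Real.exp (-(SY y s).re) ≤ ∏ p ∈ prs 0 y, (1 + 1 / (p : ℝ)) := by
  have h0 : ∀ p ∈ prs 0 y, ‖(1 - (p : ℂ) ^ (-s))⁻¹‖ ≤ (1 - 1 / (p : ℝ))⁻¹ ∧
      1 ≤ ‖(1 - (p : ℂ) ^ (-s))⁻¹‖ * (1 + 1 / (p : ℝ)) := by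
    intro p hp
    rw [mem_prs] at hp
    exact factor_bounds hp.2.two_le (norm_cpow_le hs hp.2.one_lt.le)
  constructor
  · rw [← Complex.norm_exp, exp_SY y hs, norm_prod]
    exact prod_le_prod (fun p _ => norm_nonneg _) (fun p hp => (h0 p hp).1)
  · rw [Real.exp_neg, inv_le_iff_one_le_mul₀ (Real.exp_pos _), ← Complex.norm_exp, exp_SY y hs,
      norm_prod, ← prod_mul_distrib]
    calc (1 : ℝ) = ∏ p ∈ prs 0 y, (1 : ℝ) := by rw [prod_const_one]
      _ ≤ ∏ p ∈ prs 0 y, ((1 + 1 / (p : ℝ)) * ‖(1 - (p : ℂ) ^ (-s))⁻¹‖) := by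
          apply prod_le_prod (fun p _ => zero_le_one)
          intro p hp
          rw [mul_comm]
          exact (h0 p hp).2

/-- an elementary inequality for the product over the points -/
lemma prod_bound {T : Finset ℝ} {F V : ℝ → ℝ} {P η L W A E : ℝ} (hT : T.Nonempty)
    (hF : ∀ t ∈ T, 0 ≤ F t) (hFV : ∀ t ∈ T, F t ≤ P * Real.exp (V t + η))
    (hV : ∑ t ∈ T, V t ≤ W * Real.sqrt T.card + T.card * η)
    (hW : W ≤ L + 2 * η) (hη : 0 < η) (hP : P ≤ A) (hA : 0 ≤ A)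
    (hE : A * Real.exp (4 * η) ≤ E) :
    ∏ t ∈ T, F t ≤ (E * Real.exp (L / Real.sqrt T.card)) ^ T.card := by
  have hN : (1 : ℝ) ≤ T.card := by exact_mod_cast hT.card_pos
  have hs1 : 1 ≤ Real.sqrt T.card := by
    apply Real.le_sqrt_of_sq_le
    linarith
  have hs0 : 0 < Real.sqrt T.card := by linarith
  have hss : Real.sqrt T.card * Real.sqrt T.card = T.card := Real.mul_self_sqrt (by linarith)
  have h1 : ∏ t ∈ T, F t ≤ ∏ t ∈ T, (A * Real.exp (V t + η)) := by
    apply prod_le_prod hF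
    intro t ht
    exact (hFV t ht).trans (mul_le_mul_of_nonneg_right hP (Real.exp_pos _).le)
  refine h1.trans ?_
  rw [prod_mul_distrib, prod_const, ← Real.exp_sum, sum_add_distrib, sum_const, nsmul_eq_mul]
  have h2 : ∑ t ∈ T, V t + T.card * η ≤ T.card * (4 * η + L / Real.sqrt T.card) := by
    have h3 : W * Real.sqrt T.card ≤ (L + 2 * η) * Real.sqrt T.card :=
      mul_le_mul_of_nonneg_right hW hs0.le
    have h4 : T.card * (L / Real.sqrt T.card) = L * Real.sqrt T.card := by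
      rw [mul_div_assoc', div_eq_iff hs0.ne', mul_assoc L, hss]
      ring
    have h5 : Real.sqrt T.card ≤ T.card := by
      calc Real.sqrt T.card ≤ Real.sqrt T.card * Real.sqrt T.card :=
            le_mul_of_one_le_left hs0.le hs1
        _ = T.card := hss
    have h6 : 2 * η * Real.sqrt T.card ≤ 2 * η * T.card :=
      mul_le_mul_of_nonneg_left h5 (by linarith)
    rw [mul_add, h4]
    linarith
  calc A ^ T.card * Real.exp (∑ t ∈ T, V t + T.card * η) ≤
      A ^ T.card * Real.exp (T.card * (4 * η + L / Real.sqrt T.card)) := by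
        apply mul_le_mul_of_nonneg_left (Real.exp_le_exp.2 h2) (by positivity)
    _ = (A * Real.exp (4 * η) * Real.exp (L / Real.sqrt T.card)) ^ T.card := by
        rw [Real.exp_nat_mul, Real.exp_add, ← mul_pow, mul_assoc]
    _ ≤ (E * Real.exp (L / Real.sqrt T.card)) ^ T.card := by
        apply pow_le_pow_left₀ (by positivity)
        exact mul_le_mul_of_nonneg_right hE (Real.exp_pos _).le

/-- the conclusion of the set-up, for the window `[x, x+H]` -/
structure Win (δ η C x H : ℝ) (V : ℝ → ℂ) : Prop where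
  lam : 0 ≤ Real.log (Real.log (Real.log x) / Real.log (Real.log H))
  one : 1 ≤ Real.log (Real.log H)
  plus : ∏ p ∈ prs 0 ⌈Real.log H ^ (2 + δ)⌉₊, (1 - 1 / (p : ℝ))⁻¹ ≤
    (Real.exp Real.eulerMascheroniConstant + η) *
      ((2 + δ) * (1 + η) * Real.log (Real.log H))
  minus : ∏ p ∈ prs 0 ⌈Real.log H ^ (2 + δ)⌉₊, (1 + 1 / (p : ℝ)) ≤
    (6 / Real.pi ^ 2 * Real.exp Real.eulerMascheroniConstant + η) *
      ((2 + δ) * (1 + η) * Real.log (Real.log H))
  spaced : ∀ T : Finset ℝ, (∀ t ∈ T, x ≤ t ∧ t ≤ x + H) →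
    (∀ t ∈ T, ∀ t' ∈ T, t ≠ t' → C ≤ |t - t'|) →
    ∑ t ∈ T, ‖V t‖ ≤ (Real.log (Real.log (Real.log x) / Real.log (Real.log H)) + 2 * η) *
      Real.sqrt T.card + T.card * η
  zeta : ∀ t : ℝ, x ≤ t → t ≤ x + H → ∃ v : ℂ, ‖v‖ ≤ η ∧
    riemannZeta (1 + t * Complex.I) =
      Complex.exp (SY ⌈Real.log H ^ (2 + δ)⌉₊ (1 + t * Complex.I) + V t + v)

/-- **The set-up, under RH.** -/
theorem setup (RH : RiemannHypothesis) {δ η : ℝ} (hδ0 : 0 < δ) (hδ1 : δ ≤ 1) (hη0 : 0 < η)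
    (hη1 : η ≤ 1 / 2) :
    ∃ C : ℝ, 3 ≤ C ∧ ∀ x H : ℝ, C ≤ H → H ≤ x →
      C * (1 + Real.log (Real.log (Real.log x) / Real.log (Real.log H))) ^ C ≤ Real.log H →
      ∃ V : ℝ → ℂ, Win δ η C x H V := by
  obtain ⟨K, U0, Y0, hK, hU0, hY0, hpack⟩ := package RH hδ0 hδ1
  obtain ⟨C0, hC0, hevH⟩ := ev_H K hδ0 hη0 Y0
  obtain ⟨C1, hevx⟩ := ev_x (2 * K / η) hδ0 hδ1 hη0
  obtain ⟨θ, hθ⟩ : ∃ θ, θ = 5 * δ / 24 := ⟨_, rfl⟩
  have hθ0 : 0 < θ := by rw [hθ]; linarith
  obtain ⟨C, hC⟩ : ∃ C, C = max (max C0 C1) (max (max U0 (1 / θ)) ((2 * K / η ^ 2) ^ (1 / θ))) :=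
    ⟨_, rfl⟩
  have hCC0 : C0 ≤ C := by rw [hC]; exact (le_max_left _ _).trans (le_max_left _ _)
  have hCC1 : C1 ≤ C := by rw [hC]; exact (le_max_right _ _).trans (le_max_left _ _)
  have hCU : U0 ≤ C := by
    rw [hC]
    exact ((le_max_left _ _).trans (le_max_left _ _)).trans (le_max_right _ _)
  have hCθ : 1 / θ ≤ C := by
    rw [hC]
    exact ((le_max_right _ _).trans (le_max_left _ _)).trans (le_max_right _ _)
  have hCK : (2 * K / η ^ 2) ^ (1 / θ) ≤ C := by
    rw [hC]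
    exact (le_max_right _ _).trans (le_max_right _ _)
  have hC3 : 3 ≤ C := hC0.trans hCC0
  refine ⟨C, hC3, ?_⟩
  intro x H hH hHx hcond
  have hx : C ≤ x := hH.trans hHx
  obtain ⟨a1, a2, a3, a4, a5, a6, a7, a8⟩ := hevH H (hCC0.trans hH)
  obtain ⟨b1, b2, b3⟩ := hevx x (hCC1.trans hx)
  obtain ⟨Y, hY⟩ : ∃ Y, Y = ⌈Real.log H ^ (2 + δ)⌉₊ := ⟨_, rfl⟩
  obtain ⟨y, hy⟩ : ∃ y, y = ⌈Real.log (2 * x) ^ (2 + δ)⌉₊ := ⟨_, rfl⟩
  rw [← hY] at a1 a2 a3 a4 a5 a6
  rw [← hy] at b1 b2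
  obtain ⟨l, hl⟩ : ∃ l, l = Real.log (Real.log H) := ⟨_, rfl⟩
  obtain ⟨X, hX⟩ : ∃ X, X = Real.log (Real.log x) := ⟨_, rfl⟩
  rw [← hl, ← hX] at hcond
  rw [← hl] at a4 a5 a7
  rw [← hX] at b1 b2 b3
  have hlogHx : Real.log H ≤ Real.log x := Real.log_le_log (by linarith) hHx
  have hlX : l ≤ X := by
    rw [hl, hX]
    exact Real.log_le_log (by linarith) hlogHx
  have hl0 : 0 < l := by linarith
  have hX0 : 0 < X := by linarith
  obtain ⟨Λ, hΛ⟩ : ∃ Λ, Λ = Real.log (X / l) := ⟨_, rfl⟩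
  rw [← hΛ] at hcond
  have hΛ0 : 0 ≤ Λ := by
    rw [hΛ]
    apply Real.log_nonneg
    rw [le_div_iff₀ hl0]
    linarith
  have hΛX : Λ ≤ Real.log X := by
    rw [hΛ]
    apply Real.log_le_log (by positivity)
    rw [div_le_iff₀ hl0]
    nlinarith
  have hYy : Y ≤ y := by
    rw [hY, hy]
    apply Nat.ceil_mono
    apply Real.rpow_le_rpow (by linarith) _ (by linarith)
    exact Real.log_le_log (by linarith) (by linarith)
  obtain ⟨w, hw0, hwW, hwu, hwt⟩ := hpack Y y a1 hYy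
  have hY16 : 16 ≤ Y := hY0.trans a1
  have hY16' : (16 : ℝ) ≤ Y := by exact_mod_cast hY16
  have hYy' : (Y : ℝ) ≤ y := by exact_mod_cast hYy
  have hLY : 0 < Real.log Y := Real.log_pos (by linarith)
  have hLy : Real.log Y ≤ Real.log y := Real.log_le_log (by linarith) hYy'
  have hLy0 : 0 < Real.log y := by linarith
  -- the total weight
  have hW : ∑ p ∈ prs 0 y, w p * (1 / (p : ℝ)) ≤ Λ + 2 * η := by
    have h1 := (abs_le.1 (WW_window (by omega) hYy)).2
    have h2 : Real.log (Real.log y) ≤ Real.log ((2 + δ) * (1 + η) * X) :=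
      Real.log_le_log hLy0 b1
    have h3 : Real.log ((2 + δ) * l) ≤ Real.log (Real.log Y) :=
      Real.log_le_log (by positivity) a5
    have h4 : Real.log ((2 + δ) * (1 + η) * X) - Real.log ((2 + δ) * l) =
        Real.log (1 + η) + Λ := by
      rw [hΛ, Real.log_div hX0.ne' hl0.ne', Real.log_mul (by positivity) hX0.ne',
        Real.log_mul (by positivity) (by positivity), Real.log_mul (by positivity) hl0.ne']
      ring
    have h5 : Real.log (1 + η) ≤ η := by
      have := Real.log_le_sub_one_of_pos (show 0 < 1 + η by linarith)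
      linarith
    linarith
  -- the off-diagonal terms
  obtain ⟨E, hE⟩ : ∃ E, E = K * (Real.exp (-(5 * δ / 48 * Real.log Y)) +
    1 / Real.sqrt (Real.log y)) := ⟨_, rfl⟩
  have hE0 : 0 ≤ E := by
    rw [hE]
    positivity
  have hWE : (Λ + 2 * η) * E ≤ η ^ 2 := by
    have h1 : (Λ + 2 * η) * E ≤ (1 + Λ) * E := by
      apply mul_le_mul_of_nonneg_right _ hE0
      linarith
    have hlogH0 : 0 < Real.log H := by linarith
    have h2 : K * (1 + Λ) * Real.exp (-(5 * δ / 48 * Real.log Y)) ≤ η ^ 2 / 2 := by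
      have h3 : Real.exp (-(5 * δ / 48 * Real.log Y)) ≤ Real.log H ^ (-θ) := by
        rw [Real.rpow_def_of_pos hlogH0]
        apply Real.exp_le_exp.2
        rw [← hl, hθ]
        have h4 : 2 * l ≤ Real.log Y := by
          refine le_trans ?_ a5
          nlinarith
        have h5 : 5 * δ / 48 * (2 * l) ≤ 5 * δ / 48 * Real.log Y :=
          mul_le_mul_of_nonneg_left h4 (by positivity)
        linarith
      have h4 : 2 * K / η ^ 2 * (1 + Λ) ≤ Real.log H ^ θ := by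
        have h5 : (C * (1 + Λ) ^ C) ^ θ ≤ Real.log H ^ θ :=
          Real.rpow_le_rpow (by positivity) hcond hθ0.le
        refine le_trans ?_ h5
        rw [Real.mul_rpow (by linarith) (by positivity), ← Real.rpow_mul (by linarith)]
        apply mul_le_mul
        · have h6 : ((2 * K / η ^ 2) ^ (1 / θ)) ^ θ ≤ C ^ θ :=
            Real.rpow_le_rpow (by positivity) hCK hθ0.le
          rw [← Real.rpow_mul (by positivity), one_div_mul_cancel hθ0.ne', Real.rpow_one] at h6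
          exact h6
        · have h6 : 1 ≤ C * θ := by
            rw [div_le_iff₀ hθ0] at hCθ
            exact hCθ
          calc 1 + Λ = (1 + Λ) ^ (1 : ℝ) := (Real.rpow_one _).symm
            _ ≤ (1 + Λ) ^ (C * θ) := Real.rpow_le_rpow_of_exponent_le (by linarith) h6
        · linarith
        · positivity
      have h5 : Real.log H ^ θ * Real.log H ^ (-θ) = 1 := by
        rw [← Real.rpow_add hlogH0, add_neg_cancel, Real.rpow_zero]
      have h6 : 0 < Real.log H ^ (-θ) := by positivity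
      calc K * (1 + Λ) * Real.exp (-(5 * δ / 48 * Real.log Y)) ≤
          K * (1 + Λ) * Real.log H ^ (-θ) := by
            apply mul_le_mul_of_nonneg_left h3 (by positivity)
        _ = η ^ 2 / 2 * (2 * K / η ^ 2 * (1 + Λ)) * Real.log H ^ (-θ) := by
            field_simp
        _ ≤ η ^ 2 / 2 * Real.log H ^ θ * Real.log H ^ (-θ) := by
            apply mul_le_mul_of_nonneg_right _ h6.le
            apply mul_le_mul_of_nonneg_left h4 (by positivity)
        _ = η ^ 2 / 2 := by rw [mul_assoc, h5, mul_one]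
    have h3 : K * (1 + Λ) * (1 / Real.sqrt (Real.log y)) ≤ η ^ 2 / 2 := by
      have h4 : X ≤ Real.log y := by
        refine le_trans ?_ b2
        nlinarith
      have h5 : Real.sqrt X ≤ Real.sqrt (Real.log y) := Real.sqrt_le_sqrt h4
      have h6 : 0 < Real.sqrt X := Real.sqrt_pos.2 hX0
      have h7 : 1 / Real.sqrt (Real.log y) ≤ 1 / Real.sqrt X := one_div_le_one_div_of_le h6 h5
      calc K * (1 + Λ) * (1 / Real.sqrt (Real.log y)) ≤
          K * (1 + Real.log X) * (1 / Real.sqrt X) := by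
            apply mul_le_mul _ h7 (by positivity)
            · apply mul_nonneg hK.le
              linarith
            · apply mul_le_mul_of_nonneg_left _ hK.le
              linarith
        _ = η / 2 * (2 * K / η * (1 + Real.log X) / Real.sqrt X) := by
            field_simp
        _ ≤ η / 2 * η := mul_le_mul_of_nonneg_left b3 (by positivity)
        _ = η ^ 2 / 2 := by ring
    have h4 : (1 + Λ) * E = K * (1 + Λ) * Real.exp (-(5 * δ / 48 * Real.log Y)) +
        K * (1 + Λ) * (1 / Real.sqrt (Real.log y)) := by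
      rw [hE]
      ring
    linarith
  have hsqrt : Real.sqrt ((Λ + 2 * η) * E) ≤ η := by
    rw [Real.sqrt_le_iff]
    exact ⟨hη0.le, hWE⟩
  have hfac : ∀ a : ℝ, 0 < a → (a + η) * Real.log Y ≤ (a + η) * ((2 + δ) * (1 + η) * l) := by
    intro a ha
    exact mul_le_mul_of_nonneg_left a4 (by positivity)
  refine ⟨fun t => VV w y (1 + t * Complex.I), ?_⟩
  constructor
  · rw [← hl, ← hX, ← hΛ]
    exact hΛ0
  · rw [← hl]
    exact a7
  · rw [← hl, ← hY]
    exact a2.trans (hfac _ (Real.exp_pos _))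
  · rw [← hl, ← hY]
    exact a3.trans (hfac _ (by positivity))
  · intro T hT hT2
    rw [← hl, ← hX, ← hΛ]
    have hsp := spaced (T := T) (U := C) (H := H) hw0 y hW hE0 (by
      intro u hu1 hu2
      rw [hE]
      apply hwu u (hCU.trans hu1)
      refine le_trans ?_ (hY ▸ Nat.le_ceil _)
      apply Real.rpow_le_rpow (Real.log_nonneg (by linarith)) _ (by linarith)
      exact Real.log_le_log (by linarith) hu2) (by
      intro t ht t' ht'
      obtain ⟨h1, h2⟩ := hT t ht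
      obtain ⟨h3, h4⟩ := hT t' ht'
      rw [abs_le]
      constructor <;> linarith) hT2
    refine hsp.trans ?_
    have : (T.card : ℝ) * Real.sqrt ((Λ + 2 * η) * E) ≤ T.card * η :=
      mul_le_mul_of_nonneg_left hsqrt (Nat.cast_nonneg _)
    linarith
  · intro t h1 h2
    rw [← hY]
    obtain ⟨z, hz1, hz2⟩ := hwt t (by linarith) (by
      refine le_trans ?_ (hy ▸ Nat.le_ceil _)
      apply Real.rpow_le_rpow (Real.log_nonneg (by linarith)) _ (by linarith)
      exact Real.log_le_log (by linarith) (by linarith))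
    refine ⟨z, ?_, hz2⟩
    refine hz1.trans ?_
    have : 0 ≤ 12 / Real.log Y := by positivity
    linarith

lemma hsre (t : ℝ) : ((1 : ℂ) + t * Complex.I).re = 1 := by
  simp

/-- the upper bounds at one point -/
lemma Win.upper {δ η C x H : ℝ} {V : ℝ → ℂ} (h : Win δ η C x H V) {t : ℝ} (h1 : x ≤ t)
    (h2 : t ≤ x + H) :
    ‖riemannZeta (1 + t * Complex.I)‖ ≤
      (∏ p ∈ prs 0 ⌈Real.log H ^ (2 + δ)⌉₊, (1 - 1 / (p : ℝ))⁻¹) * Real.exp (‖V t‖ + η) ∧
    ‖riemannZeta (1 + t * Complex.I)‖⁻¹ ≤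
      (∏ p ∈ prs 0 ⌈Real.log H ^ (2 + δ)⌉₊, (1 + 1 / (p : ℝ))) * Real.exp (‖V t‖ + η) := by
  obtain ⟨v, hv1, hv2⟩ := h.zeta t h1 h2
  have hb := SY_bounds ⌈Real.log H ^ (2 + δ)⌉₊ (hsre t).ge
  have hv3 := abs_le.1 ((Complex.abs_re_le_norm v).trans hv1)
  have hv4 := abs_le.1 (Complex.abs_re_le_norm (V t))
  rw [hv2, Complex.norm_exp, Complex.add_re, Complex.add_re]
  constructor
  · rw [add_assoc, Real.exp_add]
    apply mul_le_mul hb.1 _ (Real.exp_pos _).le
    · apply prod_nonneg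
      intro p hp
      rw [mem_prs] at hp
      have hp2 : (2 : ℝ) ≤ p := by exact_mod_cast hp.2.two_le
      have : 1 / (p : ℝ) ≤ 1 / 2 := one_div_le_one_div_of_le (by norm_num) hp2
      apply inv_nonneg.2
      linarith
    · apply Real.exp_le_exp.2
      linarith [hv3.2, hv4.2]
  · rw [← Real.exp_neg]
    have h1 : -((SY ⌈Real.log H ^ (2 + δ)⌉₊ (1 + t * Complex.I)).re + (V t).re + v.re) =
        -(SY ⌈Real.log H ^ (2 + δ)⌉₊ (1 + t * Complex.I)).re + (-(V t).re + -v.re) := by ring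
    rw [h1, Real.exp_add]
    apply mul_le_mul hb.2 _ (Real.exp_pos _).le
    · apply prod_nonneg
      intro p _
      positivity
    · apply Real.exp_le_exp.2
      linarith [hv3.1, hv4.1]

/-- **Well-spaced points, under RH.** -/
theorem npoint (RH : RiemannHypothesis) {ε : ℝ} (hε : 0 < ε) :
    ∃ C : ℝ, 3 ≤ C ∧ ∀ x H : ℝ, C ≤ H → H ≤ x →
      C * (1 + Real.log (Real.log (Real.log x) / Real.log (Real.log H))) ^ C ≤ Real.log H →
      ∀ T : Finset ℝ, T.Nonempty → (∀ t ∈ T, x ≤ t ∧ t ≤ x + H) →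
      (∀ t ∈ T, ∀ t' ∈ T, t ≠ t' → C ≤ |t - t'|) →
      ∏ t ∈ T, ‖riemannZeta (1 + t * Complex.I)‖ ≤
        ((2 * Real.exp Real.eulerMascheroniConstant + ε) * Real.log (Real.log H) *
          Real.exp (Real.log (Real.log (Real.log x) / Real.log (Real.log H)) /
            Real.sqrt T.card)) ^ T.card ∧
      ∏ t ∈ T, ‖riemannZeta (1 + t * Complex.I)‖⁻¹ ≤
        ((2 * (6 / Real.pi ^ 2 * Real.exp Real.eulerMascheroniConstant) + ε) *
          Real.log (Real.log H) *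
          Real.exp (Real.log (Real.log (Real.log x) / Real.log (Real.log H)) /
            Real.sqrt T.card)) ^ T.card := by
  obtain ⟨η, hη0, hη1, hea, heb⟩ := choose_eta (a := Real.exp Real.eulerMascheroniConstant)
    (b := 6 / Real.pi ^ 2 * Real.exp Real.eulerMascheroniConstant) hε
  obtain ⟨C, hC3, hset⟩ := setup RH hη0 (by linarith) hη0 hη1
  refine ⟨C, hC3, ?_⟩
  intro x H hH hHx hcond T hTn hT hT2
  obtain ⟨V, hV⟩ := hset x H hH hHx hcond
  have hsp := hV.spaced T hT hT2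
  have hl0 : 0 < Real.log (Real.log H) := by linarith [hV.one]
  have hfac : ∀ a : ℝ, 0 < a → (a + η) * ((2 + η) * (1 + η) * Real.exp (4 * η)) ≤ 2 * a + ε →
      0 ≤ (a + η) * ((2 + η) * (1 + η) * Real.log (Real.log H)) ∧
      (a + η) * ((2 + η) * (1 + η) * Real.log (Real.log H)) * Real.exp (4 * η) ≤
        (2 * a + ε) * Real.log (Real.log H) := by
    intro a ha h
    refine ⟨by positivity, ?_⟩
    have := mul_le_mul_of_nonneg_right h hl0.le
    linarith
  obtain ⟨c2, c3⟩ := hfac _ (Real.exp_pos _) hea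
  obtain ⟨d2, d3⟩ := hfac _ (by positivity) heb
  constructor
  · exact prod_bound (V := fun t => ‖V t‖) (η := η) hTn (fun t _ => norm_nonneg _)
      (fun t ht => (hV.upper (hT t ht).1 (hT t ht).2).1) hsp le_rfl hη0
      hV.plus c2 c3
  · exact prod_bound (V := fun t => ‖V t‖) (η := η) hTn
      (fun t _ => inv_nonneg.2 (norm_nonneg _))
      (fun t ht => (hV.upper (hT t ht).1 (hT t ht).2).2) hsp le_rfl hη0 hV.minus d2 d3

end Pool.Agent.H.MP_2e4794_nt.RL
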