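import Mathlib

/-!
# Maximal separated sets
-/

namespace Pool.Agent.H.MP_2e4794_nt.RL

open Finset Filter Topology

/-- maximal separated sets -/
lemma exists_maximal_sep (E : Set ℝ) {C : ℝ} (hC : 0 < C) (n : ℕ)
    (h : ∀ T : Finset ℝ, (∀ t ∈ T, t ∈ E) → (∀ t ∈ T, ∀ t' ∈ T, t ≠ t' → C ≤ |t - t'|) →
      T.card ≤ n) :
    ∃ T : Finset ℝ, (∀ t ∈ T, t ∈ E) ∧ T.card ≤ n ∧ ∀ t ∈ E, ∃ s ∈ T, |t - s| ≤ C := by
  by_contra hcon
  push Not at hcon
  have key : ∀ k : ℕ, ∃ T : Finset ℝ, (∀ t ∈ T, t ∈ E) ∧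
      (∀ t ∈ T, ∀ t' ∈ T, t ≠ t' → C ≤ |t - t'|) ∧ T.card = k := by
    intro k
    induction k with
    | zero => exact ⟨∅, by simp, by simp, rfl⟩
    | succ k ih =>
      obtain ⟨T, h1, h2, h3⟩ := ih
      obtain ⟨t, ht, ht2⟩ := hcon T h1 (h T h1 h2)
      have htT : t ∉ T := by
        intro hmem
        have := ht2 t hmem
        rw [sub_self, abs_zero] at this
        linarith
      refine ⟨insert t T, ?_, ?_, by rw [card_insert_of_notMem htT, h3]⟩
      · intro a ha
        rw [mem_insert] at ha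
        rcases ha with rfl | ha
        · exact ht
        · exact h1 a ha
      · intro a ha b hb hab
        rw [mem_insert] at ha hb
        rcases ha with rfl | ha
        · rcases hb with rfl | hb
          · exact absurd rfl hab
          · exact (ht2 b hb).le
        · rcases hb with rfl | hb
          · rw [abs_sub_comm]
            exact (ht2 a ha).le
          · exact h2 a ha b hb hab
  obtain ⟨T, h1, h2, h3⟩ := key (n + 1)
  have := h T h1 h2
  omega

end Pool.Agent.H.MP_2e4794_nt.RL
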