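import Pool.Agent.H.MP_2e4794_nt.RL.WT

/-!
# Duality
-/

namespace Pool.Agent.H.MP_2e4794_nt.RL

open Finset Filter Topology
open Pool.Agent.H.MP_2e4794_nt.ZM (prs mem_prs)

/-- `p^{-it}` -/
noncomputable def ee (p : ℕ) (t : ℝ) : ℂ := (p : ℂ) ^ (-(t * Complex.I))

lemma pcpow_eq {p : ℕ} (hp : 2 ≤ p) (t : ℝ) :
    (p : ℂ) ^ (-((1 : ℂ) + t * Complex.I)) = ((1 / (p : ℝ) : ℝ) : ℂ) * ee p t := by
  have h0 : (p : ℂ) ≠ 0 := by
    have : p ≠ 0 := by omega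
    exact_mod_cast this
  unfold ee
  rw [neg_add, Complex.cpow_add _ _ h0, Complex.cpow_neg_one]
  push_cast
  rw [one_div]

lemma ee_mul {p : ℕ} (hp : 2 ≤ p) (t t' : ℝ) :
    ee p t * (starRingEnd ℂ) (ee p t') = ee p (t - t') := by
  have h0 : (p : ℂ) ≠ 0 := by
    have : p ≠ 0 := by omega
    exact_mod_cast this
  unfold ee
  rw [Complex.cpow_def_of_ne_zero h0, Complex.cpow_def_of_ne_zero h0,
    Complex.cpow_def_of_ne_zero h0, ← Complex.natCast_log, ← Complex.exp_conj, ← Complex.exp_add]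
  congr 1
  simp only [map_mul, map_neg, Complex.conj_ofReal, Complex.conj_I]
  push_cast
  ring

lemma VV_eq (w : ℕ → ℝ) (y : ℕ) (t : ℝ) : VV w y (1 + t * Complex.I) =
    ∑ p ∈ prs 0 y, ((w p * (1 / (p : ℝ)) : ℝ) : ℂ) * ee p t := by
  unfold VV
  apply sum_congr rfl
  intro p hp
  rw [mem_prs] at hp
  rw [pcpow_eq hp.2.two_le]
  push_cast
  ring

/-- **Duality.** -/
theorem duality {w : ℕ → ℝ} (hw : ∀ p, 0 ≤ w p) (y : ℕ) (T : Finset ℝ) :
    (∑ t ∈ T, ‖VV w y (1 + t * Complex.I)‖) ^ 2 ≤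
      (∑ p ∈ prs 0 y, w p * (1 / (p : ℝ))) *
        ∑ t ∈ T, ∑ t' ∈ T, ‖VV w y (1 + ((t - t' : ℝ) : ℂ) * Complex.I)‖ := by
  have ha : ∀ p, 0 ≤ w p * (1 / (p : ℝ)) := fun p => mul_nonneg (hw p) (by positivity)
  -- the coefficients
  have hc : ∀ z : ℂ, ∃ c : ℂ, ‖c‖ ≤ 1 ∧ c * z = (‖z‖ : ℂ) := by
    intro z
    rcases eq_or_ne z 0 with rfl | hz
    · exact ⟨0, by simp, by simp⟩
    · have hz' : (‖z‖ : ℂ) ≠ 0 := by
        have := norm_ne_zero_iff.2 hz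
        exact_mod_cast this
      refine ⟨(‖z‖ : ℂ) / z, ?_, by field_simp⟩
      rw [norm_div, Complex.norm_real, norm_norm, div_self (norm_ne_zero_iff.2 hz)]
  choose c hc1 hc2 using fun t : ℝ => hc (VV w y (1 + t * Complex.I))
  obtain ⟨Z, hZ⟩ : ∃ Z : ℕ → ℂ, Z = fun p => ∑ t ∈ T, c t * ee p t := ⟨_, rfl⟩
  have h1 : ((∑ t ∈ T, ‖VV w y (1 + t * Complex.I)‖ : ℝ) : ℂ) =
      ∑ p ∈ prs 0 y, ((w p * (1 / (p : ℝ)) : ℝ) : ℂ) * Z p := by
    rw [Complex.ofReal_sum, sum_congr rfl (fun t _ => (hc2 t).symm)]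
    simp only [VV_eq, hZ, mul_sum]
    rw [sum_comm]
    apply sum_congr rfl
    intro p _
    apply sum_congr rfl
    intro t _
    ring
  have h2 : ∑ t ∈ T, ‖VV w y (1 + t * Complex.I)‖ ≤
      ∑ p ∈ prs 0 y, w p * (1 / (p : ℝ)) * ‖Z p‖ := by
    have h3 : ∑ t ∈ T, ‖VV w y (1 + t * Complex.I)‖ =
        ‖((∑ t ∈ T, ‖VV w y (1 + t * Complex.I)‖ : ℝ) : ℂ)‖ := by
      rw [Complex.norm_real, Real.norm_eq_abs, abs_of_nonneg (sum_nonneg fun _ _ => norm_nonneg _)]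
    rw [h3, h1]
    refine (norm_sum_le _ _).trans (le_of_eq ?_)
    apply sum_congr rfl
    intro p _
    rw [norm_mul, Complex.norm_real, Real.norm_eq_abs, abs_of_nonneg (ha p)]
  have h4 := Finset.sum_sq_le_sum_mul_sum_of_sq_le_mul (prs 0 y)
    (r := fun p => w p * (1 / (p : ℝ)) * ‖Z p‖)
    (f := fun p => w p * (1 / (p : ℝ)))
    (g := fun p => w p * (1 / (p : ℝ)) * ‖Z p‖ ^ 2)
    (fun p _ => ha p)
    (fun p _ => mul_nonneg (ha p) (sq_nonneg _))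
    (fun p _ => le_of_eq (by ring))
  have h5 : ∑ p ∈ prs 0 y, w p * (1 / (p : ℝ)) * ‖Z p‖ ^ 2 ≤
      ∑ t ∈ T, ∑ t' ∈ T, ‖VV w y (1 + ((t - t' : ℝ) : ℂ) * Complex.I)‖ := by
    have h6 : ((∑ p ∈ prs 0 y, w p * (1 / (p : ℝ)) * ‖Z p‖ ^ 2 : ℝ) : ℂ) =
        ∑ t ∈ T, ∑ t' ∈ T, c t * (starRingEnd ℂ) (c t') *
          VV w y (1 + ((t - t' : ℝ) : ℂ) * Complex.I) := by
      simp only [VV_eq, mul_sum]
      rw [Complex.ofReal_sum]
      have h7 : ∀ t ∈ T, ∑ t' ∈ T, ∑ p ∈ prs 0 y, c t * (starRingEnd ℂ) (c t') *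
          (((w p * (1 / (p : ℝ)) : ℝ) : ℂ) * ee p (t - t')) =
          ∑ p ∈ prs 0 y, ∑ t' ∈ T, c t * (starRingEnd ℂ) (c t') *
          (((w p * (1 / (p : ℝ)) : ℝ) : ℂ) * ee p (t - t')) := fun t _ => sum_comm
      rw [sum_congr rfl h7, sum_comm]
      apply sum_congr rfl
      intro p hp
      rw [mem_prs] at hp
      have h8 : ((‖Z p‖ ^ 2 : ℝ) : ℂ) = Z p * (starRingEnd ℂ) (Z p) := by
        rw [Complex.mul_conj, Complex.normSq_eq_norm_sq]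
      push_cast at h8 ⊢
      rw [h8, hZ]
      simp only [map_sum, map_mul]
      rw [sum_mul_sum, mul_sum]
      apply sum_congr rfl
      intro t _
      rw [mul_sum]
      apply sum_congr rfl
      intro t' _
      rw [← ee_mul hp.2.two_le]
      ring
    have h9 : ∑ p ∈ prs 0 y, w p * (1 / (p : ℝ)) * ‖Z p‖ ^ 2 =
        ‖((∑ p ∈ prs 0 y, w p * (1 / (p : ℝ)) * ‖Z p‖ ^ 2 : ℝ) : ℂ)‖ := by
      rw [Complex.norm_real, Real.norm_eq_abs, abs_of_nonneg]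
      exact sum_nonneg fun p _ => mul_nonneg (ha p) (sq_nonneg _)
    rw [h9, h6]
    refine (norm_sum_le _ _).trans (sum_le_sum fun t _ => ?_)
    refine (norm_sum_le _ _).trans (sum_le_sum fun t' _ => ?_)
    rw [norm_mul, norm_mul, RCLike.norm_conj]
    have h10 : ‖c t‖ * ‖c t'‖ ≤ 1 := mul_le_one₀ (hc1 t) (norm_nonneg _) (hc1 t')
    exact mul_le_of_le_one_left (norm_nonneg _) h10
  calc (∑ t ∈ T, ‖VV w y (1 + t * Complex.I)‖) ^ 2 ≤
      (∑ p ∈ prs 0 y, w p * (1 / (p : ℝ)) * ‖Z p‖) ^ 2 :=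
        pow_le_pow_left₀ (sum_nonneg fun _ _ => norm_nonneg _) h2 2
    _ ≤ _ := h4
    _ ≤ _ := mul_le_mul_of_nonneg_left h5 (sum_nonneg fun p _ => ha p)

/-- **Well-spaced points.** -/
theorem spaced {w : ℕ → ℝ} (hw : ∀ p, 0 ≤ w p) (y : ℕ) {T : Finset ℝ} {W E U H : ℝ}
    (hW : ∑ p ∈ prs 0 y, w p * (1 / (p : ℝ)) ≤ W) (hE0 : 0 ≤ E)
    (hE : ∀ u : ℝ, U ≤ u → u ≤ H → ‖VV w y (1 + u * Complex.I)‖ ≤ E)
    (hT : ∀ t ∈ T, ∀ t' ∈ T, |t - t'| ≤ H) (hT2 : ∀ t ∈ T, ∀ t' ∈ T, t ≠ t' → U ≤ |t - t'|) :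
    ∑ t ∈ T, ‖VV w y (1 + t * Complex.I)‖ ≤
      W * Real.sqrt T.card + T.card * Real.sqrt (W * E) := by
  have hW0 : 0 ≤ ∑ p ∈ prs 0 y, w p * (1 / (p : ℝ)) :=
    sum_nonneg fun p _ => mul_nonneg (hw p) (by positivity)
  have hWn : 0 ≤ W := hW0.trans hW
  have h1 := duality hw y T
  have heven : ∀ u : ℝ, ‖VV w y (1 + ((-u : ℝ) : ℂ) * Complex.I)‖ =
      ‖VV w y (1 + u * Complex.I)‖ := by
    intro u
    rw [← RCLike.norm_conj (VV w y (1 + u * Complex.I)), VV_eq, VV_eq, map_sum]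
    congr 1
    apply sum_congr rfl
    intro p hp
    rw [mem_prs] at hp
    rw [map_mul, Complex.conj_ofReal]
    congr 1
    have h2 := ee_mul hp.2.two_le 0 u
    rw [zero_sub] at h2
    rw [← h2]
    unfold ee
    simp
  have hzero : ‖VV w y (1 + ((0 : ℝ) : ℂ) * Complex.I)‖ =
      ∑ p ∈ prs 0 y, w p * (1 / (p : ℝ)) := by
    rw [VV_eq]
    have h2 : ∑ p ∈ prs 0 y, ((w p * (1 / (p : ℝ)) : ℝ) : ℂ) * ee p 0 =
        ((∑ p ∈ prs 0 y, w p * (1 / (p : ℝ)) : ℝ) : ℂ) := by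
      rw [Complex.ofReal_sum]
      apply sum_congr rfl
      intro p _
      unfold ee
      simp
    rw [h2, Complex.norm_real, Real.norm_eq_abs, abs_of_nonneg hW0]
  have hoff : ∀ t ∈ T, ∀ t' ∈ T, ‖VV w y (1 + ((t - t' : ℝ) : ℂ) * Complex.I)‖ ≤
      E + if t' = t then W else 0 := by
    intro t ht t' ht'
    rcases eq_or_ne t' t with rfl | hne
    · rw [if_pos rfl, sub_self, hzero]
      linarith
    · rw [if_neg hne, add_zero]
      have h2 := hT2 t ht t' ht' hne.symm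
      have h3 := hT t ht t' ht'
      rcases le_or_gt 0 (t - t') with h | h
      · rw [abs_of_nonneg h] at h2 h3
        exact hE _ h2 h3
      · rw [abs_of_neg h] at h2 h3
        have h4 := heven (-(t - t'))
        rw [neg_neg] at h4
        rw [h4]
        exact hE _ h2 h3
  have h5 : ∑ t ∈ T, ∑ t' ∈ T, ‖VV w y (1 + ((t - t' : ℝ) : ℂ) * Complex.I)‖ ≤
      T.card * (T.card * E + W) := by
    calc ∑ t ∈ T, ∑ t' ∈ T, ‖VV w y (1 + ((t - t' : ℝ) : ℂ) * Complex.I)‖ ≤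
        ∑ t ∈ T, (T.card * E + W) := by
          apply sum_le_sum
          intro t ht
          refine (sum_le_sum (hoff t ht)).trans ?_
          rw [sum_add_distrib, sum_const, nsmul_eq_mul, sum_ite_eq', if_pos ht]
      _ = T.card * (T.card * E + W) := by rw [sum_const, nsmul_eq_mul]
  have hN : (0 : ℝ) ≤ T.card := Nat.cast_nonneg _
  have h6 : (∑ t ∈ T, ‖VV w y (1 + t * Complex.I)‖) ^ 2 ≤
      (W * Real.sqrt T.card + T.card * Real.sqrt (W * E)) ^ 2 := by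
    calc (∑ t ∈ T, ‖VV w y (1 + t * Complex.I)‖) ^ 2 ≤
        (∑ p ∈ prs 0 y, w p * (1 / (p : ℝ))) * (T.card * (T.card * E + W)) :=
          h1.trans (mul_le_mul_of_nonneg_left h5 hW0)
      _ ≤ W * (T.card * (T.card * E + W)) := by
          apply mul_le_mul_of_nonneg_right hW
          positivity
      _ = (W * Real.sqrt T.card) ^ 2 + (T.card * Real.sqrt (W * E)) ^ 2 := by
          rw [mul_pow, mul_pow, Real.sq_sqrt hN, Real.sq_sqrt (by positivity)]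
          ring
      _ ≤ (W * Real.sqrt T.card + T.card * Real.sqrt (W * E)) ^ 2 := by
          have : 0 ≤ (W * Real.sqrt T.card) * (T.card * Real.sqrt (W * E)) := by positivity
          nlinarith
  exact le_of_sq_le_sq h6 (by positivity)

end Pool.Agent.H.MP_2e4794_nt.RL
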