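import Pool.Agent.H.MP_2e4794_nt.RL.MD

/-!
# The final theorems
-/

namespace Pool.Agent.H.MP_2e4794_nt.RL

open Finset Filter Topology
open Pool.Agent.H.MP_2e4794_nt.ZM (prs mem_prs)

/-- the logarithm is nonnegative, and the condition is monotone in `C` -/
lemma cond_mono {C C' x H : ℝ} (hC3 : 3 ≤ C) (hCC : C ≤ C') (hH : C' ≤ H) (hHx : H ≤ x)
    (h : C' * (1 + Real.log (Real.log (Real.log x) / Real.log (Real.log H))) ^ C' ≤ Real.log H) :
    0 ≤ Real.log (Real.log (Real.log x) / Real.log (Real.log H)) ∧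
    0 < Real.log (Real.log H) ∧
    C * (1 + Real.log (Real.log (Real.log x) / Real.log (Real.log H))) ^ C ≤ Real.log H := by
  have hH3 : 3 ≤ H := by linarith
  have hlogH : 1 < Real.log H := by
    rw [Real.lt_log_iff_exp_lt (by linarith)]
    have := Real.exp_one_lt_d9
    linarith
  have hl0 : 0 < Real.log (Real.log H) := Real.log_pos hlogH
  have hΛ0 : 0 ≤ Real.log (Real.log (Real.log x) / Real.log (Real.log H)) := by
    apply Real.log_nonneg
    rw [le_div_iff₀ hl0, one_mul]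
    exact Real.log_le_log (by linarith) (Real.log_le_log (by linarith) hHx)
  refine ⟨hΛ0, hl0, ?_⟩
  set Λ := Real.log (Real.log (Real.log x) / Real.log (Real.log H))
  refine le_trans ?_ h
  apply mul_le_mul hCC _ (by positivity) (by linarith)
  exact Real.rpow_le_rpow_of_exponent_le (by linarith) hCC

lemma prs_eq (Y : ℕ) : prs 0 Y = (Finset.Icc 1 Y).filter Nat.Prime := by
  ext p
  rw [mem_prs, mem_filter, mem_Icc]
  constructor
  · rintro ⟨⟨h1, h2⟩, h3⟩
    exact ⟨⟨h1, h2⟩, h3⟩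
  · rintro ⟨⟨h1, h2⟩, h3⟩
    exact ⟨⟨h1, h2⟩, h3⟩

/-- **Approximation by short Euler products off few clusters.** -/
theorem part_one (RH : RiemannHypothesis) {ε : ℝ} (hε : 0 < ε) (hε1 : ε ≤ 1) :
    ∃ C : ℝ, 3 ≤ C ∧ ∀ x H : ℝ, C ≤ H → H ≤ x →
      C * (1 + Real.log (Real.log (Real.log x) / Real.log (Real.log H))) ^ C ≤ Real.log H →
      ∃ S : Finset ℝ, (∀ s ∈ S, x ≤ s ∧ s ≤ x + H) ∧
        (S.card : ℝ) ≤ C * (1 + Real.log (Real.log (Real.log x) / Real.log (Real.log H))) ^ 2 ∧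
        ∀ t : ℝ, x ≤ t → t ≤ x + H → (∀ s ∈ S, C < |t - s|) →
          ‖riemannZeta (1 + t * Complex.I) *
            ∏ p ∈ (Finset.Icc 1 ⌈Real.log H ^ (2 + ε)⌉₊).filter Nat.Prime,
              (1 - (p : ℂ) ^ (-((1 : ℂ) + t * Complex.I))) - 1‖ ≤ ε ∧
          ‖riemannZeta (1 + t * Complex.I)‖ ≤
            (2 + ε) * Real.exp Real.eulerMascheroniConstant * Real.log (Real.log H) ∧
          ‖riemannZeta (1 + t * Complex.I)‖⁻¹ ≤
            (12 / Real.pi ^ 2 + ε) * Real.exp Real.eulerMascheroniConstant *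
              Real.log (Real.log H) := by
  obtain ⟨g, hg⟩ : ∃ g, g = Real.exp Real.eulerMascheroniConstant := ⟨_, rfl⟩
  have hg0 : 0 < g := by rw [hg]; exact Real.exp_pos _
  obtain ⟨η, hη0, hη1, hea, heb⟩ := choose_eta (a := g) (b := 6 / Real.pi ^ 2 * g)
    (ε := ε * g) (by positivity)
  obtain ⟨C1, hC1, hset1⟩ := setup RH (δ := ε) (η := ε / 6) hε hε1 (by linarith) (by linarith)
  obtain ⟨C2, hC2, hset2⟩ := setup RH (δ := η) (η := η) hη0 (by linarith) hη0 hη1
  refine ⟨max (max C1 C2) (1 / (ε / 6) ^ 2 + 1 / η ^ 2),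
    (hC1.trans (le_max_left _ _)).trans (le_max_left _ _), ?_⟩
  set C := max (max C1 C2) (1 / (ε / 6) ^ 2 + 1 / η ^ 2) with hC
  intro x H hH hHx hcond
  have hC1C : C1 ≤ C := (le_max_left _ _).trans (le_max_left _ _)
  have hC2C : C2 ≤ C := (le_max_right _ _).trans (le_max_left _ _)
  obtain ⟨hΛ0, hl0, hcond1⟩ := cond_mono hC1 hC1C hH hHx hcond
  obtain ⟨_, _, hcond2⟩ := cond_mono hC2 hC2C hH hHx hcond
  obtain ⟨V1, hV1⟩ := hset1 x H (hC1C.trans hH) hHx hcond1
  obtain ⟨V2, hV2⟩ := hset2 x H (hC2C.trans hH) hHx hcond2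
  obtain ⟨S1, a1, a2, a3⟩ := hV1.cover (by linarith) (by linarith) (by linarith)
  obtain ⟨S2, b1, b2, b3⟩ := hV2.cover (by linarith) hη0 hη1
  obtain ⟨Λ, hΛ⟩ : ∃ Λ, Λ = Real.log (Real.log (Real.log x) / Real.log (Real.log H)) := ⟨_, rfl⟩
  rw [← hΛ] at a2 b2 hΛ0 ⊢
  refine ⟨S1 ∪ S2, ?_, ?_, ?_⟩
  · intro s hs
    rw [mem_union] at hs
    rcases hs with hs | hs
    · exact a1 s hs
    · exact b1 s hs
  · calc ((S1 ∪ S2).card : ℝ) ≤ S1.card + S2.card := by exact_mod_cast card_union_le S1 S2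
      _ ≤ 1 / (ε / 6) ^ 2 * (1 + Λ) ^ 2 + 1 / η ^ 2 * (1 + Λ) ^ 2 := add_le_add a2 b2
      _ = (1 / (ε / 6) ^ 2 + 1 / η ^ 2) * (1 + Λ) ^ 2 := by ring
      _ ≤ C * (1 + Λ) ^ 2 := by
          apply mul_le_mul_of_nonneg_right _ (by positivity)
          exact le_max_right _ _
  · intro t ht1 ht2 ht3
    have c1 := a3 t ht1 ht2 (fun s hs => lt_of_le_of_lt hC1C (ht3 s (mem_union_left _ hs)))
    have c2 := b3 t ht1 ht2 (fun s hs => lt_of_le_of_lt hC2C (ht3 s (mem_union_right _ hs)))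
    have hfac : ∀ a : ℝ, 0 < a →
        (a + η) * ((2 + η) * (1 + η) * Real.exp (4 * η)) ≤ 2 * a + ε * g →
        (a + η) * ((2 + η) * (1 + η) * Real.log (Real.log H)) * Real.exp (3 * η) ≤
          (2 * a + ε * g) * Real.log (Real.log H) := by
      intro a ha h
      calc (a + η) * ((2 + η) * (1 + η) * Real.log (Real.log H)) * Real.exp (3 * η) ≤
          (a + η) * ((2 + η) * (1 + η) * Real.log (Real.log H)) * Real.exp (4 * η) := by
            apply mul_le_mul_of_nonneg_left (Real.exp_le_exp.2 (by linarith)) (by positivity)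
        _ = (a + η) * ((2 + η) * (1 + η) * Real.exp (4 * η)) * Real.log (Real.log H) := by ring
        _ ≤ (2 * a + ε * g) * Real.log (Real.log H) := mul_le_mul_of_nonneg_right h hl0.le
    have hup := hV2.upper ht1 ht2
    have hexp : Real.exp (‖V2 t‖ + η) ≤ Real.exp (3 * η) := Real.exp_le_exp.2 (by linarith)
    refine ⟨?_, ?_, ?_⟩
    · have h1 := hV1.approx (by linarith) ht1 ht2 c1
      rw [prs_eq] at h1
      refine h1.trans (le_of_eq ?_)
      ring
    · refine hup.1.trans ?_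
      calc _ ≤ (Real.exp Real.eulerMascheroniConstant + η) *
          ((2 + η) * (1 + η) * Real.log (Real.log H)) * Real.exp (3 * η) := by
            apply mul_le_mul hV2.plus hexp (Real.exp_pos _).le (by positivity)
        _ ≤ (2 * g + ε * g) * Real.log (Real.log H) := by
            rw [← hg]
            exact hfac g hg0 hea
        _ = _ := by rw [← hg]; ring
    · refine hup.2.trans ?_
      calc _ ≤ (6 / Real.pi ^ 2 * Real.exp Real.eulerMascheroniConstant + η) *
          ((2 + η) * (1 + η) * Real.log (Real.log H)) * Real.exp (3 * η) := by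
            apply mul_le_mul hV2.minus hexp (Real.exp_pos _).le (by positivity)
        _ ≤ (2 * (6 / Real.pi ^ 2 * g) + ε * g) * Real.log (Real.log H) := by
            rw [← hg]
            exact hfac _ (by positivity) heb
        _ = _ := by rw [← hg]; ring

/-- **Well-spaced points.** -/
theorem part_three (RH : RiemannHypothesis) {ε : ℝ} (hε : 0 < ε) :
    ∃ C : ℝ, 3 ≤ C ∧ ∀ x H : ℝ, C ≤ H → H ≤ x →
      C * (1 + Real.log (Real.log (Real.log x) / Real.log (Real.log H))) ^ C ≤ Real.log H →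
      ∀ T : Finset ℝ, (∀ t ∈ T, x ≤ t ∧ t ≤ x + H) →
      (∀ t ∈ T, ∀ t' ∈ T, t ≠ t' → C ≤ |t - t'|) →
      ∏ t ∈ T, ‖riemannZeta (1 + t * Complex.I)‖ ≤
        ((2 + ε) * Real.exp Real.eulerMascheroniConstant * Real.log (Real.log H) *
          (Real.log (Real.log x) / Real.log (Real.log H)) ^ (1 / Real.sqrt T.card)) ^ T.card ∧
      ∏ t ∈ T, ‖riemannZeta (1 + t * Complex.I)‖⁻¹ ≤
        ((12 / Real.pi ^ 2 + ε) * Real.exp Real.eulerMascheroniConstant *
          Real.log (Real.log H) *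
          (Real.log (Real.log x) / Real.log (Real.log H)) ^ (1 / Real.sqrt T.card)) ^ T.card := by
  obtain ⟨C, hC, h⟩ := npoint RH (ε := ε * Real.exp Real.eulerMascheroniConstant) (by positivity)
  refine ⟨C, hC, ?_⟩
  intro x H hH hHx hcond T hT hT2
  rcases T.eq_empty_or_nonempty with rfl | hTn
  · simp
  obtain ⟨_, hl0, _⟩ := cond_mono hC le_rfl hH hHx hcond
  have hX0 : 0 < Real.log (Real.log x) := by
    refine lt_of_lt_of_le hl0 (Real.log_le_log ?_ (Real.log_le_log (by linarith) hHx))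
    by_contra hcon
    push Not at hcon
    have h1 : 1 < Real.log H := by
      rw [Real.lt_log_iff_exp_lt (by linarith)]
      have := Real.exp_one_lt_d9
      linarith
    linarith
  obtain ⟨h1, h2⟩ := h x H hH hHx hcond T hTn hT hT2
  have h3 : Real.exp (Real.log (Real.log (Real.log x) / Real.log (Real.log H)) /
      Real.sqrt T.card) =
      (Real.log (Real.log x) / Real.log (Real.log H)) ^ (1 / Real.sqrt T.card) := by
    rw [Real.rpow_def_of_pos (by positivity)]
    congr 1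
    ring
  rw [h3] at h1 h2
  constructor
  · refine h1.trans (le_of_eq ?_)
    congr 1
    ring
  · refine h2.trans (le_of_eq ?_)
    congr 1
    ring

/-- **The window `[x, x + exp((log x)^β)]`.** -/
theorem beta (RH : RiemannHypothesis) {β ε : ℝ} (hβ : 0 < β) (hβ1 : β < 1) (hε : 0 < ε) :
    ∃ C : ℝ, 0 < C ∧ ∀ x : ℝ, C ≤ x →
      ∃ S : Finset ℝ, (∀ s ∈ S, x ≤ s ∧ s ≤ x + Real.exp (Real.log x ^ β)) ∧ (S.card : ℝ) ≤ C ∧
        ∀ t : ℝ, x ≤ t → t ≤ x + Real.exp (Real.log x ^ β) → (∀ s ∈ S, C < |t - s|) →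
          ‖riemannZeta (1 + t * Complex.I)‖ ≤
            (2 * β + ε) * Real.exp Real.eulerMascheroniConstant * Real.log (Real.log x) ∧
          ‖riemannZeta (1 + t * Complex.I)‖⁻¹ ≤
            (12 * β / Real.pi ^ 2 + ε) * Real.exp Real.eulerMascheroniConstant *
              Real.log (Real.log x) := by
  obtain ⟨C1, hC1, h⟩ := part_one RH (ε := min ε 1) (by positivity) (min_le_right _ _)
  -- for large `x`
  have e1 : ∀ᶠ x : ℝ in atTop, C1 ≤ Real.exp (Real.log x ^ β) :=
    (Real.tendsto_exp_atTop.comp ((tendsto_rpow_atTop hβ).comp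
      Real.tendsto_log_atTop)).eventually_ge_atTop C1
  have e2 : ∀ᶠ x : ℝ in atTop, C1 * (1 + Real.log (1 / β)) ^ C1 ≤ Real.log x ^ β :=
    ((tendsto_rpow_atTop hβ).comp Real.tendsto_log_atTop).eventually_ge_atTop _
  have e3 : ∀ᶠ x : ℝ in atTop, 1 < Real.log x := Real.tendsto_log_atTop.eventually_gt_atTop 1
  obtain ⟨C2, hC2⟩ := eventually_atTop.1 (e1.and (e2.and (e3.and (eventually_gt_atTop 1))))
  refine ⟨max (max C1 C2) (C1 * (1 + Real.log (1 / β)) ^ 2),
    lt_of_lt_of_le (by linarith : (0 : ℝ) < C1) ((le_max_left _ _).trans (le_max_left _ _)), ?_⟩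
  intro x hx
  obtain ⟨h1, h2, h3, h4⟩ := hC2 x (((le_max_right _ _).trans (le_max_left _ _)).trans hx)
  have hlog : Real.log (Real.exp (Real.log x ^ β)) = Real.log x ^ β := Real.log_exp _
  have hloglog : Real.log (Real.log (Real.exp (Real.log x ^ β))) = β * Real.log (Real.log x) := by
    rw [hlog, Real.log_rpow (by linarith)]
  have hX0 : 0 < Real.log (Real.log x) := Real.log_pos h3
  have hratio : Real.log (Real.log x) / Real.log (Real.log (Real.exp (Real.log x ^ β))) =
      1 / β := by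
    rw [hloglog]
    field_simp
  have hHx : Real.exp (Real.log x ^ β) ≤ x := by
    rw [← Real.le_log_iff_exp_le (by linarith)]
    calc Real.log x ^ β ≤ Real.log x ^ (1 : ℝ) :=
          Real.rpow_le_rpow_of_exponent_le h3.le hβ1.le
      _ = Real.log x := Real.rpow_one _
  obtain ⟨S, c1, c2, c3⟩ := h x (Real.exp (Real.log x ^ β)) h1 hHx (by
    rw [hratio, hlog]
    exact h2)
  rw [hratio] at c2
  refine ⟨S, c1, c2.trans (le_max_right _ _), ?_⟩
  intro t ht1 ht2 ht3
  obtain ⟨_, d2, d3⟩ := c3 t ht1 ht2 (fun s hs => lt_of_le_of_lt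
    ((le_max_left _ _).trans (le_max_left _ _)) (ht3 s hs))
  rw [hloglog] at d2 d3
  have hg0 := Real.exp_pos Real.eulerMascheroniConstant
  have hmin : min ε 1 * β ≤ ε := by
    have h5 : min ε 1 ≤ ε := min_le_left _ _
    have h6 : 0 < min ε 1 := by positivity
    nlinarith
  have hmain : ∀ a : ℝ, (a + min ε 1) * Real.exp Real.eulerMascheroniConstant *
      (β * Real.log (Real.log x)) ≤
      (a * β + ε) * Real.exp Real.eulerMascheroniConstant * Real.log (Real.log x) := by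
    intro a
    have h5 : (a + min ε 1) * β ≤ a * β + ε := by linarith
    have h6 := mul_le_mul_of_nonneg_right h5
      (show 0 ≤ Real.exp Real.eulerMascheroniConstant * Real.log (Real.log x) by positivity)
    linarith
  refine ⟨d2.trans (hmain 2), ?_⟩
  have h7 := d3.trans (hmain (12 / Real.pi ^ 2))
  have h8 : 12 / Real.pi ^ 2 * β = 12 * β / Real.pi ^ 2 := by ring
  rwa [h8] at h7

end Pool.Agent.H.MP_2e4794_nt.RL
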