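import Mathlib

/-!
# Gaussian weights
-/

namespace Pool.Agent.H.MP_2e4794_nt.RL

open Set Filter Topology MeasureTheory

/-- `G_B(v)`, the normal distribution function -/
noncomputable def QQ (B v : ℝ) : ℝ :=
  (2 * Real.sqrt (Real.pi * B))⁻¹ * ∫ r in Ioi (0 : ℝ), Real.exp (-(v - r) ^ 2 / (4 * B))

lemma line_integral {B : ℝ} (hB : 0 < B) (a c : ℝ) :
    ∫ τ : ℝ, Complex.exp (a * (c + τ * Complex.I) + B * (c + τ * Complex.I) ^ 2) =
      ((Real.sqrt (Real.pi / B) * Real.exp (-a ^ 2 / (4 * B)) : ℝ) : ℂ) := by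
  have hB' : (B : ℂ) ≠ 0 := by exact_mod_cast hB.ne'
  have h1 := integral_cexp_quadratic (b := -(B : ℂ)) (by simpa using hB)
    (((a + 2 * B * c : ℝ) : ℂ) * Complex.I) ((a * c + B * c ^ 2 : ℝ) : ℂ)
  have h2 : ∀ τ : ℝ, Complex.exp (a * (c + τ * Complex.I) + B * (c + τ * Complex.I) ^ 2) =
      Complex.exp (-(B : ℂ) * (τ : ℂ) ^ 2 + ((a + 2 * B * c : ℝ) : ℂ) * Complex.I * τ +
        ((a * c + B * c ^ 2 : ℝ) : ℂ)) := by
    intro τ
    congr 1
    push_cast
    have := Complex.I_sq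
    linear_combination B * τ ^ 2 * this
  simp_rw [h2, h1]
  rw [neg_neg]
  push_cast
  congr 1
  · have h3 : (Real.pi : ℂ) / B = ((Real.pi / B : ℝ) : ℂ) := by push_cast; rfl
    rw [h3, Real.sqrt_eq_rpow, Complex.ofReal_cpow (by positivity)]
    norm_num
  · congr 1
    have := Complex.I_sq
    field_simp
    linear_combination ((a + 2 * B * c) ^ 2 : ℂ) * this

lemma inv_eq_integral {w : ℂ} (hw : 0 < w.re) :
    w⁻¹ = ∫ r in Ioi (0 : ℝ), Complex.exp (-w * r) := by
  rw [integral_exp_mul_complex_Ioi (by simpa using hw)]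
  have : w ≠ 0 := by
    rintro rfl
    simp at hw
  simp only [Complex.ofReal_zero, mul_zero, Complex.exp_zero]
  rw [neg_div_neg_eq, one_div]

/-- **The Mellin transform of the weights.** -/
theorem line_weight {B c : ℝ} (hB : 0 < B) (hc : 0 < c) (v : ℝ) :
    ∫ τ : ℝ, Complex.exp (v * (c + τ * Complex.I) + B * (c + τ * Complex.I) ^ 2) /
      (c + τ * Complex.I) = ((2 * Real.pi * QQ B v : ℝ) : ℂ) := by
  have hre : ∀ τ : ℝ, ((c : ℂ) + τ * Complex.I).re = c := by
    intro τ
    simp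
  have h1 : ∀ τ : ℝ, Complex.exp (v * (c + τ * Complex.I) + B * (c + τ * Complex.I) ^ 2) /
      (c + τ * Complex.I) = ∫ r in Ioi (0 : ℝ),
        Complex.exp (((v - r : ℝ) : ℂ) * (c + τ * Complex.I) + B * (c + τ * Complex.I) ^ 2) := by
    intro τ
    rw [div_eq_mul_inv, inv_eq_integral (by rw [hre]; exact hc), ← integral_const_mul]
    apply integral_congr_ae
    filter_upwards with r
    rw [← Complex.exp_add]
    congr 1
    push_cast
    ring
  simp_rw [h1]
  rw [integral_integral_swap]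
  · have h2 : ∀ r : ℝ, ∫ τ : ℝ, Complex.exp (((v - r : ℝ) : ℂ) * (c + τ * Complex.I) +
        B * (c + τ * Complex.I) ^ 2) =
        ((Real.sqrt (Real.pi / B) * Real.exp (-(v - r) ^ 2 / (4 * B)) : ℝ) : ℂ) := by
      intro r
      exact line_integral hB (v - r) c
    simp_rw [h2]
    rw [integral_complex_ofReal, integral_const_mul]
    congr 1
    unfold QQ
    have h3 : Real.sqrt (Real.pi * B) * Real.sqrt (Real.pi / B) = Real.pi := by
      rw [← Real.sqrt_mul (by positivity)]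
      have : Real.pi * B * (Real.pi / B) = Real.pi ^ 2 := by
        field_simp
      rw [this]
      exact Real.sqrt_sq Real.pi_pos.le
    have h4 : Real.sqrt (Real.pi * B) ≠ 0 := by positivity
    have h5 : Real.sqrt (Real.pi / B) = 2 * Real.pi * (2 * Real.sqrt (Real.pi * B))⁻¹ := by
      field_simp
      linarith
    rw [h5]
    ring
  · have h6 : Integrable (fun z : ℝ × ℝ => Real.exp (-B * z.1 ^ 2) *
        (Real.exp (v * c + B * c ^ 2) * Real.exp (-c * z.2)))
        (volume.prod (volume.restrict (Ioi 0))) := by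
      apply Integrable.mul_prod (f := fun τ : ℝ => Real.exp (-B * τ ^ 2))
        (g := fun r : ℝ => Real.exp (v * c + B * c ^ 2) * Real.exp (-c * r))
      · exact integrable_exp_neg_mul_sq hB
      · exact (integrableOn_exp_mul_Ioi (by linarith) 0).const_mul _
    refine h6.mono' ?_ ?_
    · apply Continuous.aestronglyMeasurable
      unfold Function.uncurry
      fun_prop
    · filter_upwards with z
      simp only [Function.uncurry]
      rw [Complex.norm_exp, ← Real.exp_add, ← Real.exp_add]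
      apply le_of_eq
      congr 1
      simp only [Complex.add_re, Complex.mul_re, Complex.ofReal_re, Complex.ofReal_im, Complex.I_re,
        Complex.I_im, Complex.add_im, Complex.mul_im, sq]
      ring

lemma gauss_shift {B : ℝ} (hB : 0 < B) (m : ℝ) :
    Integrable (fun r : ℝ => Real.exp (-(m - r) ^ 2 / (4 * B))) ∧
    ∫ r : ℝ, Real.exp (-(m - r) ^ 2 / (4 * B)) = 2 * Real.sqrt (Real.pi * B) := by
  have h1 : ∀ r : ℝ, Real.exp (-(m - r) ^ 2 / (4 * B)) = Real.exp (-(1 / (4 * B)) * (r - m) ^ 2) := by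
    intro r
    congr 1
    field_simp
    ring
  simp_rw [h1]
  have hb : 0 < 1 / (4 * B) := by positivity
  constructor
  · exact (integrable_exp_neg_mul_sq hb).comp_sub_right m
  · rw [integral_sub_right_eq_self (fun r : ℝ => Real.exp (-(1 / (4 * B)) * r ^ 2)) m,
      integral_gaussian]
    have : Real.pi / (1 / (4 * B)) = 2 ^ 2 * (Real.pi * B) := by
      field_simp
      norm_num
    rw [this, Real.sqrt_mul (by norm_num), Real.sqrt_sq (by norm_num)]

lemma QQ_nonneg (B v : ℝ) : 0 ≤ QQ B v := by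
  unfold QQ
  apply mul_nonneg (by positivity)
  apply setIntegral_nonneg measurableSet_Ioi
  intro r _
  positivity

lemma QQ_le_exp {B : ℝ} (hB : 0 < B) {c : ℝ} (hc : 0 ≤ c) (v : ℝ) :
    QQ B v ≤ Real.exp (c * v + B * c ^ 2) := by
  unfold QQ
  have hs : 0 < 2 * Real.sqrt (Real.pi * B) := by positivity
  rw [inv_mul_le_iff₀ hs]
  obtain ⟨h1, h2⟩ := gauss_shift hB (v + 2 * B * c)
  have h3 : ∫ r in Ioi (0 : ℝ), Real.exp (-(v - r) ^ 2 / (4 * B)) ≤
      ∫ r in Ioi (0 : ℝ), Real.exp (c * v + B * c ^ 2) *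
        Real.exp (-(v + 2 * B * c - r) ^ 2 / (4 * B)) := by
    apply setIntegral_mono_on (gauss_shift hB v).1.integrableOn (h1.const_mul _).integrableOn
      measurableSet_Ioi
    intro r hr
    have hr0 : (0 : ℝ) < r := hr
    rw [← Real.exp_add]
    apply Real.exp_le_exp.2
    have h4 : c * v + B * c ^ 2 + -(v + 2 * B * c - r) ^ 2 / (4 * B) =
        -(v - r) ^ 2 / (4 * B) + c * r := by
      field_simp
      ring
    rw [h4]
    have : 0 ≤ c * r := by positivity
    linarith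
  refine h3.trans ?_
  rw [integral_const_mul, mul_comm (2 * Real.sqrt (Real.pi * B))]
  apply mul_le_mul_of_nonneg_left _ (Real.exp_pos _).le
  rw [← h2]
  apply setIntegral_le_integral h1
  filter_upwards with r
  positivity

lemma QQ_le_one {B : ℝ} (hB : 0 < B) (v : ℝ) : QQ B v ≤ 1 := by
  have := QQ_le_exp hB (le_refl 0) v
  simpa using this

lemma one_sub_QQ {B : ℝ} (hB : 0 < B) (v : ℝ) :
    1 - QQ B v = (2 * Real.sqrt (Real.pi * B))⁻¹ *
      ∫ r in Iic (0 : ℝ), Real.exp (-(v - r) ^ 2 / (4 * B)) := by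
  unfold QQ
  have hs : 0 < 2 * Real.sqrt (Real.pi * B) := by positivity
  obtain ⟨h1, h2⟩ := gauss_shift hB v
  have h3 : (∫ r in Iic (0 : ℝ), Real.exp (-(v - r) ^ 2 / (4 * B))) +
      ∫ r in Ioi (0 : ℝ), Real.exp (-(v - r) ^ 2 / (4 * B)) = 2 * Real.sqrt (Real.pi * B) := by
    rw [← h2, ← integral_add_compl (measurableSet_Iic (a := (0 : ℝ))) h1, compl_Iic]
  have h5 : (2 * Real.sqrt (Real.pi * B))⁻¹ * ((∫ r in Iic (0 : ℝ),
      Real.exp (-(v - r) ^ 2 / (4 * B))) +
      ∫ r in Ioi (0 : ℝ), Real.exp (-(v - r) ^ 2 / (4 * B))) = 1 := by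
    rw [h3]
    exact inv_mul_cancel₀ hs.ne'
  linarith

lemma one_sub_QQ_le_exp {B : ℝ} (hB : 0 < B) {c : ℝ} (hc : 0 ≤ c) (v : ℝ) :
    1 - QQ B v ≤ Real.exp (-(c * v) + B * c ^ 2) := by
  rw [one_sub_QQ hB]
  have hs : 0 < 2 * Real.sqrt (Real.pi * B) := by positivity
  rw [inv_mul_le_iff₀ hs]
  obtain ⟨h1, h2⟩ := gauss_shift hB (v - 2 * B * c)
  have h3 : ∫ r in Iic (0 : ℝ), Real.exp (-(v - r) ^ 2 / (4 * B)) ≤
      ∫ r in Iic (0 : ℝ), Real.exp (-(c * v) + B * c ^ 2) *
        Real.exp (-(v - 2 * B * c - r) ^ 2 / (4 * B)) := by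
    apply setIntegral_mono_on (gauss_shift hB v).1.integrableOn (h1.const_mul _).integrableOn
      measurableSet_Iic
    intro r hr
    have hr0 : r ≤ 0 := hr
    rw [← Real.exp_add]
    apply Real.exp_le_exp.2
    have h4 : -(c * v) + B * c ^ 2 + -(v - 2 * B * c - r) ^ 2 / (4 * B) =
        -(v - r) ^ 2 / (4 * B) - c * r := by
      field_simp
      ring
    rw [h4]
    have : c * r ≤ 0 := mul_nonpos_of_nonneg_of_nonpos hc hr0
    linarith
  refine h3.trans ?_
  rw [integral_const_mul, mul_comm (2 * Real.sqrt (Real.pi * B))]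
  apply mul_le_mul_of_nonneg_left _ (Real.exp_pos _).le
  rw [← h2]
  apply setIntegral_le_integral h1
  filter_upwards with r
  positivity

end Pool.Agent.H.MP_2e4794_nt.RL
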