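import Mathlib

/-!
# Growth of the Riemann zeta function to the right of the line `Re s = 1/2`
-/

namespace Pool.Agent.H.MP_2e4794_nt.RL

open Set Filter Topology MeasureTheory

/-- the fractional part, cut off at `1` -/
noncomputable def fr (t : ℝ) : ℂ := if 1 < t then ((Int.fract t : ℝ) : ℂ) else 0

lemma norm_fr_le (t : ℝ) : ‖fr t‖ ≤ 1 := by
  unfold fr
  split_ifs
  · rw [Complex.norm_real, Real.norm_eq_abs, abs_of_nonneg (Int.fract_nonneg t)]
    exact (Int.fract_lt_one t).le
  · simp

lemma measurable_fr : Measurable fr := by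
  unfold fr
  apply Measurable.ite measurableSet_Ioi _ measurable_const
  exact Complex.measurable_ofReal.comp measurable_fract

lemma loc_fr : LocallyIntegrableOn fr (Ioi 0) := by
  apply LocallyIntegrable.locallyIntegrableOn
  apply (locallyIntegrable_const (1 : ℝ)).mono measurable_fr.aestronglyMeasurable
  filter_upwards with t
  simpa using norm_fr_le t

/-- the analytic continuation of `ζ` to `Re s > 0` -/
noncomputable def AA (s : ℂ) : ℂ := s / (s - 1) - s * mellin fr (-s)

lemma diff_AA {s : ℂ} (hs : 0 < s.re) (h1 : s ≠ 1) : DifferentiableAt ℂ AA s := by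
  unfold AA
  have h2 : s - 1 ≠ 0 := sub_ne_zero.2 h1
  have h3 : DifferentiableAt ℂ (mellin fr) (-s) := by
    apply mellin_differentiableAt_of_isBigO_rpow (a := 0) (b := -s.re - 1) loc_fr
    · rw [Asymptotics.isBigO_iff]
      refine ⟨1, ?_⟩
      filter_upwards with t
      simpa using norm_fr_le t
    · simpa using hs
    · rw [Asymptotics.isBigO_iff]
      refine ⟨1, ?_⟩
      have : ∀ᶠ t : ℝ in 𝓝[>] 0, t < 1 := by
        apply eventually_nhdsWithin_of_eventually_nhds
        exact eventually_lt_nhds (by norm_num)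
      filter_upwards [this] with t ht
      have h4 : fr t = 0 := by
        unfold fr
        rw [if_neg (by linarith)]
      rw [h4, norm_zero]
      positivity
    · simp
  have h4 : DifferentiableAt ℂ (fun s => mellin fr (-s)) s := by
    have h5 : DifferentiableAt ℂ (mellin fr ∘ fun s => -s) s :=
      DifferentiableAt.comp s h3 differentiableAt_id.neg
    exact h5
  fun_prop (disch := assumption)

lemma mellin_fr (s : ℂ) : mellin fr (-s) =
    ∫ t in Ioi (1 : ℝ), ((Int.fract t : ℝ) : ℂ) * (t : ℂ) ^ (-(s + 1)) := by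
  unfold mellin
  have h1 : ∀ t : ℝ, (t : ℂ) ^ (-s - 1) • fr t =
      (Ioi (1 : ℝ)).indicator (fun t : ℝ => ((Int.fract t : ℝ) : ℂ) * (t : ℂ) ^ (-(s + 1))) t := by
    intro t
    unfold fr
    by_cases ht : 1 < t
    · rw [if_pos ht, indicator_of_mem (by exact ht), smul_eq_mul, mul_comm]
      congr 2
      ring
    · rw [if_neg ht, indicator_of_notMem (by exact ht), smul_zero]
  simp_rw [h1]
  rw [setIntegral_indicator measurableSet_Ioi]
  congr 2
  ext t
  simp only [mem_inter_iff, mem_Ioi]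
  constructor
  · exact fun h => h.2
  · exact fun h => ⟨by linarith, h⟩

lemma int_cpow {s : ℂ} (hs : 1 < s.re) :
    IntegrableOn (fun t : ℝ => (t : ℂ) * (t : ℂ) ^ (-(s + 1))) (Ioi 1) ∧
    ∫ t in Ioi (1 : ℝ), (t : ℂ) * (t : ℂ) ^ (-(s + 1)) = 1 / (s - 1) := by
  have h1 : EqOn (fun t : ℝ => (t : ℂ) * (t : ℂ) ^ (-(s + 1))) (fun t : ℝ => (t : ℂ) ^ (-s))
      (Ioi 1) := by
    intro t ht
    have h2 : (t : ℂ) ≠ 0 := by
      have : t ≠ 0 := by
        have : (1 : ℝ) < t := ht
        linarith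
      exact_mod_cast this
    simp only
    have h3 : -s = 1 + -(s + 1) := by ring
    rw [h3, Complex.cpow_add _ _ h2, Complex.cpow_one]
  have h3 : (-s).re < -1 := by
    rw [Complex.neg_re]
    linarith
  constructor
  · rw [integrableOn_congr_fun h1 measurableSet_Ioi]
    exact integrableOn_Ioi_cpow_of_lt h3 (by norm_num)
  · rw [setIntegral_congr_fun measurableSet_Ioi h1, integral_Ioi_cpow_of_lt h3 (by norm_num)]
    simp only [Complex.ofReal_one, Complex.one_cpow]
    have h4 : s - 1 ≠ 0 := by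
      intro h
      rw [sub_eq_zero.1 h] at hs
      simp at hs
    have h5 : -s + 1 = -(s - 1) := by ring
    rw [h5, neg_div_neg_eq]

lemma int_fract {s : ℂ} (hs : 0 < s.re) :
    IntegrableOn (fun t : ℝ => ((Int.fract t : ℝ) : ℂ) * (t : ℂ) ^ (-(s + 1))) (Ioi 1) := by
  have h1 : IntegrableOn (fun t : ℝ => (t : ℂ) ^ (-(s + 1))) (Ioi 1) := by
    apply integrableOn_Ioi_cpow_of_lt _ (by norm_num)
    simp only [Complex.neg_re, Complex.add_re, Complex.one_re]
    linarith
  apply Integrable.bdd_mul (c := 1) h1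
  · exact (Complex.measurable_ofReal.comp measurable_fract).aestronglyMeasurable
  · filter_upwards with t
    rw [Complex.norm_real, Real.norm_eq_abs, abs_of_nonneg (Int.fract_nonneg t)]
    exact (Int.fract_lt_one t).le

lemma zeta_eq_AA_right {s : ℂ} (hs : 1 < s.re) : riemannZeta s = AA s := by
  have h0 : s ≠ 1 := by
    rintro rfl
    simp at hs
  have h4 : s - 1 ≠ 0 := sub_ne_zero.2 h0
  have h1 := LSeries_eq_mul_integral_of_nonneg (fun _ => (1 : ℝ)) (r := 1) zero_le_one hs
    (by
      simp only [Finset.sum_const, Nat.card_Icc, add_tsub_cancel_right, nsmul_eq_mul, mul_one,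
        Real.rpow_one]
      exact Asymptotics.isBigO_refl _ _) (fun _ => zero_le_one)
  have h2 : LSeries (fun n ↦ ((1 : ℝ) : ℂ)) s = riemannZeta s := by
    rw [← LSeries_one_eq_riemannZeta hs]
    congr 1
  rw [h2] at h1
  rw [h1]
  unfold AA
  rw [mellin_fr]
  have h3 : ∫ t in Ioi (1 : ℝ), (∑ k ∈ Finset.Icc 1 ⌊t⌋₊, ((1 : ℝ) : ℂ)) * (t : ℂ) ^ (-(s + 1)) =
      ∫ t in Ioi (1 : ℝ), ((t : ℂ) * (t : ℂ) ^ (-(s + 1)) -
        ((Int.fract t : ℝ) : ℂ) * (t : ℂ) ^ (-(s + 1))) := by
    apply setIntegral_congr_fun measurableSet_Ioi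
    intro t ht
    have ht1 : (1 : ℝ) < t := ht
    simp only [Complex.ofReal_one, Finset.sum_const, Nat.card_Icc, add_tsub_cancel_right,
      nsmul_eq_mul, mul_one]
    rw [← sub_mul]
    congr 1
    have h5 : ((⌊t⌋₊ : ℕ) : ℝ) = t - Int.fract t := by
      rw [Int.self_sub_fract, natCast_floor_eq_intCast_floor (by linarith)]
    have h6 := congrArg (fun z : ℝ => (z : ℂ)) h5
    push_cast at h6
    exact h6
  rw [h3, integral_sub (int_cpow hs).1 (int_fract (by linarith)), (int_cpow hs).2]
  ring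

/-- the upper right quadrant -/
def quad : Set ℂ := {s | 0 < s.re ∧ 0 < s.im}

lemma quad_eq : quad = {s : ℂ | 0 < s.re} ∩ {s : ℂ | 0 < s.im} := rfl

lemma isOpen_quad : IsOpen quad := by
  rw [quad_eq]
  exact (isOpen_lt continuous_const Complex.continuous_re).inter
    (isOpen_lt continuous_const Complex.continuous_im)

lemma convex_quad : Convex ℝ quad := by
  rw [quad_eq]
  exact (convex_halfSpace_re_gt 0).inter (convex_halfSpace_im_gt 0)

lemma zeta_eq_AA {s : ℂ} (hs : s ∈ quad) : riemannZeta s = AA s := by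
  have hne : ∀ z ∈ quad, z ≠ 1 := by
    rintro z hz rfl
    have := hz.2
    simp at this
  have h1 : AnalyticOnNhd ℂ riemannZeta quad := by
    apply DifferentiableOn.analyticOnNhd _ isOpen_quad
    intro z hz
    exact (differentiableAt_riemannZeta (hne z hz)).differentiableWithinAt
  have h2 : AnalyticOnNhd ℂ AA quad := by
    apply DifferentiableOn.analyticOnNhd _ isOpen_quad
    intro z hz
    exact (diff_AA hz.1 (hne z hz)).differentiableWithinAt
  have h3 : (2 + Complex.I : ℂ) ∈ quad := by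
    constructor <;> simp
  have h4 : riemannZeta =ᶠ[𝓝 (2 + Complex.I : ℂ)] AA := by
    have h5 : {z : ℂ | 1 < z.re} ∈ 𝓝 (2 + Complex.I : ℂ) := by
      apply (isOpen_lt continuous_const Complex.continuous_re).mem_nhds
      simp
    filter_upwards [h5] with z hz
    exact zeta_eq_AA_right hz
  exact h1.eqOn_of_preconnected_of_eventuallyEq h2 convex_quad.isPreconnected h3 h4 hs

lemma norm_mellin_fr_le {s : ℂ} (hs : 0 < s.re) : ‖mellin fr (-s)‖ ≤ 1 / s.re := by
  rw [mellin_fr]
  have h1 : IntegrableOn (fun t : ℝ => t ^ (-(s.re + 1))) (Ioi 1) :=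
    integrableOn_Ioi_rpow_of_lt (by linarith) (by norm_num)
  refine (norm_integral_le_of_norm_le h1 ?_).trans ?_
  · filter_upwards [ae_restrict_mem measurableSet_Ioi] with t ht
    have ht1 : (1 : ℝ) < t := ht
    rw [norm_mul, Complex.norm_cpow_eq_rpow_re_of_pos (by linarith), Complex.norm_real,
      Real.norm_eq_abs, abs_of_nonneg (Int.fract_nonneg t)]
    have h2 : (-(s + 1)).re = -(s.re + 1) := by simp
    rw [h2]
    have h3 : 0 ≤ t ^ (-(s.re + 1)) := by positivity
    exact mul_le_of_le_one_left h3 (Int.fract_lt_one t).le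
  · rw [integral_Ioi_rpow_of_lt (by linarith) (by norm_num)]
    have h4 : -(s.re + 1) + 1 = -s.re := by ring
    rw [h4, Real.one_rpow, neg_div_neg_eq]

/-- **Growth of the zeta function.** -/
theorem zeta_growth {s : ℂ} (hs : 1 / 2 ≤ s.re) (h1 : 1 ≤ s.im) :
    ‖riemannZeta s‖ ≤ 2 + 2 * ‖s‖ := by
  rw [zeta_eq_AA ⟨by linarith, by linarith⟩]
  unfold AA
  refine (norm_sub_le _ _).trans ?_
  have h2 : 1 ≤ ‖s - 1‖ := by
    have := Complex.abs_im_le_norm (s - 1)
    rw [Complex.sub_im, Complex.one_im, sub_zero, abs_of_pos (by linarith)] at this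
    linarith
  have h3 : ‖s / (s - 1)‖ ≤ 2 := by
    rw [norm_div, div_le_iff₀ (by linarith)]
    have h4 := norm_add_le (s - 1) 1
    rw [sub_add_cancel, norm_one] at h4
    linarith
  have h5 : ‖s * mellin fr (-s)‖ ≤ ‖s‖ * 2 := by
    rw [norm_mul]
    apply mul_le_mul_of_nonneg_left _ (norm_nonneg _)
    refine (norm_mellin_fr_le (by linarith)).trans ?_
    rw [div_le_iff₀ (by linarith)]
    linarith
  linarith

end Pool.Agent.H.MP_2e4794_nt.RL
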