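import Pool.Agent.H.MP_2e4794_nt.RL.FN
import Pool.Agent.H.MP_2e4794_nt.RL.CL0

/-!
# Short Euler products approximate `ζ(1 + it)` off few clusters, under RH
-/

namespace Pool.Agent.H.MP_2e4794_nt.RL

open Finset Filter Topology
open Pool.Agent.H.MP_2e4794_nt.ZM (prs mem_prs)

/-- the points where `V` is large -/
lemma Win.count {δ η C x H : ℝ} {V : ℝ → ℂ} (h : Win δ η C x H V) (hη0 : 0 < η) (hη1 : η ≤ 1 / 2)
    {T : Finset ℝ} (hT : ∀ t ∈ T, x ≤ t ∧ t ≤ x + H)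
    (hT2 : ∀ t ∈ T, ∀ t' ∈ T, t ≠ t' → C ≤ |t - t'|) (hV : ∀ t ∈ T, 2 * η ≤ ‖V t‖) :
    (T.card : ℝ) ≤ 1 / η ^ 2 *
      (1 + Real.log (Real.log (Real.log x) / Real.log (Real.log H))) ^ 2 := by
  have h1 := h.spaced T hT hT2
  have hlam := h.lam
  set Λ := Real.log (Real.log (Real.log x) / Real.log (Real.log H)) with hΛ
  have h2 : T.card * (2 * η) ≤ ∑ t ∈ T, ‖V t‖ := by
    calc T.card * (2 * η) = ∑ t ∈ T, 2 * η := by rw [sum_const, nsmul_eq_mul]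
      _ ≤ _ := sum_le_sum hV
  have hN : (0 : ℝ) ≤ T.card := Nat.cast_nonneg _
  have hss : Real.sqrt T.card * Real.sqrt T.card = T.card := Real.mul_self_sqrt hN
  have h3 : Real.sqrt T.card * (Real.sqrt T.card * η) ≤ Real.sqrt T.card * (1 + Λ) := by
    have h4 : (T.card : ℝ) * η ≤ (Λ + 2 * η) * Real.sqrt T.card := by linarith
    have h5 : (Λ + 2 * η) * Real.sqrt T.card ≤ (1 + Λ) * Real.sqrt T.card :=
      mul_le_mul_of_nonneg_right (by linarith) (Real.sqrt_nonneg _)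
    rw [← mul_assoc, hss]
    linarith
  have h4 : Real.sqrt T.card ≤ (1 + Λ) / η := by
    rcases (Real.sqrt_nonneg (T.card : ℝ)).eq_or_lt with h0 | h0
    · rw [← h0]
      positivity
    · rw [le_div_iff₀ hη0]
      exact le_of_mul_le_mul_left h3 h0
  calc (T.card : ℝ) = Real.sqrt T.card ^ 2 := (Real.sq_sqrt hN).symm
    _ ≤ ((1 + Λ) / η) ^ 2 := pow_le_pow_left₀ (Real.sqrt_nonneg _) h4 2
    _ = 1 / η ^ 2 * (1 + Λ) ^ 2 := by rw [div_pow]; ring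

/-- off few clusters, `V` is small -/
lemma Win.cover {δ η C x H : ℝ} {V : ℝ → ℂ} (h : Win δ η C x H V) (hC : 0 < C) (hη0 : 0 < η)
    (hη1 : η ≤ 1 / 2) :
    ∃ S : Finset ℝ, (∀ s ∈ S, x ≤ s ∧ s ≤ x + H) ∧
      (S.card : ℝ) ≤ 1 / η ^ 2 *
        (1 + Real.log (Real.log (Real.log x) / Real.log (Real.log H))) ^ 2 ∧
      ∀ t : ℝ, x ≤ t → t ≤ x + H → (∀ s ∈ S, C < |t - s|) → ‖V t‖ ≤ 2 * η := by
  have hlam := h.lam
  obtain ⟨S, h1, h2, h3⟩ := exists_maximal_sep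
    {t | (x ≤ t ∧ t ≤ x + H) ∧ 2 * η ≤ ‖V t‖} hC
    ⌊1 / η ^ 2 * (1 + Real.log (Real.log (Real.log x) / Real.log (Real.log H))) ^ 2⌋₊ (by
      intro T hT1 hT2
      apply Nat.le_floor
      exact h.count hη0 hη1 (fun t ht => (hT1 t ht).1) hT2 (fun t ht => (hT1 t ht).2))
  refine ⟨S, fun s hs => (h1 s hs).1, ?_, ?_⟩
  · exact le_trans (by exact_mod_cast h2) (Nat.floor_le (by positivity))
  · intro t ht1 ht2 ht3
    by_contra hcon
    push Not at hcon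
    obtain ⟨s, hs1, hs2⟩ := h3 t ⟨⟨ht1, ht2⟩, hcon.le⟩
    have := ht3 s hs1
    linarith

/-- the approximation by the Euler product -/
lemma Win.approx {δ η C x H : ℝ} {V : ℝ → ℂ} (h : Win δ η C x H V) (hη1 : η ≤ 1 / 3)
    {t : ℝ} (h1 : x ≤ t) (h2 : t ≤ x + H) (hV : ‖V t‖ ≤ 2 * η) :
    ‖riemannZeta (1 + t * Complex.I) * ∏ p ∈ prs 0 ⌈Real.log H ^ (2 + δ)⌉₊,
      (1 - (p : ℂ) ^ (-((1 : ℂ) + t * Complex.I))) - 1‖ ≤ 6 * η := by
  obtain ⟨v, hv1, hv2⟩ := h.zeta t h1 h2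
  have h3 := exp_SY ⌈Real.log H ^ (2 + δ)⌉₊ (hsre t).ge
  have h4 : riemannZeta (1 + t * Complex.I) * ∏ p ∈ prs 0 ⌈Real.log H ^ (2 + δ)⌉₊,
      (1 - (p : ℂ) ^ (-((1 : ℂ) + t * Complex.I))) = Complex.exp (V t + v) := by
    have h5 : ∏ p ∈ prs 0 ⌈Real.log H ^ (2 + δ)⌉₊,
        (1 - (p : ℂ) ^ (-((1 : ℂ) + t * Complex.I))) =
        (Complex.exp (SY ⌈Real.log H ^ (2 + δ)⌉₊ (1 + t * Complex.I)))⁻¹ := by
      rw [h3, ← Finset.prod_inv_distrib]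
      apply prod_congr rfl
      intro p _
      rw [inv_inv]
    rw [hv2, h5, ← Complex.exp_neg, ← Complex.exp_add]
    congr 1
    ring
  have h6 : ‖V t + v‖ ≤ 3 * η := (norm_add_le _ _).trans (by linarith)
  rw [h4]
  refine (Complex.norm_exp_sub_one_le (h6.trans (by linarith))).trans ?_
  linarith

end Pool.Agent.H.MP_2e4794_nt.RL
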