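import Pool.Agent.H.MP_2e4794_nt.RL.Gr

/-!
# The logarithm of the zeta function to the right of `Re s = 1/2`, under RH
-/

namespace Pool.Agent.H.MP_2e4794_nt.RL

open Set Filter Topology MeasureTheory

/-- the Euler factor -/
noncomputable def ll (p : ℕ) (z : ℂ) : ℂ := -Complex.log (1 - (p : ℂ) ^ (-z))

/-- the logarithm of the zeta function on `Re z > 1` -/
noncomputable def PP (z : ℂ) : ℂ := ∑' p : Nat.Primes, ll p z

lemma norm_pcpow {p : ℕ} (hp : 2 ≤ p) (z : ℂ) : ‖(p : ℂ) ^ (-z)‖ = (p : ℝ) ^ (-z.re) := by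
  have h1 : (0 : ℝ) < p := by
    have : (2 : ℝ) ≤ p := by exact_mod_cast hp
    linarith
  have := Complex.norm_cpow_eq_rpow_re_of_pos h1 (-z)
  rw [Complex.ofReal_natCast] at this
  rw [this, Complex.neg_re]

lemma pcpow_le_half {p : ℕ} (hp : 2 ≤ p) {z : ℂ} (hz : 1 ≤ z.re) :
    ‖(p : ℂ) ^ (-z)‖ ≤ 1 / 2 := by
  rw [norm_pcpow hp]
  have h2 : (2 : ℝ) ≤ p := by exact_mod_cast hp
  calc (p : ℝ) ^ (-z.re) ≤ (p : ℝ) ^ (-1 : ℝ) := by
        apply Real.rpow_le_rpow_of_exponent_le (by linarith)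
        linarith
    _ = 1 / p := by rw [Real.rpow_neg_one, one_div]
    _ ≤ 1 / 2 := one_div_le_one_div_of_le (by norm_num) h2

lemma norm_ll_le {p : ℕ} (hp : 2 ≤ p) {z : ℂ} (hz : 1 ≤ z.re) :
    ‖ll p z‖ ≤ 3 / 2 * (p : ℝ) ^ (-z.re) := by
  unfold ll
  rw [norm_neg, sub_eq_add_neg]
  have h1 := pcpow_le_half hp hz
  have h2 : ‖-((p : ℂ) ^ (-z))‖ ≤ 1 / 2 := by rwa [norm_neg]
  have h3 := Complex.norm_log_one_add_half_le_self h2
  rw [norm_neg, norm_pcpow hp] at h3
  exact h3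

lemma summable_primes {σ : ℝ} (hσ : 1 < σ) :
    Summable fun p : Nat.Primes => 3 / 2 * ((p : ℕ) : ℝ) ^ (-σ) := by
  apply Summable.mul_left
  rw [Nat.Primes.summable_rpow]
  linarith

lemma ll_le_of_le {σ : ℝ} (hσ : 1 ≤ σ) (p : Nat.Primes) {z : ℂ} (hz : σ ≤ z.re) :
    ‖ll p z‖ ≤ 3 / 2 * ((p : ℕ) : ℝ) ^ (-σ) := by
  have h2 : (2 : ℝ) ≤ (p : ℕ) := by exact_mod_cast p.2.two_le
  refine (norm_ll_le p.2.two_le (by linarith)).trans ?_
  apply mul_le_mul_of_nonneg_left _ (by norm_num)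
  apply Real.rpow_le_rpow_of_exponent_le (by linarith)
  linarith

lemma continuousAt_ll {p : ℕ} (hp : 2 ≤ p) {z : ℂ} (hz : 0 < z.re) :
    DifferentiableAt ℂ (ll p) z := by
  unfold ll
  have h0 : (p : ℂ) ≠ 0 := by
    have : p ≠ 0 := by omega
    exact_mod_cast this
  have h1 : ‖(p : ℂ) ^ (-z)‖ < 1 := by
    rw [norm_pcpow hp]
    apply Real.rpow_lt_one_of_one_lt_of_neg
    · have : (2 : ℝ) ≤ p := by exact_mod_cast hp
      linarith
    · linarith
  have h2 : 1 - (p : ℂ) ^ (-z) ∈ Complex.slitPlane := by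
    rw [sub_eq_add_neg]
    apply Complex.mem_slitPlane_of_norm_lt_one
    rwa [norm_neg]
  have h3 : DifferentiableAt ℂ (fun z : ℂ => (p : ℂ) ^ (-z)) z :=
    (differentiableAt_id.neg).const_cpow (Or.inl h0)
  exact ((differentiableAt_const _).sub h3).clog h2 |>.neg

lemma continuousOn_PP {σ : ℝ} (hσ : 1 < σ) : ContinuousOn PP {z | σ ≤ z.re} := by
  unfold PP
  apply continuousOn_tsum (u := fun p : Nat.Primes => 3 / 2 * ((p : ℕ) : ℝ) ^ (-σ)) _
    (summable_primes hσ)
  · intro p z hz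
    exact ll_le_of_le hσ.le p hz
  · intro p z hz
    have hz1 : σ ≤ z.re := hz
    exact (continuousAt_ll p.2.two_le (by linarith)).continuousAt.continuousWithinAt

lemma exp_PP {z : ℂ} (hz : 1 < z.re) : Complex.exp (PP z) = riemannZeta z :=
  riemannZeta_eulerProduct_exp_log hz

/-- a continuous function on a preconnected set whose exponential is `1` is constant -/
lemma eq_of_exp_eq_one {S : Set ℂ} (hS : IsPreconnected S) {F : ℂ → ℂ} (hF : ContinuousOn F S)
    (h1 : ∀ z ∈ S, Complex.exp (F z) = 1) {a b : ℂ} (ha : a ∈ S) (hb : b ∈ S) (h0 : F a = 0) :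
    F b = 0 := by
  by_contra hne
  obtain ⟨n, hn⟩ := Complex.exp_eq_one_iff.1 (h1 b hb)
  have hn0 : n ≠ 0 := by
    rintro rfl
    apply hne
    rw [hn]
    simp
  have key : ∀ m : ℤ, m ≠ 0 → 2 * Real.pi ≤ ‖(m : ℂ) * (2 * Real.pi * Complex.I)‖ := by
    intro m hm
    rw [norm_mul, norm_mul, norm_mul, Complex.norm_I, mul_one, Complex.norm_real,
      Real.norm_eq_abs, abs_of_pos Real.pi_pos, Complex.norm_ofNat, Complex.norm_intCast]
    have : (1 : ℝ) ≤ |(m : ℝ)| := by exact_mod_cast Int.one_le_abs hm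
    have h2 : 0 < 2 * Real.pi := by positivity
    nlinarith
  have h2 : Real.pi ∈ (fun z => ‖F z‖) '' S := by
    apply hS.intermediate_value ha hb hF.norm
    constructor
    · simp only [h0, norm_zero]
      exact Real.pi_pos.le
    · have := key n hn0
      rw [← hn] at this
      have h3 := Real.pi_pos
      have h4 : 2 * Real.pi ≤ ‖F b‖ := this
      linarith
  obtain ⟨z, hz, hz2⟩ := h2
  obtain ⟨m, hm⟩ := Complex.exp_eq_one_iff.1 (h1 z hz)
  have hm0 : m ≠ 0 := by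
    rintro rfl
    rw [Int.cast_zero, zero_mul] at hm
    simp only [hm, norm_zero] at hz2
    exact Real.pi_pos.ne hz2
  have := key m hm0
  rw [← hm] at this
  simp only at hz2
  have := Real.pi_pos
  linarith

lemma ne_zero_of_RH (RH : RiemannHypothesis) {z : ℂ} (hz : 1 / 2 < z.re) (h1 : z ≠ 1) :
    riemannZeta z ≠ 0 := by
  intro h
  have := RH z h (by
    rintro ⟨n, hn⟩
    rw [hn] at hz
    simp at hz
    have : (0 : ℝ) ≤ n := Nat.cast_nonneg n
    linarith) h1
  linarith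

/-- the logarithm on a ball -/
lemma log_on_ball (RH : RiemannHypothesis) {κ X u : ℝ} (hκ : 0 < κ) (hκ2 : κ < 1 / 2)
    (hX : 2 ≤ X) (hu : X ≤ u) :
    ∃ g : ℂ → ℂ, (∀ z ∈ Metric.ball (⟨X, u⟩ : ℂ) (X - 1 / 2 - κ / 4),
        DifferentiableAt ℂ g z ∧ Complex.exp (g z) = riemannZeta z) ∧
      ∀ z ∈ Metric.ball (⟨X, u⟩ : ℂ) (X - 1 / 2 - κ / 4), 1 < z.re → g z = PP z := by
  set D := Metric.ball (⟨X, u⟩ : ℂ) (X - 1 / 2 - κ / 4) with hD
  have hDo : IsOpen D := Metric.isOpen_ball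
  have hDc : Convex ℝ D := convex_ball _ _
  have hre : ∀ z ∈ D, 1 / 2 + κ / 4 < z.re := by
    intro z hz
    rw [hD, Metric.mem_ball, Complex.dist_eq] at hz
    have h1 := Complex.abs_re_le_norm (z - ⟨X, u⟩)
    simp only [Complex.sub_re] at h1
    have h2 := abs_le.1 (h1.trans hz.le)
    have h3 := abs_lt.1 (h1.trans_lt hz)
    linarith [h3.1]
  have hne : ∀ z ∈ D, z ≠ 1 := by
    rintro z hz rfl
    rw [hD, Metric.mem_ball, Complex.dist_eq] at hz
    have h1 := Complex.abs_im_le_norm ((1 : ℂ) - ⟨X, u⟩)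
    simp only [Complex.sub_im, Complex.one_im, zero_sub, abs_neg] at h1
    have h2 := le_abs_self u
    linarith
  have hz0 : ∀ z ∈ D, riemannZeta z ≠ 0 := by
    intro z hz
    exact ne_zero_of_RH RH (by linarith [hre z hz]) (hne z hz)
  have hdz : DifferentiableOn ℂ riemannZeta D := fun z hz =>
    (differentiableAt_riemannZeta (hne z hz)).differentiableWithinAt
  have hf : DifferentiableOn ℂ (fun z => deriv riemannZeta z / riemannZeta z) D := by
    apply DifferentiableOn.div (hdz.deriv hDo) hdz hz0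
  have hc0 : (⟨X, u⟩ : ℂ) ∈ D := by
    apply Metric.mem_ball_self
    linarith
  obtain ⟨g, hg0, hg⟩ := hf.isExactOn_ball.with_val_at (⟨X, u⟩ : ℂ) (PP ⟨X, u⟩)
  have hexp : ∀ z ∈ D, Complex.exp (g z) = riemannZeta z := by
    have h1 : ∀ z ∈ D, HasDerivAt (fun z => riemannZeta z * Complex.exp (-g z)) 0 z := by
      intro z hz
      have h2 : HasDerivAt riemannZeta (deriv riemannZeta z) z :=
        (differentiableAt_riemannZeta (hne z hz)).hasDerivAt
      have h3 : HasDerivAt (fun z => riemannZeta z * Complex.exp (-g z))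
        (deriv riemannZeta z * Complex.exp (-g z) +
          riemannZeta z * (Complex.exp (-g z) * -(deriv riemannZeta z / riemannZeta z))) z :=
        h2.mul ((hg z hz).neg.cexp)
      have h4 := hz0 z hz
      have h5 : riemannZeta z * (Complex.exp (-g z) * -(deriv riemannZeta z / riemannZeta z)) =
          -(deriv riemannZeta z * Complex.exp (-g z)) := by
        field_simp
      rw [h5, add_neg_cancel] at h3
      exact h3
    have h2 : D.EqOn (deriv (fun z => riemannZeta z * Complex.exp (-g z))) 0 := by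
      intro z hz
      exact (h1 z hz).deriv
    intro z hz
    have h3 := hDo.is_const_of_deriv_eq_zero hDc.isPreconnected
      (fun z hz => (h1 z hz).differentiableAt.differentiableWithinAt) h2 hz hc0
    rw [hg0, ← exp_PP (z := ⟨X, u⟩) (by simp only; linarith), ← Complex.exp_add, add_neg_cancel,
      Complex.exp_zero] at h3
    rw [Complex.exp_neg] at h3
    have h4 : Complex.exp (g z) ≠ 0 := Complex.exp_ne_zero _
    field_simp at h3
    exact h3.symm
  refine ⟨g, fun z hz => ⟨(hg z hz).differentiableAt, hexp z hz⟩, ?_⟩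
  intro z hz hz1
  set σ := min z.re X with hσ
  have hσ1 : 1 < σ := lt_min hz1 (by linarith)
  set S := D ∩ {z : ℂ | σ ≤ z.re} with hSdef
  have hS : IsPreconnected S := by
    apply Convex.isPreconnected
    exact hDc.inter (convex_halfSpace_re_ge σ)
  have hcont : ContinuousOn (fun z => g z - PP z) S := by
    apply ContinuousOn.sub
    · intro z hz
      exact (hg z hz.1).continuousAt.continuousWithinAt
    · exact (continuousOn_PP hσ1).mono inter_subset_right
  have h1 : ∀ w ∈ S, Complex.exp (g w - PP w) = 1 := by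
    intro w hw
    have hw1 : 1 < w.re := hσ1.trans_le hw.2
    rw [Complex.exp_sub, hexp w hw.1, exp_PP hw1, div_self (hz0 w hw.1)]
  have h2 := eq_of_exp_eq_one hS hcont h1 (a := ⟨X, u⟩) (b := z) ⟨hc0, by
    simp only [mem_ofPred_eq, hσ]
    exact min_le_right _ _⟩ ⟨hz, by
    simp only [mem_ofPred_eq, hσ]
    exact min_le_left _ _⟩ (by simp only [hg0, sub_self])
  exact sub_eq_zero.1 h2

lemma box_in_ball {κ V X u : ℝ} (hκ : 0 < κ) (hκ2 : κ < 1 / 2)
    (hX : X = 3 + 2 * (V + 2) ^ 2 / κ) (hV : 0 ≤ V) {z : ℂ} (h1 : 1 / 2 + κ / 2 ≤ z.re)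
    (h2 : z.re ≤ 7 / 2) (h3 : |z.im - u| ≤ V + 3 / 2) :
    z ∈ Metric.ball (⟨X, u⟩ : ℂ) (X - 1 / 2 - κ / 4) := by
  have hX3 : 3 ≤ X := by
    rw [hX]
    have : 0 ≤ 2 * (V + 2) ^ 2 / κ := by positivity
    linarith
  rw [Metric.mem_ball, Complex.dist_eq, Complex.norm_def]
  rw [Real.sqrt_lt' (by linarith), Complex.normSq_apply]
  simp only [Complex.sub_re, Complex.sub_im]
  have h4 : (z.im - u) * (z.im - u) ≤ (V + 2) ^ 2 := by
    rw [← sq, ← sq_abs]
    apply pow_le_pow_left₀ (abs_nonneg _)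
    linarith
  have h5 : (z.re - X) * (z.re - X) ≤ (X - 1 / 2 - κ / 2) ^ 2 := by
    rw [← sq]
    apply sq_le_sq'
    · linarith
    · linarith
  have h6 : (V + 2) ^ 2 = κ * (X - 3) / 2 := by
    rw [hX]
    field_simp
    ring
  have h7 : (X - 1 / 2 - κ / 4) ^ 2 - (X - 1 / 2 - κ / 2) ^ 2 =
      κ * (2 * X - 1 - 3 * κ / 4) / 4 := by ring
  have h8 : κ * (X - 3) / 2 < κ * (2 * X - 1 - 3 * κ / 4) / 4 := by
    have : 0 < κ * (5 - 3 * κ / 4) := by
      apply mul_pos hκ
      linarith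
    nlinarith
  linarith

/-- **The logarithm of the zeta function in a strip, under RH.** -/
theorem log_zeta_bound (RH : RiemannHypothesis) {κ V : ℝ} (hκ : 0 < κ) (hκ2 : κ < 1 / 2)
    (hV : 0 ≤ V) :
    ∃ K U0 : ℝ, 0 < K ∧ 3 ≤ U0 ∧ ∀ u : ℝ, U0 ≤ u → ∃ g : ℂ → ℂ, ∀ z : ℂ, 1 / 2 + κ ≤ z.re →
      z.re ≤ 2 → |z.im - u| ≤ V →
      DifferentiableAt ℂ g z ∧ Complex.exp (g z) = riemannZeta z ∧ ‖g z‖ ≤ K * Real.log u ∧
        (1 < z.re → g z = PP z) := by
  obtain ⟨X, hX⟩ : ∃ X, X = 3 + 2 * (V + 2) ^ 2 / κ := ⟨_, rfl⟩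
  have hX3 : 3 ≤ X := by
    rw [hX]
    have : 0 ≤ 2 * (V + 2) ^ 2 / κ := by positivity
    linarith
  set C0 := ∑' p : Nat.Primes, 3 / 2 * ((p : ℕ) : ℝ) ^ (-(2 : ℝ)) with hC0
  have hC0' : 0 ≤ C0 := tsum_nonneg fun p => by positivity
  refine ⟨6 * (3 + C0) / κ + C0, max X (6 + V), by positivity, hX3.trans (le_max_left _ _), ?_⟩
  intro u hu
  have hu1 : X ≤ u := (le_max_left _ _).trans hu
  have hu2 : 6 + V ≤ u := (le_max_right _ _).trans hu
  obtain ⟨g, hg, hg2⟩ := log_on_ball RH hκ hκ2 (by linarith) hu1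
  refine ⟨g, ?_⟩
  intro z h1 h2 h3
  have hzD := box_in_ball (u := u) hκ hκ2 hX hV (z := z) (by linarith) (by linarith) (by linarith)
  refine ⟨(hg z hzD).1, (hg z hzD).2, ?_, hg2 z hzD⟩
  have h3' := abs_le.1 h3
  -- the centre
  obtain ⟨c, hc⟩ : ∃ c : ℂ, c = ⟨2, z.im⟩ := ⟨_, rfl⟩
  have hcD := box_in_ball (u := u) hκ hκ2 hX hV (z := c) (by rw [hc]; simp only; linarith)
    (by rw [hc]; norm_num) (by rw [hc]; simp only; linarith)
  have hgc : ‖g c‖ ≤ C0 := by
    rw [hg2 c hcD (by rw [hc]; norm_num)]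
    unfold PP
    apply tsum_of_norm_bounded (summable_primes (by norm_num : (1 : ℝ) < 2)).hasSum
    intro p
    apply ll_le_of_le (by norm_num) p
    rw [hc]
  have hR : (0 : ℝ) < 3 / 2 - κ / 2 := by linarith
  have hball : ∀ w ∈ Metric.ball (0 : ℂ) (3 / 2 - κ / 2),
      c + w ∈ Metric.ball (⟨X, u⟩ : ℂ) (X - 1 / 2 - κ / 4) ∧ ‖c + w‖ ≤ 5 + u + V ∧
        1 / 2 ≤ (c + w).re ∧ 1 ≤ (c + w).im := by
    intro w hw
    rw [mem_ball_zero_iff] at hw
    have h4 := abs_le.1 (Complex.abs_re_le_norm w |>.trans hw.le)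
    have h5 := abs_le.1 (Complex.abs_im_le_norm w |>.trans hw.le)
    have h6 : (c + w).re = 2 + w.re := by rw [hc, Complex.add_re]
    have h7 : (c + w).im = z.im + w.im := by rw [hc, Complex.add_im]
    refine ⟨box_in_ball (u := u) hκ hκ2 hX hV (by rw [h6]; linarith) (by rw [h6]; linarith)
      (by rw [h7, abs_le]; constructor <;> linarith), ?_, by rw [h6]; linarith,
      by rw [h7]; linarith⟩
    refine (Complex.norm_le_abs_re_add_abs_im _).trans ?_
    rw [h6, h7, abs_of_nonneg (by linarith), abs_of_nonneg (by linarith)]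
    linarith
  have hM : 0 < Real.log (4 * u) + C0 := by
    have : 0 < Real.log (4 * u) := Real.log_pos (by linarith)
    linarith
  have hu0 : 0 < u := by linarith
  have hlog : 1 ≤ Real.log u := by
    rw [Real.le_log_iff_exp_le hu0]
    have := Real.exp_one_lt_d9
    linarith
  have hdiff : DifferentiableOn ℂ (fun w => g (c + w) - g c) (Metric.ball 0 (3 / 2 - κ / 2)) := by
    intro w hw
    have h4 := (hg _ (hball w hw).1).1
    have h5 : DifferentiableAt ℂ (fun w => g (c + w)) w :=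
      DifferentiableAt.comp w h4 ((differentiableAt_const c).add differentiableAt_id)
    exact (h5.sub (differentiableAt_const _)).differentiableWithinAt
  have hmaps : MapsTo (fun w => g (c + w) - g c) (Metric.ball 0 (3 / 2 - κ / 2))
      {z | z.re ≤ Real.log (4 * u) + C0} := by
    intro w hw
    obtain ⟨hb1, hb2, hb3, hb4⟩ := hball w hw
    simp only [mem_ofPred_eq, Complex.sub_re]
    have h4 : (g (c + w)).re ≤ Real.log (4 * u) := by
      rw [Real.le_log_iff_exp_le (by linarith), ← Complex.norm_exp, (hg _ hb1).2]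
      refine (zeta_growth hb3 hb4).trans ?_
      linarith
    have h5 := (abs_le.1 ((Complex.abs_re_le_norm (g c)).trans hgc)).1
    linarith
  have hw : z - c ∈ Metric.ball (0 : ℂ) (3 / 2 - κ / 2) ∧ ‖z - c‖ ≤ 3 / 2 - κ := by
    have h4 : z - c = ((z.re - 2 : ℝ) : ℂ) := by
      rw [hc]
      apply Complex.ext
      · simp
      · simp
    have h5 : ‖z - c‖ ≤ 3 / 2 - κ := by
      rw [h4, Complex.norm_real, Real.norm_eq_abs, abs_le]
      constructor <;> linarith
    refine ⟨?_, h5⟩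
    rw [mem_ball_zero_iff]
    linarith
  have key := Complex.borelCaratheodory_zero hM hdiff hmaps hR hw.1 (by simp)
  simp only [add_sub_cancel] at key
  have h6 : 2 * (Real.log (4 * u) + C0) * ‖z - c‖ / (3 / 2 - κ / 2 - ‖z - c‖) ≤
      6 * (Real.log (4 * u) + C0) / κ := by
    rw [div_le_div_iff₀ (by linarith [hw.2]) hκ]
    have h7 := norm_nonneg (z - c)
    have h8 : ‖z - c‖ * κ ≤ 3 * (3 / 2 - κ / 2 - ‖z - c‖) := by
      nlinarith [hw.2]
    nlinarith
  have h9 : Real.log (4 * u) ≤ 3 * Real.log u - C0 * 0 := by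
    rw [Real.log_mul (by norm_num) hu0.ne']
    have h10 : Real.log 4 ≤ 2 := by
      have : (4 : ℝ) = 2 * 2 := by norm_num
      rw [this, Real.log_mul (by norm_num) (by norm_num)]
      have := Real.log_two_lt_d9
      linarith
    linarith
  have h11 : ‖g z‖ ≤ ‖g z - g c‖ + ‖g c‖ := norm_le_norm_sub_add _ _
  have h12 : 6 * (Real.log (4 * u) + C0) / κ ≤ 6 * (3 + C0) / κ * Real.log u := by
    rw [div_mul_eq_mul_div]
    apply div_le_div_of_nonneg_right _ hκ.le
    nlinarith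
  calc ‖g z‖ ≤ 6 * (3 + C0) / κ * Real.log u + C0 := by linarith
    _ ≤ (6 * (3 + C0) / κ + C0) * Real.log u := by nlinarith

end Pool.Agent.H.MP_2e4794_nt.RL
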