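import Pool.Agent.H.MP_2e4794_nt.RL.LA
import Pool.Agent.H.MP_2e4794_nt.ZM.Good

/-!
# Counting with dyadic blocks
-/

namespace Pool.Agent.H.MP_2e4794_nt.RL

open Finset Filter Topology MeasureTheory
open Pool.Agent.H.MP_2e4794_nt.ZM (prs mem_prs meas_le asym sum_split sum_delta)

lemma ee_sub {p : ℕ} (hp : 2 ≤ p) (t t' : ℝ) :
    ‖ee p t - ee p t'‖ ≤ |t - t'| * Real.log p := by
  have h0 : (p : ℂ) ≠ 0 := by
    have : p ≠ 0 := by omega
    exact_mod_cast this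
  have hp1 : (2 : ℝ) ≤ p := by exact_mod_cast hp
  have hl : 0 ≤ Real.log p := Real.log_nonneg (by linarith)
  have h1 : ∀ t : ℝ, ee p t = Complex.exp (Complex.I * ((-(t * Real.log p) : ℝ) : ℂ)) := by
    intro t
    unfold ee
    rw [Complex.cpow_def_of_ne_zero h0, ← Complex.natCast_log]
    congr 1
    push_cast
    ring
  have h2 : ee p t - ee p t' = ee p t' *
      (Complex.exp (Complex.I * ((-((t - t') * Real.log p) : ℝ) : ℂ)) - 1) := by
    rw [h1, h1, mul_sub, ← Complex.exp_add, mul_one]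
    congr 2
    push_cast
    ring
  have h3 : ‖ee p t'‖ = 1 := by
    rw [h1, mul_comm]
    exact Complex.norm_exp_ofReal_mul_I _
  rw [h2, norm_mul, h3, one_mul]
  refine Real.norm_exp_I_mul_ofReal_sub_one_le.trans (le_of_eq ?_)
  rw [Real.norm_eq_abs, abs_neg, abs_mul, abs_of_nonneg hl]

/-- a dyadic block -/
noncomputable def DD (P : ℕ) (t : ℝ) : ℂ := ∑ p ∈ prs P (2 * P), (p : ℂ) ^ (-((1 : ℂ) + t * Complex.I))

lemma DD_eq (P : ℕ) (t : ℝ) : DD P t = ZM.SS P 1 t := by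
  unfold DD ZM.SS
  apply sum_congr rfl
  intro p _
  rw [Complex.ofReal_one]

lemma DD_lip {P : ℕ} (hP : 2 ≤ P) (t t' : ℝ) : ‖DD P t - DD P t'‖ ≤ 26 * |t - t'| := by
  have hP1 : (2 : ℝ) ≤ P := by exact_mod_cast hP
  have hl : 0 < Real.log P := Real.log_pos (by linarith)
  unfold DD
  rw [← sum_sub_distrib]
  have h1 : ∀ p ∈ prs P (2 * P), ‖(p : ℂ) ^ (-((1 : ℂ) + t * Complex.I)) -
      (p : ℂ) ^ (-((1 : ℂ) + t' * Complex.I))‖ ≤ 1 / (p : ℝ) * (|t - t'| * (2 * Real.log P)) := by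
    intro p hp
    rw [mem_prs] at hp
    have hp2 : (2 : ℝ) ≤ p := by exact_mod_cast hp.2.two_le
    rw [pcpow_eq hp.2.two_le, pcpow_eq hp.2.two_le, ← mul_sub, norm_mul, Complex.norm_real,
      Real.norm_eq_abs, abs_of_nonneg (by positivity)]
    apply mul_le_mul_of_nonneg_left _ (by positivity)
    refine (ee_sub hp.2.two_le t t').trans ?_
    apply mul_le_mul_of_nonneg_left _ (abs_nonneg _)
    have h2 : (p : ℝ) ≤ (P : ℝ) ^ 2 := by
      have : (p : ℝ) ≤ 2 * P := by exact_mod_cast hp.1.2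
      nlinarith
    have h3 := Real.log_le_log (by linarith) h2
    rw [Real.log_pow] at h3
    exact_mod_cast h3
  refine (norm_sum_le _ _).trans ((sum_le_sum h1).trans ?_)
  rw [← sum_mul]
  have h4 := WW_double hP
  unfold WW at h4
  rw [mul_comm P 2] at h4
  calc (∑ p ∈ prs P (2 * P), 1 / (p : ℝ)) * (|t - t'| * (2 * Real.log P)) ≤
      13 / Real.log P * (|t - t'| * (2 * Real.log P)) := by
        apply mul_le_mul_of_nonneg_right h4 (by positivity)
    _ = 26 * |t - t'| := by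
        field_simp
        ring

/-- a separated set and a measure -/
lemma sep_measure (T : Finset ℝ) {ρ : ℝ} (hρ0 : 0 < ρ) (hρ1 : ρ ≤ 1) (E : Set ℝ) {x H : ℝ}
    (hT : ∀ t ∈ T, x ≤ t ∧ t ≤ x + H) (hT2 : ∀ t ∈ T, ∀ t' ∈ T, t ≠ t' → 1 ≤ |t - t'|)
    (hE : ∀ t ∈ T, Set.Ioo t (t + ρ) ⊆ E) :
    T.card * ρ ≤ (volume.restrict (Set.Ioc x (x + (H + 1)))).real E := by
  have h1 : (volume.restrict (Set.Ioc x (x + (H + 1)))).real (⋃ t ∈ T, Set.Ioo t (t + ρ)) =
      ∑ t ∈ T, (volume.restrict (Set.Ioc x (x + (H + 1)))).real (Set.Ioo t (t + ρ)) := by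
    apply measureReal_biUnion_finset
    · intro m hm n hn hmn
      rw [Function.onFun, Set.disjoint_left]
      intro t ht1 ht2
      have h3 := hT2 m hm n hn hmn
      rcases le_or_gt 0 (m - n) with h | h
      · rw [abs_of_nonneg h] at h3
        linarith [ht1.1, ht2.2]
      · rw [abs_of_neg h] at h3
        linarith [ht1.2, ht2.1]
    · intro n _
      exact measurableSet_Ioo
    · intro n _
      exact (measure_lt_top _ _).ne
  have h2 : ∀ t ∈ T, (volume.restrict (Set.Ioc x (x + (H + 1)))).real (Set.Ioo t (t + ρ)) = ρ := by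
    intro n hn
    rw [measureReal_restrict_apply measurableSet_Ioo, Set.inter_eq_left.2]
    · rw [Real.volume_real_Ioo_of_le (by linarith)]
      ring
    · intro t ht
      have h3 := hT n hn
      exact ⟨by linarith [ht.1], by linarith [ht.2]⟩
  rw [sum_congr rfl h2, sum_const, nsmul_eq_mul] at h1
  rw [← h1]
  apply measureReal_mono
  · exact Set.iUnion₂_subset hE
  · exact (measure_lt_top _ _).ne

/-- the number of points where a block is large -/
lemma block_count {P : ℕ} (hP : 3 ≤ P) (k : ℕ) {T : Finset ℝ} {x H : ℝ} (hH : 0 ≤ H)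
    (hT : ∀ t ∈ T, x ≤ t ∧ t ≤ x + H) (hT2 : ∀ t ∈ T, ∀ t' ∈ T, t ≠ t' → 1 ≤ |t - t'|)
    (hD : ∀ t ∈ T, 2 / Real.log P ^ 2 ≤ ‖DD P t‖) :
    (T.card : ℝ) ≤ 26 * Real.log P ^ 2 * ((1 / (1 / Real.log P ^ 2)) ^ (2 * k) *
      (((H + 1) + 4 * (2 * P : ℝ) ^ k * (1 + k * Real.log (2 * P))) *
        (k.factorial * (1 / P : ℝ) ^ k))) := by
  have hP1 : (3 : ℝ) ≤ P := by exact_mod_cast hP
  have hl : 1 < Real.log P := by
    rw [Real.lt_log_iff_exp_lt (by linarith)]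
    have := Real.exp_one_lt_d9
    linarith
  have hl2 : 1 ≤ Real.log P ^ 2 := one_le_pow₀ hl.le
  have hρ0 : 0 < 1 / (26 * Real.log P ^ 2) := by positivity
  have h1 := sep_measure T hρ0 (by
    rw [div_le_one (by positivity)]
    linarith) {t | 1 / Real.log P ^ 2 ≤ ‖ZM.SS P 1 t‖} hT hT2 (by
      intro t ht τ hτ
      have h2 := hD t ht
      have h3 := DD_lip (P := P) (by omega) t τ
      have h4 : |t - τ| ≤ 1 / (26 * Real.log P ^ 2) := by
        rw [abs_le]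
        constructor
        · linarith [hτ.2]
        · linarith [hτ.1]
      have h5 : 26 * |t - τ| ≤ 1 / Real.log P ^ 2 := by
        calc 26 * |t - τ| ≤ 26 * (1 / (26 * Real.log P ^ 2)) :=
              mul_le_mul_of_nonneg_left h4 (by norm_num)
          _ = 1 / Real.log P ^ 2 := by field_simp
      have h6 := norm_sub_norm_le (DD P t) (DD P τ)
      have h7 : 2 / Real.log P ^ 2 = 1 / Real.log P ^ 2 + 1 / Real.log P ^ 2 := by ring
      show 1 / Real.log P ^ 2 ≤ ‖ZM.SS P 1 τ‖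
      rw [← DD_eq]
      linarith)
  have h8 := meas_le (P := P) (by omega) k (σ := 1) le_rfl x (H + 1) (by linarith)
    (δ := 1 / Real.log P ^ 2) (by positivity)
  have h9 := h1.trans h8
  rw [mul_one_div, div_le_iff₀ (by positivity)] at h9
  linarith

/-- splitting the primes in `(y, Y]` into dyadic blocks -/
lemma block_split {y Y : ℕ} (hy : 3 ≤ y) (hyY : y ≤ Y) :
    ∃ J : ℕ, y * 2 ^ J ≤ Y ∧ ∀ t : ℝ,
      ‖SY Y (1 + t * Complex.I) - SY y (1 + t * Complex.I)‖ ≤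
        2 / y + ∑ j ∈ range J, ‖DD (y * 2 ^ j) t‖ + 13 / Real.log y := by
  have hy1 : (3 : ℝ) ≤ y := by exact_mod_cast hy
  obtain ⟨J, hJ1, hJ2⟩ : ∃ J, y * 2 ^ J ≤ Y ∧ Y < y * 2 ^ (J + 1) := by
    have hex : ∃ J, Y < y * 2 ^ J := ⟨Y, by
      calc Y < 2 ^ Y := Nat.lt_two_pow_self
        _ ≤ y * 2 ^ Y := Nat.le_mul_of_pos_left _ (by omega)⟩
    classical
    rcases h : Nat.find hex with _ | k
    · have h1 := Nat.find_spec hex
      rw [h] at h1
      simp only [pow_zero, mul_one] at h1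
      omega
    · have h3 := Nat.find_min hex (m := k) (by omega)
      have h4 := Nat.find_spec hex
      rw [h] at h4
      push Not at h3
      exact ⟨k, h3, h4⟩
  refine ⟨J, hJ1, ?_⟩
  intro t
  obtain ⟨s, hs⟩ : ∃ s : ℂ, s = 1 + t * Complex.I := ⟨_, rfl⟩
  have hsr : s.re = 1 := by rw [hs]; exact hsre t
  have hyJ : y ≤ y * 2 ^ J := Nat.le_mul_of_pos_right _ (by positivity)
  have h1 : SY Y s - SY y s = ∑ p ∈ prs y Y, rr p s + ∑ j ∈ range J, DD (y * 2 ^ j) t +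
      ∑ p ∈ prs (y * 2 ^ J) Y, (p : ℂ) ^ (-s) := by
    unfold SY
    rw [sum_prs_add _ (Nat.zero_le y) hyY]
    have h2 : ∑ p ∈ prs y Y, ll p s = ∑ p ∈ prs y Y, rr p s + ∑ p ∈ prs y Y, (p : ℂ) ^ (-s) := by
      rw [← sum_add_distrib]
      apply sum_congr rfl
      intro p _
      unfold rr
      ring
    have h3 : ∑ p ∈ prs y Y, (p : ℂ) ^ (-s) = ∑ p ∈ prs y (y * 2 ^ J), (p : ℂ) ^ (-s) +
        ∑ p ∈ prs (y * 2 ^ J) Y, (p : ℂ) ^ (-s) := sum_prs_add _ hyJ hJ1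
    have h4 : ∑ p ∈ prs y (y * 2 ^ J), (p : ℂ) ^ (-s) = ∑ j ∈ range J, DD (y * 2 ^ j) t := by
      rw [sum_split (fun p => (p : ℂ) ^ (-s)) J]
      unfold DD
      rw [hs]
    rw [h2, h3, h4]
    ring
  rw [← hs, h1]
  have h5 : ‖∑ p ∈ prs (y * 2 ^ J) Y, (p : ℂ) ^ (-s)‖ ≤ 13 / Real.log y := by
    have h6 : ‖∑ p ∈ prs (y * 2 ^ J) Y, (p : ℂ) ^ (-s)‖ ≤ WW (y * 2 ^ J) (y * 2 ^ J * 2) := by
      unfold WW
      calc ‖∑ p ∈ prs (y * 2 ^ J) Y, (p : ℂ) ^ (-s)‖ ≤ ∑ p ∈ prs (y * 2 ^ J) Y, 1 / (p : ℝ) := by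
            apply norm_sum_le_of_le
            intro p hp
            rw [mem_prs] at hp
            rw [norm_p_one hp.2.two_le hsr]
        _ ≤ _ := by
            apply sum_le_sum_of_subset_of_nonneg
            · intro p hp
              rw [mem_prs] at hp ⊢
              refine ⟨⟨hp.1.1, ?_⟩, hp.2⟩
              have : y * 2 ^ (J + 1) = y * 2 ^ J * 2 := by ring
              omega
            · intro p _ _
              positivity
    refine h6.trans ((WW_double (by omega)).trans ?_)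
    apply div_le_div_of_nonneg_left (by norm_num) (Real.log_pos (by linarith))
    apply Real.log_le_log (by linarith)
    exact_mod_cast hyJ
  have h7 : ‖∑ p ∈ prs y Y, rr p s‖ ≤ 2 / y :=
    (norm_sum_le _ _).trans (sum_rr_le (by omega) Y hsr.ge)
  have h8 : ‖∑ j ∈ range J, DD (y * 2 ^ j) t‖ ≤ ∑ j ∈ range J, ‖DD (y * 2 ^ j) t‖ :=
    norm_sum_le _ _
  have t1 := norm_add_le (∑ p ∈ prs y Y, rr p s + ∑ j ∈ range J, DD (y * 2 ^ j) t)
    (∑ p ∈ prs (y * 2 ^ J) Y, (p : ℂ) ^ (-s))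
  have t2 := norm_add_le (∑ p ∈ prs y Y, rr p s) (∑ j ∈ range J, DD (y * 2 ^ j) t)
  linarith

end Pool.Agent.H.MP_2e4794_nt.RL
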