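import Pool.Agent.H.MP_2e4794_nt.RL.MB

/-!
# The number of clusters where `|ζ(1 + it)|` exceeds `A e^γ log log H`
-/

namespace Pool.Agent.H.MP_2e4794_nt.RL

open Finset Filter Topology MeasureTheory
open Pool.Agent.H.MP_2e4794_nt.ZM (prs mem_prs asym sum_delta yy tendsto_yy log_yy_le
  mertens_minus mertens_plus)

/-- the parameters, as functions of `B = log H` -/
lemma ev_B {A η η' c' : ℝ} (hA : 0 < A) (hA2 : A ≤ 2) (hη : 0 < η) (hη' : 0 < η')
    (hc : 1 / A + η' < c') :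
    ∃ C : ℝ, 1 ≤ C ∧ ∀ B : ℝ, C ≤ B →
      3 ≤ yy A B ∧ yy A B ≤ ⌈B ^ ((2 : ℝ) + 1)⌉₊ ∧
      ∏ p ∈ prs 0 (yy A B), (1 - 1 / (p : ℝ))⁻¹ ≤
        (Real.exp Real.eulerMascheroniConstant + η) * Real.log (yy A B) ∧
      ∏ p ∈ prs 0 (yy A B), (1 + 1 / (p : ℝ)) ≤
        (6 / Real.pi ^ 2 * Real.exp Real.eulerMascheroniConstant + η) * Real.log (yy A B) ∧
      2 / (yy A B : ℝ) + 2 / (Real.log 2 * (Real.log (yy A B) - Real.log 2)) +
        13 / Real.log (yy A B) ≤ η ∧
      (∀ P : ℕ, B ^ A / 2 ≤ P → (P : ℝ) ≤ Real.exp (B ^ 12) →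
        ∀ H : ℝ, 0 ≤ H → H ≤ 4 * Real.exp B →
        (1 / (1 / Real.log P ^ 2)) ^ (2 * ⌈B / Real.log P⌉₊) *
          ((H + 4 * (2 * P : ℝ) ^ ⌈B / Real.log P⌉₊ *
            (1 + ⌈B / Real.log P⌉₊ * Real.log (2 * P))) *
          (⌈B / Real.log P⌉₊.factorial * (1 / P : ℝ) ^ ⌈B / Real.log P⌉₊)) ≤
        B ^ 63 * Real.exp ((1 / A + η') * B)) ∧
      Real.log (⌈B ^ ((2 : ℝ) + 1)⌉₊ : ℝ) ≤ B * Real.log 2 ∧
      1 / η ^ 2 * B + 26 * B ^ 66 * Real.exp ((1 / A + η') * B) ≤ Real.exp (c' * B) ∧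
      B ^ A / 2 ≤ yy A B := by
  have hyt := tendsto_yy hA
  have hly : Tendsto (fun y : ℕ => Real.log (y : ℝ)) atTop atTop :=
    Real.tendsto_log_atTop.comp tendsto_natCast_atTop_atTop
  have e1 : ∀ᶠ B : ℝ in atTop, 3 ≤ yy A B := hyt.eventually_ge_atTop 3
  have e2 : ∀ᶠ Y : ℕ in atTop, ∏ p ∈ prs 0 Y, (1 - 1 / (p : ℝ))⁻¹ ≤
      (Real.exp Real.eulerMascheroniConstant + η) * Real.log Y := by
    filter_upwards [mertens_minus.eventually (gt_mem_nhds (lt_add_of_pos_right _ hη)),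
      hly.eventually_gt_atTop 0] with Y h1 h2
    rw [div_lt_iff₀ h2] at h1
    exact h1.le
  have e3 : ∀ᶠ Y : ℕ in atTop, ∏ p ∈ prs 0 Y, (1 + 1 / (p : ℝ)) ≤
      (6 / Real.pi ^ 2 * Real.exp Real.eulerMascheroniConstant + η) * Real.log Y := by
    filter_upwards [mertens_plus.eventually (gt_mem_nhds (lt_add_of_pos_right _ hη)),
      hly.eventually_gt_atTop 0] with Y h1 h2
    rw [div_lt_iff₀ h2] at h1
    exact h1.le
  have e4 : ∀ᶠ Y : ℕ in atTop, 2 / (Y : ℝ) + 2 / (Real.log 2 * (Real.log Y - Real.log 2)) +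
      13 / Real.log Y ≤ η := by
    have h1 : Tendsto (fun Y : ℕ => 2 / (Y : ℝ)) atTop (𝓝 0) :=
      (tendsto_natCast_atTop_atTop (R := ℝ)).const_div_atTop 2
    have h2 : Tendsto (fun Y : ℕ => 2 / (Real.log 2 * (Real.log (Y : ℝ) - Real.log 2))) atTop
        (𝓝 0) := by
      apply Tendsto.const_div_atTop
      apply Tendsto.const_mul_atTop (Real.log_pos (by norm_num))
      exact tendsto_atTop_add_const_right _ _ hly
    have h3 : Tendsto (fun Y : ℕ => 13 / Real.log (Y : ℝ)) atTop (𝓝 0) := hly.const_div_atTop 13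
    have h4 := (h1.add h2).add h3
    rw [add_zero, add_zero] at h4
    exact h4.eventually_le_const hη
  have e5 := asym A η' hA hη'
  have e6 : ∀ᶠ B : ℝ in atTop, Real.log (⌈B ^ ((2 : ℝ) + 1)⌉₊ : ℝ) ≤ B * Real.log 2 := by
    have h1 : Tendsto (fun L : ℝ => Real.log L / L) atTop (𝓝 0) := by
      have := (isLittleO_log_rpow_atTop (r := 1) one_pos).tendsto_div_nhds_zero
      simpa using this
    have h2 : Tendsto (fun B : ℝ => Real.log 2 / B + 3 * (Real.log B / B)) atTop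
        (𝓝 (0 + 3 * 0)) :=
      (tendsto_id.const_div_atTop (Real.log 2)).add (h1.const_mul 3)
    rw [mul_zero, add_zero] at h2
    filter_upwards [h2.eventually_le_const (Real.log_pos (show (1 : ℝ) < 2 by norm_num)),
      eventually_ge_atTop 1] with B h3 h4
    have h5 := log_ceil_le (r := 2 + 1) (by norm_num) h4
    refine h5.trans ?_
    have hB0 : 0 < B := by linarith
    have h6 : Real.log 2 + (2 + 1) * Real.log B = (Real.log 2 / B + 3 * (Real.log B / B)) * B := by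
      field_simp
      ring
    rw [h6, mul_comm B]
    exact mul_le_mul_of_nonneg_right h3 hB0.le
  have e7 : ∀ᶠ B : ℝ in atTop,
      1 / η ^ 2 * B + 26 * B ^ 66 * Real.exp ((1 / A + η') * B) ≤ Real.exp (c' * B) := by
    have hd : 0 < c' - (1 / A + η') := by linarith
    have h1 : Tendsto (fun B : ℝ => B ^ 66 * Real.exp (-(c' - (1 / A + η')) * B)) atTop (𝓝 0) := by
      have := Real.tendsto_pow_mul_exp_neg_atTop_nhds_zero 66
      have h2 := this.comp (tendsto_id.const_mul_atTop hd)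
      have h3 := h2.const_mul (1 / (c' - (1 / A + η')) ^ 66)
      rw [mul_zero] at h3
      refine h3.congr fun B => ?_
      simp only [Function.comp, id]
      rw [mul_pow, ← mul_assoc, ← mul_assoc, one_div_mul_cancel (by positivity), one_mul]
      congr 2
      ring
    have h4 : ∀ᶠ B : ℝ in atTop, B ^ 66 * Real.exp (-(c' - (1 / A + η')) * B) ≤
        1 / (1 / η ^ 2 + 26) := h1.eventually_le_const (by positivity)
    filter_upwards [h4, eventually_ge_atTop 1] with B h5 h6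
    have h7 : B ≤ B ^ 66 * Real.exp ((1 / A + η') * B) := by
      have h8 : 1 ≤ Real.exp ((1 / A + η') * B) := Real.one_le_exp (by positivity)
      calc B = B ^ 1 * 1 := by ring
        _ ≤ B ^ 66 * Real.exp ((1 / A + η') * B) := by
            apply mul_le_mul (pow_le_pow_right₀ h6 (by norm_num)) h8 (by norm_num) (by positivity)
    have h9 : B ^ 66 * Real.exp ((1 / A + η') * B) =
        B ^ 66 * Real.exp (-(c' - (1 / A + η')) * B) * Real.exp (c' * B) := by
      rw [mul_assoc, ← Real.exp_add]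
      congr 2
      ring
    have h10 : (1 / η ^ 2 + 26) * (B ^ 66 * Real.exp ((1 / A + η') * B)) ≤ Real.exp (c' * B) := by
      rw [h9]
      calc (1 / η ^ 2 + 26) * (B ^ 66 * Real.exp (-(c' - (1 / A + η')) * B) * Real.exp (c' * B)) ≤
          (1 / η ^ 2 + 26) * (1 / (1 / η ^ 2 + 26) * Real.exp (c' * B)) := by
            apply mul_le_mul_of_nonneg_left _ (by positivity)
            exact mul_le_mul_of_nonneg_right h5 (Real.exp_pos _).le
        _ = Real.exp (c' * B) := by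
            rw [← mul_assoc, mul_one_div_cancel (by positivity), one_mul]
    have h11 : 1 / η ^ 2 * B ≤ 1 / η ^ 2 * (B ^ 66 * Real.exp ((1 / A + η') * B)) :=
      mul_le_mul_of_nonneg_left h7 (by positivity)
    linarith
  have e8 : ∀ᶠ B : ℝ in atTop, 2 ≤ B ^ A := (tendsto_rpow_atTop hA).eventually_ge_atTop 2
  obtain ⟨C, hC⟩ := eventually_atTop.1 (e1.and ((hyt.eventually e2).and ((hyt.eventually e3).and
    ((hyt.eventually e4).and (e5.and (e6.and (e7.and e8)))))))
  refine ⟨max C 1, le_max_right _ _, ?_⟩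
  intro B hB
  obtain ⟨h1, h2, h3, h4, h5, h6, h7, h8⟩ := hC B ((le_max_left _ _).trans hB)
  have hB1 : 1 ≤ B := (le_max_right _ _).trans hB
  refine ⟨h1, ?_, h2, h3, h4, fun P hP1 hP2 H hH1 hH2 => h5 B le_rfl P hP1 hP2 H hH1 hH2, h6, h7,
    ?_⟩
  · unfold yy
    calc ⌊B ^ A⌋₊ ≤ ⌊B ^ ((2 : ℝ) + 1)⌋₊ := by
          apply Nat.floor_mono
          apply Real.rpow_le_rpow_of_exponent_le hB1
          linarith
      _ ≤ ⌈B ^ ((2 : ℝ) + 1)⌉₊ := Nat.floor_le_ceil _
  · unfold yy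
    have := Nat.lt_floor_add_one (B ^ A)
    linarith

/-- the choice of `η`, for `A' < A` -/
lemma choose_eta' {a b A A' : ℝ} (ha : 0 < a) (hb : 0 < b) (hAA : A' < A) :
    ∃ η : ℝ, 0 < η ∧ η ≤ 1 / 2 ∧ (a + η) * A' * Real.exp (4 * η) ≤ A * a ∧
      (b + η) * A' * Real.exp (4 * η) ≤ A * b := by
  have key : ∀ a : ℝ, 0 < a → ∀ᶠ η : ℝ in 𝓝[>] 0, (a + η) * A' * Real.exp (4 * η) ≤ A * a := by
    intro a ha
    have hc : Continuous fun η : ℝ => (a + η) * A' * Real.exp (4 * η) := by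
      fun_prop
    have h1 := hc.tendsto 0
    simp only [add_zero, mul_zero, Real.exp_zero, mul_one] at h1
    have h2 := h1.eventually_le_const (show a * A' < A * a by
      rw [mul_comm A]
      exact mul_lt_mul_of_pos_left hAA ha)
    exact eventually_nhdsWithin_of_eventually_nhds h2
  have h3 : ∀ᶠ η : ℝ in 𝓝[>] 0, η ≤ 1 / 2 := by
    apply eventually_nhdsWithin_of_eventually_nhds
    exact eventually_le_nhds (by norm_num)
  obtain ⟨η, ⟨h4, h5, h6⟩, h7⟩ := (((key a ha).and ((key b hb).and h3)).and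
    self_mem_nhdsWithin).exists
  exact ⟨η, h7, h6, h4, h5⟩

/-- **Intermediate values of the constant, under RH.** -/
theorem count_A (RH : RiemannHypothesis) {A ε : ℝ} (hA : 0 < A) (hA2 : A ≤ 2) (hε : 0 < ε) :
    ∃ C : ℝ, 3 ≤ C ∧ ∀ x H : ℝ, C ≤ H → H ≤ x →
      C * (1 + Real.log (Real.log (Real.log x) / Real.log (Real.log H))) ^ C ≤ Real.log H →
      ∃ S : Finset ℝ, (∀ s ∈ S, x ≤ s ∧ s ≤ x + H) ∧ (S.card : ℝ) ≤ H ^ (1 / A + ε) ∧
        ∀ t : ℝ, x ≤ t → t ≤ x + H → (∀ s ∈ S, C < |t - s|) →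
          ‖riemannZeta (1 + t * Complex.I)‖ ≤
            A * Real.exp Real.eulerMascheroniConstant * Real.log (Real.log H) ∧
          ‖riemannZeta (1 + t * Complex.I)‖⁻¹ ≤
            A * (6 / Real.pi ^ 2) * Real.exp Real.eulerMascheroniConstant *
              Real.log (Real.log H) := by
  obtain ⟨A', hA'⟩ : ∃ A', A' = 1 / (1 / A + ε / 3) := ⟨_, rfl⟩
  have hA'0 : 0 < A' := by rw [hA']; positivity
  have hA'A : A' < A := by
    rw [hA', div_lt_iff₀ (by positivity)]
    have : A * (1 / A + ε / 3) = 1 + A * (ε / 3) := by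
      field_simp
    rw [this]
    have : 0 < A * (ε / 3) := by positivity
    linarith
  have hA'inv : 1 / A' = 1 / A + ε / 3 := by rw [hA', one_div_one_div]
  obtain ⟨η, hη0, hη1, hea, heb⟩ := choose_eta' (a := Real.exp Real.eulerMascheroniConstant)
    (b := 6 / Real.pi ^ 2 * Real.exp Real.eulerMascheroniConstant) (Real.exp_pos _)
    (by positivity) hA'A
  obtain ⟨C0, hC0, hset⟩ := setup RH (δ := 1) (η := η) one_pos le_rfl hη0 hη1
  obtain ⟨C1, hC1, hB⟩ := ev_B (A := A') (η := η) (η' := ε / 3) (c' := 1 / A + ε) hA'0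
    (by linarith) hη0 (by positivity) (by rw [hA'inv]; linarith)
  refine ⟨max C0 (Real.exp C1), hC0.trans (le_max_left _ _), ?_⟩
  set C := max C0 (Real.exp C1) with hC
  intro x H hH hHx hcond
  have hC0C : C0 ≤ C := le_max_left _ _
  have hC3 : 3 ≤ C := hC0.trans hC0C
  have hH3 : 3 ≤ H := hC3.trans hH
  have hlogH : 1 < Real.log H := by
    rw [Real.lt_log_iff_exp_lt (by linarith)]
    have := Real.exp_one_lt_d9
    linarith
  have hH0 : 0 < H := by linarith
  obtain ⟨B, hBdef⟩ : ∃ B, B = Real.log H := ⟨_, rfl⟩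
  have hBH : Real.exp B = H := by rw [hBdef, Real.exp_log hH0]
  have hC1B : C1 ≤ B := by
    rw [hBdef, Real.le_log_iff_exp_le hH0]
    exact (le_max_right _ _).trans hH
  have hΛ0 : 0 ≤ Real.log (Real.log (Real.log x) / Real.log (Real.log H)) := by
    have hl0 : 0 < Real.log (Real.log H) := Real.log_pos hlogH
    apply Real.log_nonneg
    rw [le_div_iff₀ hl0, one_mul]
    exact Real.log_le_log (by linarith) (Real.log_le_log hH0 hHx)
  obtain ⟨Λ, hΛ⟩ : ∃ Λ, Λ = Real.log (Real.log (Real.log x) / Real.log (Real.log H)) := ⟨_, rfl⟩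
  rw [← hΛ] at hΛ0 hcond
  have hcond0 : C0 * (1 + Λ) ^ C0 ≤ Real.log H := by
    refine le_trans ?_ hcond
    apply mul_le_mul hC0C _ (by positivity) (by linarith)
    exact Real.rpow_le_rpow_of_exponent_le (by linarith) hC0C
  have hΛB : (1 + Λ) ^ 2 ≤ B := by
    rw [hBdef]
    refine le_trans ?_ hcond
    have h1 : (1 + Λ) ^ 2 ≤ (1 + Λ) ^ C := by
      rw [← Real.rpow_natCast]
      apply Real.rpow_le_rpow_of_exponent_le (by linarith)
      push_cast
      linarith
    refine h1.trans ?_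
    exact le_mul_of_one_le_left (by positivity) (by linarith)
  obtain ⟨V, hV⟩ := hset x H (hC0C.trans hH) hHx (by rw [← hΛ]; exact hcond0)
  obtain ⟨b1, b2, b3, b4, b5, b6, b7, b8, b9⟩ := hB B hC1B
  obtain ⟨y, hy⟩ : ∃ y, y = yy A' B := ⟨_, rfl⟩
  obtain ⟨Y, hY⟩ : ∃ Y, Y = ⌈B ^ ((2 : ℝ) + 1)⌉₊ := ⟨_, rfl⟩
  rw [← hy] at b1 b2 b3 b4 b5 b9
  rw [← hY] at b2 b7
  obtain ⟨J, hJ1, hJ2⟩ := block_split b1 b2
  have hy3 : (3 : ℝ) ≤ y := by exact_mod_cast b1
  have hB1 : 1 ≤ B := hC1.trans hC1B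
  have hB0 : 0 < B := by linarith
  have hY0 : (0 : ℝ) < Y := by
    have : 0 < Y := by omega
    exact_mod_cast this
  have hl2 : 0 < Real.log 2 := Real.log_pos (by norm_num)
  -- the blocks
  have hblock : ∀ j ∈ range J, 3 ≤ y * 2 ^ j ∧ B ^ A' / 2 ≤ ((y * 2 ^ j : ℕ) : ℝ) ∧
      ((y * 2 ^ j : ℕ) : ℝ) ≤ Y := by
    intro j hj
    rw [mem_range] at hj
    have h1 : y ≤ y * 2 ^ j := Nat.le_mul_of_pos_right _ (by positivity)
    have h2 : y * 2 ^ j ≤ y * 2 ^ J :=
      Nat.mul_le_mul_left _ (Nat.pow_le_pow_right (by norm_num) hj.le)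
    refine ⟨b1.trans h1, ?_, by exact_mod_cast h2.trans hJ1⟩
    refine b9.trans ?_
    exact_mod_cast h1
  have hJB : (J : ℝ) ≤ B := by
    have h1 : 2 ^ J ≤ Y := le_trans (Nat.le_mul_of_pos_left _ (by omega)) hJ1
    have h2 : Real.log ((2 ^ J : ℕ) : ℝ) ≤ Real.log Y := by
      apply Real.log_le_log (by positivity)
      exact_mod_cast h1
    push_cast at h2
    rw [Real.log_pow] at h2
    have h3 : (J : ℝ) * Real.log 2 ≤ B * Real.log 2 := h2.trans b7
    exact le_of_mul_le_mul_right h3 hl2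
  have hlog2 : Real.log 2 ≤ 1 := by
    have := Real.log_two_lt_d9
    linarith
  obtain ⟨Good, hGood⟩ : ∃ Good : ℝ → Prop, Good = fun t => ‖V t‖ ≤ 2 * η ∧
    ∀ j ∈ range J, ‖DD (y * 2 ^ j) t‖ ≤ 2 / Real.log ((y * 2 ^ j : ℕ) : ℝ) ^ 2 := ⟨_, rfl⟩
  -- counting
  have hcount : ∀ T : Finset ℝ, (∀ t ∈ T, t ∈ {t | (x ≤ t ∧ t ≤ x + H) ∧ ¬ Good t}) →
      (∀ t ∈ T, ∀ t' ∈ T, t ≠ t' → C0 ≤ |t - t'|) → T.card ≤ ⌊H ^ (1 / A + ε)⌋₊ := by
    intro T hT1 hT2
    classical
    have hcov : T ⊆ T.filter (fun t => 2 * η ≤ ‖V t‖) ∪ (range J).biUnion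
        (fun j => T.filter (fun t => 2 / Real.log ((y * 2 ^ j : ℕ) : ℝ) ^ 2 ≤
          ‖DD (y * 2 ^ j) t‖)) := by
      intro t ht
      have h1 := (hT1 t ht).2
      rw [hGood, not_and_or] at h1
      rw [mem_union, mem_filter, mem_biUnion]
      rcases h1 with h1 | h1
      · left
        push Not at h1
        exact ⟨ht, h1.le⟩
      · right
        push Not at h1
        obtain ⟨j, hj1, hj2⟩ := h1
        exact ⟨j, hj1, by rw [mem_filter]; exact ⟨ht, hj2.le⟩⟩
    have hc1 : ((T.filter (fun t => 2 * η ≤ ‖V t‖)).card : ℝ) ≤ 1 / η ^ 2 * B := by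
      have h1 := hV.count hη0 hη1 (T := T.filter (fun t => 2 * η ≤ ‖V t‖))
        (fun t ht => (hT1 t (mem_filter.1 ht).1).1)
        (fun t ht t' ht' hne => hT2 t (mem_filter.1 ht).1 t' (mem_filter.1 ht').1 hne)
        (fun t ht => (mem_filter.1 ht).2)
      rw [← hΛ] at h1
      exact h1.trans (mul_le_mul_of_nonneg_left hΛB (by positivity))
    have hc2 : ∀ j ∈ range J, ((T.filter (fun t => 2 / Real.log ((y * 2 ^ j : ℕ) : ℝ) ^ 2 ≤
        ‖DD (y * 2 ^ j) t‖)).card : ℝ) ≤ 26 * B ^ 65 * Real.exp ((1 / A' + ε / 3) * B) := by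
      intro j hj
      obtain ⟨hP1, hP2, hP3⟩ := hblock j hj
      obtain ⟨P, hP⟩ : ∃ P, P = y * 2 ^ j := ⟨_, rfl⟩
      rw [← hP] at hP1 hP2 hP3 ⊢
      have hP3' : (3 : ℝ) ≤ P := by exact_mod_cast hP1
      have h1 := block_count hP1 ⌈B / Real.log P⌉₊ (T := T.filter (fun t =>
        2 / Real.log (P : ℝ) ^ 2 ≤ ‖DD P t‖)) (x := x) (H := H) hH0.le
        (fun t ht => (hT1 t (mem_filter.1 ht).1).1)
        (fun t ht t' ht' hne => le_trans (by linarith)
          (hT2 t (mem_filter.1 ht).1 t' (mem_filter.1 ht').1 hne))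
        (fun t ht => (mem_filter.1 ht).2)
      have hlPB : Real.log P ≤ B := by
        have h2 : Real.log P ≤ Real.log Y := Real.log_le_log (by linarith) hP3
        have h3 : B * Real.log 2 ≤ B * 1 := mul_le_mul_of_nonneg_left hlog2 hB0.le
        linarith
      have hPexp : (P : ℝ) ≤ Real.exp (B ^ 12) := by
        rw [← Real.log_le_iff_le_exp (by linarith)]
        refine hlPB.trans ?_
        calc B = B ^ 1 := (pow_one B).symm
          _ ≤ B ^ 12 := pow_le_pow_right₀ hB1 (by norm_num)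
      have h4 := b6 P hP2 hPexp (H + 1) (by linarith) (by rw [hBH]; linarith)
      have hlP0 : 0 ≤ Real.log P := Real.log_nonneg (by linarith)
      calc ((T.filter (fun t => 2 / Real.log (P : ℝ) ^ 2 ≤ ‖DD P t‖)).card : ℝ) ≤ _ := h1
        _ ≤ 26 * Real.log P ^ 2 * (B ^ 63 * Real.exp ((1 / A' + ε / 3) * B)) :=
            mul_le_mul_of_nonneg_left h4 (by positivity)
        _ ≤ 26 * B ^ 2 * (B ^ 63 * Real.exp ((1 / A' + ε / 3) * B)) := by
            apply mul_le_mul_of_nonneg_right _ (by positivity)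
            apply mul_le_mul_of_nonneg_left _ (by norm_num)
            exact pow_le_pow_left₀ hlP0 hlPB 2
        _ = 26 * B ^ 65 * Real.exp ((1 / A' + ε / 3) * B) := by ring
    have hc3 : (T.card : ℝ) ≤ 1 / η ^ 2 * B +
        26 * B ^ 66 * Real.exp ((1 / A' + ε / 3) * B) := by
      have h1 := (card_le_card hcov).trans (card_union_le _ _)
      have h2 := h1.trans (Nat.add_le_add_left (card_biUnion_le) _)
      have h3 : (T.card : ℝ) ≤ ((T.filter (fun t => 2 * η ≤ ‖V t‖)).card : ℝ) +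
          ∑ j ∈ range J, ((T.filter (fun t => 2 / Real.log ((y * 2 ^ j : ℕ) : ℝ) ^ 2 ≤
            ‖DD (y * 2 ^ j) t‖)).card : ℝ) := by exact_mod_cast h2
      refine h3.trans ?_
      have h4 := sum_le_sum hc2
      rw [sum_const, card_range, nsmul_eq_mul] at h4
      have h5 : (J : ℝ) * (26 * B ^ 65 * Real.exp ((1 / A' + ε / 3) * B)) ≤
          B * (26 * B ^ 65 * Real.exp ((1 / A' + ε / 3) * B)) :=
        mul_le_mul_of_nonneg_right hJB (by positivity)
      have h6 : B * (26 * B ^ 65 * Real.exp ((1 / A' + ε / 3) * B)) =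
          26 * B ^ 66 * Real.exp ((1 / A' + ε / 3) * B) := by ring
      linarith
    apply Nat.le_floor
    refine hc3.trans (b8.trans (le_of_eq ?_))
    rw [Real.rpow_def_of_pos hH0, ← hBdef]
    congr 1
    ring
  obtain ⟨S, h1, h2, h3⟩ := exists_maximal_sep {t | (x ≤ t ∧ t ≤ x + H) ∧ ¬ Good t}
    (C := C0) (by linarith) ⌊H ^ (1 / A + ε)⌋₊ hcount
  refine ⟨S, fun s hs => (h1 s hs).1, le_trans (by exact_mod_cast h2)
    (Nat.floor_le (by positivity)), ?_⟩
  intro t ht1 ht2 ht3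
  have hgood : Good t := by
    by_contra hcon
    obtain ⟨s, hs1, hs2⟩ := h3 t ⟨⟨ht1, ht2⟩, hcon⟩
    have := ht3 s hs1
    linarith
  rw [hGood] at hgood
  obtain ⟨hg1, hg2⟩ := hgood
  obtain ⟨v, hv1, hv2⟩ := hV.zeta t ht1 ht2
  rw [← hBdef, ← hY] at hv2
  have hsum : ∑ j ∈ range J, ‖DD (y * 2 ^ j) t‖ ≤
      2 / (Real.log 2 * (Real.log y - Real.log 2)) := by
    have hly2 : Real.log 2 < Real.log y := Real.log_lt_log (by norm_num) (by linarith)
    have h4 : ∀ j ∈ range J, ‖DD (y * 2 ^ j) t‖ ≤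
        2 * (1 / (Real.log y + j * Real.log 2) ^ 2) := by
      intro j hj
      refine (hg2 j hj).trans (le_of_eq ?_)
      push_cast
      rw [Real.log_mul (by linarith) (by positivity), Real.log_pow]
      ring
    refine (sum_le_sum h4).trans ?_
    rw [← mul_sum]
    have h5 := sum_delta hl2 hly2 J
    calc 2 * ∑ j ∈ range J, 1 / (Real.log y + j * Real.log 2) ^ 2 ≤
        2 * (1 / (Real.log 2 * (Real.log y - Real.log 2))) :=
          mul_le_mul_of_nonneg_left h5 (by norm_num)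
      _ = 2 / (Real.log 2 * (Real.log y - Real.log 2)) := by ring
  have hdiff : ‖SY Y (1 + t * Complex.I) - SY y (1 + t * Complex.I)‖ ≤ η := by
    refine (hJ2 t).trans ?_
    linarith
  obtain ⟨Z, hZ⟩ : ∃ Z : ℂ, Z = (SY Y (1 + t * Complex.I) - SY y (1 + t * Complex.I)) +
    V t + v := ⟨_, rfl⟩
  have hZn : ‖Z‖ ≤ 4 * η := by
    rw [hZ]
    have t1 := norm_add_le ((SY Y (1 + t * Complex.I) - SY y (1 + t * Complex.I)) + V t) v
    have t2 := norm_add_le (SY Y (1 + t * Complex.I) - SY y (1 + t * Complex.I)) (V t)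
    linarith
  have hZre := abs_le.1 ((Complex.abs_re_le_norm Z).trans hZn)
  have hzeta : riemannZeta (1 + t * Complex.I) = Complex.exp (SY y (1 + t * Complex.I) + Z) := by
    rw [hv2, hZ]
    congr 1
    ring
  have hnorm : ‖riemannZeta (1 + t * Complex.I)‖ =
      Real.exp ((SY y (1 + t * Complex.I)).re + Z.re) := by
    rw [hzeta, Complex.norm_exp, Complex.add_re]
  have hb := SY_bounds y (hsre t).ge
  have hly : Real.log y ≤ A' * Real.log B := by
    rw [hy]
    exact log_yy_le hB0 (by rw [← hy]; omega)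
  have hl0 : 0 < Real.log B := by rw [hBdef]; exact Real.log_pos hlogH
  have hfac : ∀ a : ℝ, 0 < a → (a + η) * A' * Real.exp (4 * η) ≤ A * a →
      (a + η) * Real.log y * Real.exp (4 * η) ≤ A * a * Real.log B := by
    intro a ha h
    calc (a + η) * Real.log y * Real.exp (4 * η) ≤
        (a + η) * (A' * Real.log B) * Real.exp (4 * η) := by
          apply mul_le_mul_of_nonneg_right _ (Real.exp_pos _).le
          exact mul_le_mul_of_nonneg_left hly (by positivity)
      _ = (a + η) * A' * Real.exp (4 * η) * Real.log B := by ring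
      _ ≤ A * a * Real.log B := mul_le_mul_of_nonneg_right h hl0.le
  rw [← hBdef]
  constructor
  · rw [hnorm, Real.exp_add]
    calc Real.exp (SY y (1 + t * Complex.I)).re * Real.exp Z.re ≤
        (Real.exp Real.eulerMascheroniConstant + η) * Real.log y * Real.exp (4 * η) := by
          apply mul_le_mul (hb.1.trans b3) (Real.exp_le_exp.2 hZre.2) (Real.exp_pos _).le
          have : 0 ≤ Real.log y := Real.log_nonneg (by linarith)
          positivity
      _ ≤ A * Real.exp Real.eulerMascheroniConstant * Real.log B :=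
          hfac _ (Real.exp_pos _) hea
  · rw [hnorm, ← Real.exp_neg]
    have h4 : -((SY y (1 + t * Complex.I)).re + Z.re) =
        -(SY y (1 + t * Complex.I)).re + -Z.re := by ring
    rw [h4, Real.exp_add]
    calc Real.exp (-(SY y (1 + t * Complex.I)).re) * Real.exp (-Z.re) ≤
        (6 / Real.pi ^ 2 * Real.exp Real.eulerMascheroniConstant + η) * Real.log y *
          Real.exp (4 * η) := by
          apply mul_le_mul (hb.2.trans b4) (Real.exp_le_exp.2 (by linarith [hZre.1]))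
            (Real.exp_pos _).le
          have : 0 ≤ Real.log y := Real.log_nonneg (by linarith)
          positivity
      _ ≤ A * (6 / Real.pi ^ 2 * Real.exp Real.eulerMascheroniConstant) * Real.log B :=
          hfac _ (by positivity) heb
      _ = _ := by ring

end Pool.Agent.H.MP_2e4794_nt.RL
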