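import Pool.Agent.H.MP_2e4794_nt.RL.PS
import Pool.Agent.H.MP_2e4794_nt.RL.LZ

/-!
# Sums of Euler factors over primes
-/

namespace Pool.Agent.H.MP_2e4794_nt.RL

open Finset Filter Topology
open Pool.Agent.H.MP_2e4794_nt.ZM (prs mem_prs RR RR_le prm_eq_prs)

lemma down_sum' {y : ℕ} (hy : 16 ≤ y) {c : ℝ} (hc : 0 < c) (hc1 : c ≤ 1)
    (hcy : 1 ≤ c ^ 2 * Real.log y) :
    ∑ p ∈ prs 0 y, (p : ℝ) ^ (-(1 - c)) ≤ 512 * (y : ℝ) ^ c / (c * Real.log y) := by
  have hy1 : (16 : ℝ) ≤ y := by exact_mod_cast hy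
  obtain ⟨v, hv⟩ : ∃ v, v = Nat.sqrt y := ⟨_, rfl⟩
  have hv4 : 4 ≤ v := by
    rw [hv, Nat.le_sqrt]
    omega
  have hvy : v * v ≤ y := by
    rw [hv]
    exact Nat.sqrt_le y
  have hvy2 : y < (v + 1) * (v + 1) := by
    rw [hv]
    exact Nat.lt_succ_sqrt y
  have hvley : v ≤ y := by nlinarith
  have hv1 : (4 : ℝ) ≤ v := by exact_mod_cast hv4
  have hvy' : (v : ℝ) * v ≤ y := by exact_mod_cast hvy
  have hvy2' : (y : ℝ) < (v + 1) * (v + 1) := by exact_mod_cast hvy2
  have hlv : 0 < Real.log v := Real.log_pos (by linarith)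
  set L := Real.log y with hL
  have hL1 : 1 ≤ L := by
    rw [hL, Real.le_log_iff_exp_le (by linarith)]
    have := Real.exp_one_lt_d9
    linarith
  have hL4 : L ≤ 4 * Real.log v := by
    have h1 : (y : ℝ) ≤ v ^ 4 := by
      have : (v : ℝ) + 1 ≤ v ^ 2 := by nlinarith
      nlinarith
    have h2 := Real.log_le_log (by linarith) h1
    rw [Real.log_pow] at h2
    exact_mod_cast h2
  -- the primes above `v`
  obtain ⟨J, hJ1, hJ2⟩ : ∃ J, y ≤ v * 2 ^ J ∧ v * 2 ^ J ≤ 2 * y := by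
    have hex : ∃ J, y ≤ v * 2 ^ J := ⟨y, by
      calc y ≤ 2 ^ y := Nat.lt_two_pow_self.le
        _ ≤ v * 2 ^ y := Nat.le_mul_of_pos_left _ (by omega)⟩
    classical
    refine ⟨Nat.find hex, Nat.find_spec hex, ?_⟩
    rcases h : Nat.find hex with _ | k
    · simp only [pow_zero, mul_one]
      omega
    · have h3 := Nat.find_min hex (m := k) (by omega)
      push Not at h3
      rw [pow_succ, ← mul_assoc]
      omega
  have hA : ∑ p ∈ prs v y, (p : ℝ) ^ (-(1 - c)) ≤ 416 * (y : ℝ) ^ c / (c * L) := by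
    have h1 : ∑ p ∈ prs v y, (p : ℝ) ^ (-(1 - c)) ≤
        ∑ p ∈ prs v (v * 2 ^ J), (p : ℝ) ^ (-(1 - c)) := by
      apply sum_le_sum_of_subset_of_nonneg
      · intro p hp
        rw [mem_prs] at hp ⊢
        exact ⟨⟨hp.1.1, hp.1.2.trans hJ1⟩, hp.2⟩
      · intro p _ _
        positivity
    refine h1.trans ((down_sum (by omega) hc hc1 J).trans ?_)
    have h2 : 13 / Real.log v ≤ 52 / L := by
      rw [div_le_div_iff₀ hlv (by linarith)]
      linarith
    have h3 : ((v * 2 ^ J : ℕ) : ℝ) ^ c ≤ 2 * (y : ℝ) ^ c := by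
      calc ((v * 2 ^ J : ℕ) : ℝ) ^ c ≤ (2 * (y : ℝ)) ^ c := by
            apply Real.rpow_le_rpow (by positivity) _ hc.le
            exact_mod_cast hJ2
        _ = 2 ^ c * (y : ℝ) ^ c := Real.mul_rpow (by norm_num) (by positivity)
        _ ≤ 2 * (y : ℝ) ^ c := by
            apply mul_le_mul_of_nonneg_right _ (by positivity)
            calc (2 : ℝ) ^ c ≤ 2 ^ (1 : ℝ) :=
                  Real.rpow_le_rpow_of_exponent_le (by norm_num) hc1
              _ = 2 := Real.rpow_one 2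
    calc 13 / Real.log v * (((v * 2 ^ J : ℕ) : ℝ) ^ c * (4 / c)) ≤
        52 / L * (2 * (y : ℝ) ^ c * (4 / c)) := by gcongr
      _ = 416 * (y : ℝ) ^ c / (c * L) := by
          field_simp
          ring
  -- the primes up to `v`
  have hB : ∑ p ∈ prs 0 v, (p : ℝ) ^ (-(1 - c)) ≤ 96 * (y : ℝ) ^ c / (c * L) := by
    have h1 : ∑ p ∈ prs 0 v, (p : ℝ) ^ (-(1 - c)) ≤ (v : ℝ) ^ c * (1 + Real.log v) := by
      calc ∑ p ∈ prs 0 v, (p : ℝ) ^ (-(1 - c)) ≤ ∑ p ∈ prs 0 v, (v : ℝ) ^ c * (1 / (p : ℝ)) := by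
            apply sum_le_sum
            intro p hp
            rw [mem_prs] at hp
            have hp2 : (2 : ℝ) ≤ p := by exact_mod_cast hp.2.two_le
            have h8 : (p : ℝ) ^ (-(1 - c)) = (p : ℝ) ^ c * (1 / (p : ℝ)) := by
              have : -(1 - c) = c + -1 := by ring
              rw [this, Real.rpow_add (by linarith), Real.rpow_neg_one, one_div]
            rw [h8]
            apply mul_le_mul_of_nonneg_right _ (by positivity)
            apply Real.rpow_le_rpow (by linarith) _ hc.le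
            exact_mod_cast hp.1.2
        _ = (v : ℝ) ^ c * RR v := by
            unfold RR Pool.MP42e49e.FF
            rw [prm_eq_prs, mul_sum]
        _ ≤ (v : ℝ) ^ c * (1 + Real.log v) := by
            apply mul_le_mul_of_nonneg_left (RR_le v) (by positivity)
    refine h1.trans ?_
    have h2 : Real.log v ≤ L := Real.log_le_log (by linarith) (by exact_mod_cast hvley)
    have h3 : (v : ℝ) ^ c ≤ Real.exp (c * L / 2) := by
      rw [Real.rpow_def_of_pos (by linarith)]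
      apply Real.exp_le_exp.2
      have h4 := Real.log_le_log (by positivity) hvy'
      rw [Real.log_mul (by linarith) (by linarith)] at h4
      nlinarith
    have h4 : (y : ℝ) ^ c = Real.exp (c * L / 2) * Real.exp (c * L / 2) := by
      rw [Real.rpow_def_of_pos (by linarith), ← Real.exp_add]
      congr 1
      ring
    have hx : 0 < c * L := by positivity
    have h5 := Real.pow_div_factorial_le_exp (c * L / 2) (by positivity) 3
    have h6 : (c * L) ^ 3 ≤ 48 * Real.exp (c * L / 2) := by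
      have : (c * L / 2) ^ 3 / (Nat.factorial 3 : ℝ) = (c * L) ^ 3 / 48 := by
        simp only [Nat.factorial]
        push_cast
        ring
      rw [this] at h5
      linarith
    have h7 : L ≤ (c * L) ^ 2 := by
      have : (c * L) ^ 2 = (c ^ 2 * L) * L := by ring
      rw [this]
      nlinarith
    have h8 : (1 + L) * (c * L) ≤ 96 * Real.exp (c * L / 2) := by
      calc (1 + L) * (c * L) ≤ (2 * (c * L) ^ 2) * (c * L) := by
            apply mul_le_mul_of_nonneg_right _ hx.le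
            linarith
        _ = 2 * (c * L) ^ 3 := by ring
        _ ≤ 96 * Real.exp (c * L / 2) := by linarith
    calc (v : ℝ) ^ c * (1 + Real.log v) ≤ Real.exp (c * L / 2) * (1 + L) := by gcongr
      _ ≤ 96 * (y : ℝ) ^ c / (c * L) := by
          rw [le_div_iff₀ hx, h4]
          have := Real.exp_pos (c * L / 2)
          nlinarith
  rw [sum_prs_add _ (Nat.zero_le v) hvley]
  refine (add_le_add hB hA).trans (le_of_eq ?_)
  ring

/-- the Euler product truncated, its logarithm -/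
noncomputable def SY (y : ℕ) (z : ℂ) : ℂ := ∑ p ∈ prs 0 y, ll p z

lemma diff_SY (y : ℕ) {z : ℂ} (hz : 0 < z.re) : DifferentiableAt ℂ (SY y) z := by
  unfold SY
  have h1 : ∀ p ∈ prs 0 y, DifferentiableAt ℂ (ll p) z := by
    intro p hp
    rw [mem_prs] at hp
    exact continuousAt_ll hp.2.two_le hz
  have := DifferentiableAt.fun_sum h1
  exact this

lemma norm_ll_le' {p : ℕ} (hp : 2 ≤ p) {z : ℂ} (hz : 1 / 2 ≤ z.re) :
    ‖ll p z‖ ≤ 3 * (p : ℝ) ^ (-z.re) := by
  unfold ll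
  rw [norm_neg, sub_eq_add_neg]
  have hp1 : (2 : ℝ) ≤ p := by exact_mod_cast hp
  have h1 : ‖-((p : ℂ) ^ (-z))‖ ≤ 3 / 4 := by
    rw [norm_neg, norm_pcpow hp]
    calc (p : ℝ) ^ (-z.re) ≤ (2 : ℝ) ^ (-z.re) := by
          apply Real.rpow_le_rpow_of_nonpos (by norm_num) hp1
          linarith
      _ ≤ (2 : ℝ) ^ (-(1 / 2) : ℝ) := by
          apply Real.rpow_le_rpow_of_exponent_le (by norm_num)
          linarith
      _ ≤ 3 / 4 := by
          rw [Real.rpow_neg (by norm_num), ← Real.sqrt_eq_rpow]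
          rw [inv_le_comm₀ (by positivity) (by norm_num)]
          apply Real.le_sqrt_of_sq_le
          norm_num
  have h2 := Complex.norm_log_one_add_le (z := -((p : ℂ) ^ (-z))) (by linarith)
  have h3 : ‖-((p : ℂ) ^ (-z))‖ = (p : ℝ) ^ (-z.re) := by rw [norm_neg, norm_pcpow hp]
  set q := ‖-((p : ℂ) ^ (-z))‖ with hq
  rw [← h3]
  refine h2.trans ?_
  have h4 : (1 - q)⁻¹ ≤ 4 := by
    rw [inv_le_comm₀ (by linarith) (by norm_num)]
    linarith
  have h5 : 0 ≤ q := norm_nonneg _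
  have h6 : 0 ≤ (1 - q)⁻¹ := by
    apply inv_nonneg.2
    linarith
  have h7 : q ^ 2 * (1 - q)⁻¹ ≤ q ^ 2 * 4 := mul_le_mul_of_nonneg_left h4 (by positivity)
  nlinarith

lemma tendsto_SY {z : ℂ} (hz : 1 < z.re) : Tendsto (fun y : ℕ => SY y z) atTop (𝓝 (PP z)) := by
  have h0 : Summable fun p : Nat.Primes => ll p z := by
    apply Summable.of_norm_bounded (summable_primes hz)
    intro p
    exact ll_le_of_le hz.le p le_rfl
  have h1 : Summable ({p : ℕ | p.Prime}.indicator fun n : ℕ => ll n z) := by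
    rw [← summable_subtype_iff_indicator]
    exact h0
  have h2 : ∑' n : ℕ, ({p : ℕ | p.Prime}.indicator fun n : ℕ => ll n z) n = PP z :=
    (_root_.tsum_subtype {p : ℕ | p.Prime} (fun n : ℕ => ll n z)).symm
  have h3 := (h1.hasSum.tendsto_sum_nat).comp (tendsto_add_atTop_nat 1)
  rw [h2] at h3
  refine h3.congr fun y => ?_
  simp only [Function.comp]
  unfold SY
  rw [← Finset.sum_subset (s₁ := prs 0 y)]
  · apply sum_congr rfl
    intro p hp
    rw [mem_prs] at hp
    rw [Set.indicator_of_mem (by exact hp.2)]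
  · intro p hp
    rw [mem_prs] at hp
    rw [mem_range]
    omega
  · intro n hn hn'
    rw [mem_range] at hn
    rw [Set.indicator_of_notMem]
    intro hp
    apply hn'
    have hp' : n.Prime := hp
    rw [mem_prs]
    exact ⟨⟨hp'.pos, by omega⟩, hp'⟩

/-- the tail of the Euler product -/
lemma tail_PP {y : ℕ} (hy : 2 ≤ y) {c : ℝ} (hc : 0 < c) (hc1 : c ≤ 1) {z : ℂ}
    (hz : z.re = 1 + c) : ‖PP z - SY y z‖ ≤ 78 * (y : ℝ) ^ (-c) / (c * Real.log y) := by
  have h1 : Tendsto (fun M : ℕ => ‖SY M z - SY y z‖) atTop (𝓝 ‖PP z - SY y z‖) :=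
    ((tendsto_SY (by linarith)).sub_const _).norm
  apply le_of_tendsto h1
  filter_upwards [eventually_ge_atTop y] with M hM
  have h2 : SY M z - SY y z = ∑ p ∈ prs y M, ll p z := by
    unfold SY
    rw [sum_prs_add _ (Nat.zero_le y) hM]
    ring
  rw [h2]
  have h3 : ‖∑ p ∈ prs y M, ll p z‖ ≤ ∑ p ∈ prs y M, 3 / 2 * (p : ℝ) ^ (-(1 + c)) := by
    apply norm_sum_le_of_le
    intro p hp
    rw [mem_prs] at hp
    rw [← hz]
    exact norm_ll_le hp.2.two_le (by linarith)
  rw [← mul_sum] at h3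
  have h4 := up_sum' hy hc hc1 M
  refine h3.trans ?_
  have h5 : 3 / 2 * (52 * (y : ℝ) ^ (-c) / (c * Real.log y)) =
      78 * (y : ℝ) ^ (-c) / (c * Real.log y) := by ring
  rw [← h5]
  exact mul_le_mul_of_nonneg_left h4 (by norm_num)

/-- the truncated product to the left of `1` -/
lemma SY_left {y : ℕ} (hy : 16 ≤ y) {c : ℝ} (hc : 0 < c) (hc1 : c ≤ 1 / 2)
    (hcy : 1 ≤ c ^ 2 * Real.log y) {z : ℂ} (hz : z.re = 1 - c) :
    ‖SY y z‖ ≤ 1536 * (y : ℝ) ^ c / (c * Real.log y) := by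
  unfold SY
  have h3 : ‖∑ p ∈ prs 0 y, ll p z‖ ≤ ∑ p ∈ prs 0 y, 3 * (p : ℝ) ^ (-(1 - c)) := by
    apply norm_sum_le_of_le
    intro p hp
    rw [mem_prs] at hp
    rw [← hz]
    exact norm_ll_le' hp.2.two_le (by linarith)
  rw [← mul_sum] at h3
  have h4 := down_sum' hy hc (by linarith) hcy
  refine h3.trans ?_
  have h5 : 3 * (512 * (y : ℝ) ^ c / (c * Real.log y)) =
      1536 * (y : ℝ) ^ c / (c * Real.log y) := by ring
  rw [← h5]
  exact mul_le_mul_of_nonneg_left h4 (by norm_num)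

/-- a trivial bound -/
lemma SY_triv (y : ℕ) {z : ℂ} (hz : 1 / 2 ≤ z.re) : ‖SY y z‖ ≤ 3 * y := by
  unfold SY
  have h3 : ‖∑ p ∈ prs 0 y, ll p z‖ ≤ ∑ p ∈ prs 0 y, (3 : ℝ) := by
    apply norm_sum_le_of_le
    intro p hp
    rw [mem_prs] at hp
    refine (norm_ll_le' hp.2.two_le hz).trans ?_
    have h2 : (2 : ℝ) ≤ p := by exact_mod_cast hp.2.two_le
    have : (p : ℝ) ^ (-z.re) ≤ 1 := by
      apply Real.rpow_le_one_of_one_le_of_nonpos (by linarith)
      linarith
    linarith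
  refine h3.trans ?_
  rw [sum_const, nsmul_eq_mul, mul_comm]
  apply mul_le_mul_of_nonneg_left _ (by norm_num)
  have : (prs 0 y).card ≤ (Ioc 0 y).card := card_le_card (filter_subset _ _)
  rw [Nat.card_Ioc, Nat.sub_zero] at this
  exact_mod_cast this

end Pool.Agent.H.MP_2e4794_nt.RL
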