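import Pool.Agent.H.MP_2e4794_nt.RL.RE
import Pool.Agent.H.MP_2e4794_nt.RL.PT

/-!
# The zeta function on the line `Re s = 1` and short Euler products, under RH
-/

namespace Pool.Agent.H.MP_2e4794_nt.RL

open Filter Topology MeasureTheory Complex

/-- the kernel -/
noncomputable def EE (L B : ℝ) (w : ℂ) : ℂ := exp (w * L + B * w ^ 2)

lemma norm_EE (L B : ℝ) (w : ℂ) :
    ‖EE L B w‖ = Real.exp (w.re * L + B * (w.re ^ 2 - w.im ^ 2)) := by
  unfold EE
  rw [Complex.norm_exp]
  congr 1
  simp only [add_re, mul_re, ofReal_re, ofReal_im, mul_zero, sub_zero, sq]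
  ring

lemma diff_EE (L B : ℝ) (w : ℂ) : DifferentiableAt ℂ (EE L B) w := by
  unfold EE
  fun_prop

lemma EE_zero (L B : ℝ) : EE L B 0 = 1 := by
  unfold EE
  simp

lemma exp_neg_le_inv {x : ℝ} (hx : 0 < x) : Real.exp (-x) ≤ 1 / x := by
  rw [Real.exp_neg, one_div]
  apply inv_anti₀ hx
  have := Real.add_one_le_exp x
  linarith

/-- `g` is a logarithm of the zeta function near `1 + iu` -/
def IsLog (δ K u : ℝ) (g : ℂ → ℂ) : Prop :=
  ∀ z : ℂ, 1 / 2 + δ / 24 ≤ z.re → z.re ≤ 2 → |z.im - u| ≤ Real.sqrt (4 * (12 / δ) + 1) →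
    DifferentiableAt ℂ g z ∧ exp (g z) = riemannZeta z ∧ ‖g z‖ ≤ K * Real.log u ∧
      (1 < z.re → g z = PP z)

/-- **Short Euler products, under RH.** -/
theorem sharp_lemma {δ : ℝ} (hδ : 0 < δ) (hδ1 : δ ≤ 1) {K0 : ℝ} (hK : 0 < K0) :
    ∃ K : ℝ, ∃ Y0 : ℕ, 0 < K ∧ ∀ u : ℝ, 3 ≤ u → ∀ g : ℂ → ℂ, IsLog δ K0 u g →
      ∀ y : ℕ, Y0 ≤ y → Real.log u ^ (2 + δ) ≤ y →
      ‖g (1 + u * I) - SY y (1 + u * I)‖ ≤ K / Real.sqrt (Real.log y) := by
  obtain ⟨M, hM⟩ : ∃ M, M = 12 / δ := ⟨_, rfl⟩
  obtain ⟨κ, hκ⟩ : ∃ κ, κ = δ / 24 := ⟨_, rfl⟩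
  obtain ⟨V, hV⟩ : ∃ V, V = Real.sqrt (4 * M + 1) := ⟨_, rfl⟩
  have hM12 : 12 ≤ M := by
    rw [hM, le_div_iff₀ hδ]
    linarith
  have hMδ : M * δ = 12 := by
    rw [hM]
    field_simp
  have hκ0 : 0 < κ := by rw [hκ]; linarith
  have hκ1 : κ ≤ 1 / 24 := by rw [hκ]; linarith
  have hV2 : V ^ 2 = 4 * M + 1 := by
    rw [hV]
    exact Real.sq_sqrt (by linarith)
  have hV1 : 1 ≤ V := by
    rw [hV]
    apply Real.le_sqrt_of_sq_le
    linarith
  have hY0 : ∀ᶠ y : ℕ in atTop, 4 * M ≤ Real.log y :=
    (Real.tendsto_log_atTop.comp tendsto_natCast_atTop_atTop).eventually_ge_atTop _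
  obtain ⟨Y1, hY1⟩ := eventually_atTop.1 hY0
  obtain ⟨K, hKK⟩ : ∃ K, K = K0 := ⟨_, rfl⟩
  rw [← hKK] at hK
  refine ⟨2 * K + 12 + 10000 + 80 * V * K / δ, max Y1 16, by positivity, ?_⟩
  intro u hu g hg
  unfold IsLog at hg
  rw [← hM, ← hκ, ← hV, ← hKK] at hg
  have hlu : 0 < Real.log u := Real.log_pos (by linarith)
  intro y hy hyu
  have hy16 : 16 ≤ y := (le_max_right _ _).trans hy
  have hy16' : (16 : ℝ) ≤ y := by exact_mod_cast hy16
  obtain ⟨L, hL⟩ : ∃ L, L = Real.log y := ⟨_, rfl⟩
  have hL4 : 4 * M ≤ L := by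
    rw [hL]
    exact hY1 y ((le_max_left _ _).trans hy)
  have hL0 : 0 < L := by linarith
  have hyL : (y : ℝ) = Real.exp L := by rw [hL, Real.exp_log (by linarith)]
  have hypow : ∀ r : ℝ, (y : ℝ) ^ r = Real.exp (L * r) := by
    intro r
    rw [hyL, ← Real.exp_mul]
  obtain ⟨c, hc⟩ : ∃ c, c = Real.sqrt (M / L) := ⟨_, rfl⟩
  have hc2 : c ^ 2 = M / L := by
    rw [hc]
    exact Real.sq_sqrt (by positivity)
  have hc2L : c ^ 2 * L = M := by
    rw [hc2]
    field_simp
  have hc0 : 0 < c := by
    rw [hc]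
    positivity
  have hc1 : c ≤ 1 / 2 := by
    apply le_of_sq_le_sq _ (by norm_num)
    rw [hc2, div_le_iff₀ hL0]
    linarith
  obtain ⟨B, hB⟩ : ∃ B, B = L / M := ⟨_, rfl⟩
  have hB0 : 0 < B := by
    rw [hB]
    positivity
  have hBc : B * c ^ 2 = 1 := by
    rw [hB, hc2]
    field_simp
  have hBM : B * M = L := by
    rw [hB]
    field_simp
  obtain ⟨a, ha⟩ : ∃ a, a = 1 / 2 - κ := ⟨_, rfl⟩
  have ha0 : 1 / 4 ≤ a := by rw [ha]; linarith
  have ha1 : a ≤ 1 / 2 := by rw [ha]; linarith
  obtain ⟨s0, hs0⟩ : ∃ s0 : ℂ, s0 = 1 + u * I := ⟨_, rfl⟩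
  have hs0re : s0.re = 1 := by rw [hs0]; simp
  have hs0im : s0.im = u := by rw [hs0]; simp
  -- bound for `log u`
  have hlogu : Real.log u ≤ Real.exp (L * (1 / 2 - δ / 6)) := by
    have h1 : (2 + δ) * Real.log (Real.log u) ≤ L := by
      rw [hL, ← Real.log_rpow hlu]
      exact Real.log_le_log (by positivity) hyu
    rw [← Real.log_le_iff_le_exp hlu]
    have h2 : 0 ≤ L - (2 + δ) * Real.log (Real.log u) := by linarith
    have h3 : 1 ≤ (2 + δ) * (1 / 2 - δ / 6) := by
      have h7 : 0 ≤ δ * (1 - δ) := mul_nonneg hδ.le (by linarith)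
      linarith
    have h4 : 0 < 2 + δ := by linarith
    have h5 : L ≤ (2 + δ) * (L * (1 / 2 - δ / 6)) := by
      have h7 := mul_le_mul_of_nonneg_left h3 hL0.le
      linarith
    have h6 : (2 + δ) * Real.log (Real.log u) ≤ (2 + δ) * (L * (1 / 2 - δ / 6)) := by linarith
    exact le_of_mul_le_mul_left h6 h4
  have hlogu2 : Real.log u ≤ Real.exp (L / 2) := by
    refine hlogu.trans (Real.exp_le_exp.2 ?_)
    have : 0 ≤ L * δ := by positivity
    linarith
  have hg' : ∀ w : ℂ, -a ≤ w.re → w.re ≤ c → |w.im| ≤ V →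
      DifferentiableAt ℂ g (s0 + w) ∧ exp (g (s0 + w)) = riemannZeta (s0 + w) ∧
      ‖g (s0 + w)‖ ≤ K * Real.log u ∧ (1 < (s0 + w).re → g (s0 + w) = PP (s0 + w)) := by
    intro w h1 h2 h3
    apply hg
    · rw [add_re, hs0re]
      linarith
    · rw [add_re, hs0re]
      linarith
    · rw [add_im, hs0im, add_sub_cancel_left]
      exact h3
  have hEhor : ∀ w : ℂ, -(1 / 2) ≤ w.re → w.re ≤ c → |w.im| = V →
      ‖EE L B w‖ ≤ Real.exp (-(3 / 2 * L)) := by
    intro w h1 h2 h3
    rw [norm_EE]
    apply Real.exp_le_exp.2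
    have h4 : w.im ^ 2 = 4 * M + 1 := by rw [← sq_abs, h3, hV2]
    rw [h4]
    have h5 : w.re ^ 2 ≤ (1 / 2) ^ 2 := sq_le_sq' h1 (h2.trans hc1)
    norm_num at h5
    have h6 : B * (w.re ^ 2 - (4 * M + 1)) ≤ B * (-2 * M) := by
      apply mul_le_mul_of_nonneg_left _ hB0.le
      linarith
    have h7 : w.re * L ≤ 1 / 2 * L := mul_le_mul_of_nonneg_right (by linarith) hL0.le
    have h8 : B * (-2 * M) = -2 * L := by
      rw [← hBM]
      ring
    linarith
  have key := rect_two (f := fun w => g (s0 + w) * EE L B w)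
    (h := fun w => SY y (s0 + w) * EE L B w) (a := a) (b := c) (c := c) (V := V) (B := B)
    (A1 := K * Real.log u * Real.exp (-(3 / 2 * L)))
    (A2 := K * Real.log u * Real.exp (-(a * L) + B * a ^ 2))
    (B1 := 3 * Real.exp L * Real.exp (-(3 / 2 * L)))
    (B2 := 1536 * Real.exp 1 / (c * L)) (C1 := 78 * Real.exp 1 / (c * L))
    (by linarith) hc0 hc0 hV1 hB0 (by positivity) (by positivity) (by positivity) (by positivity)
    (by positivity) ?_ ?_ ?_ ?_ ?_ ?_ ?_
  · simp only [add_zero, EE_zero, mul_one] at key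
    rw [← hs0, ← hL]
    have hsqL : 1 ≤ Real.sqrt L := by
      apply Real.le_sqrt_of_sq_le
      linarith
    have hsq : Real.sqrt L ^ 2 = L := Real.sq_sqrt hL0.le
    have hinvL : ∀ k : ℝ, 0 ≤ k → k / L ≤ k / Real.sqrt L := by
      intro k hk
      apply div_le_div_of_nonneg_left hk (by linarith)
      calc Real.sqrt L ≤ Real.sqrt L * Real.sqrt L := le_mul_of_one_le_left (by linarith) hsqL
        _ = L := by rw [← sq, hsq]
    have t1 : 2 * (K * Real.log u * Real.exp (-(3 / 2 * L))) * (a + c) ≤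
        2 * K / Real.sqrt L := by
      have h1 : Real.log u * Real.exp (-(3 / 2 * L)) ≤ 1 / L := by
        calc Real.log u * Real.exp (-(3 / 2 * L)) ≤ Real.exp (L / 2) * Real.exp (-(3 / 2 * L)) :=
              mul_le_mul_of_nonneg_right hlogu2 (Real.exp_pos _).le
          _ = Real.exp (-L) := by
              rw [← Real.exp_add]
              congr 1
              ring
          _ ≤ 1 / L := exp_neg_le_inv hL0
      calc 2 * (K * Real.log u * Real.exp (-(3 / 2 * L))) * (a + c) =
          2 * K * (a + c) * (Real.log u * Real.exp (-(3 / 2 * L))) := by ring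
        _ ≤ 2 * K * 1 * (1 / L) := by
            apply mul_le_mul _ h1 (by positivity) (by positivity)
            apply mul_le_mul_of_nonneg_left _ (by positivity)
            linarith
        _ = 2 * K / L := by ring
        _ ≤ 2 * K / Real.sqrt L := hinvL _ (by positivity)
    have t2 : 2 * (3 * Real.exp L * Real.exp (-(3 / 2 * L))) * (c + c) ≤
        12 / Real.sqrt L := by
      have h1 : Real.exp L * Real.exp (-(3 / 2 * L)) ≤ 2 / L := by
        have h2 := exp_neg_le_inv (x := L / 2) (by positivity)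
        rw [← Real.exp_add]
        have h3 : L + -(3 / 2 * L) = -(L / 2) := by ring
        rw [h3]
        refine h2.trans (le_of_eq ?_)
        field_simp
      calc 2 * (3 * Real.exp L * Real.exp (-(3 / 2 * L))) * (c + c) =
          6 * (c + c) * (Real.exp L * Real.exp (-(3 / 2 * L))) := by ring
        _ ≤ 6 * 1 * (2 / L) := by
            apply mul_le_mul _ h1 (by positivity) (by positivity)
            apply mul_le_mul_of_nonneg_left _ (by positivity)
            linarith
        _ = 12 / L := by ring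
        _ ≤ 12 / Real.sqrt L := hinvL _ (by positivity)
    have hgs : Real.sqrt (Real.pi / B) = Real.sqrt Real.pi * c := by
      rw [div_eq_mul_inv, Real.sqrt_mul Real.pi_pos.le]
      congr 1
      rw [hc, hB, inv_div]
    have hpi2 : Real.sqrt Real.pi ≤ 2 := by
      apply Real.sqrt_le_iff.2
      constructor
      · norm_num
      · have := Real.pi_le_four
        linarith
    have hcL : Real.sqrt L ≤ c * L := by
      have h1 : c * L = Real.sqrt M * Real.sqrt L := by
        rw [hc, Real.sqrt_div (by linarith)]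
        field_simp
        rw [hsq]
      rw [h1]
      have h2 : 1 ≤ Real.sqrt M := by
        apply Real.le_sqrt_of_sq_le
        linarith
      exact le_mul_of_one_le_left (by linarith) h2
    have he := Real.exp_one_lt_d9
    have t3 : ∀ k : ℝ, 0 ≤ k → k * Real.exp 1 / (c * L) / c * Real.sqrt (Real.pi / B) ≤
        6 * k / Real.sqrt L := by
      intro k hk
      rw [hgs]
      have h1 : k * Real.exp 1 / (c * L) / c * (Real.sqrt Real.pi * c) =
          k * Real.exp 1 * Real.sqrt Real.pi / (c * L) := by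
        field_simp
      rw [h1]
      have h2 : k * Real.exp 1 * Real.sqrt Real.pi ≤ 6 * k := by
        have : Real.exp 1 * Real.sqrt Real.pi ≤ 3 * 2 := by
          apply mul_le_mul (by linarith) hpi2 (by positivity) (by norm_num)
        have := mul_le_mul_of_nonneg_left this hk
        linarith
      exact div_le_div₀ (by positivity) h2 (by linarith) hcL
    have t4 := t3 78 (by norm_num)
    have t5 := t3 1536 (by norm_num)
    have t6 : K * Real.log u * Real.exp (-(a * L) + B * a ^ 2) / a * (2 * V) ≤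
        80 * V * K / δ / Real.sqrt L := by
      have h1 : Real.log u * Real.exp (-(a * L) + B * a ^ 2) ≤ 10 / (δ * L) := by
        calc Real.log u * Real.exp (-(a * L) + B * a ^ 2) ≤
            Real.exp (L * (1 / 2 - δ / 6)) * Real.exp (-(a * L) + B * a ^ 2) :=
              mul_le_mul_of_nonneg_right hlogu (Real.exp_pos _).le
          _ = Real.exp (L * (1 / 2 - δ / 6) + (-(a * L) + B * a ^ 2)) :=
              (Real.exp_add _ _).symm
          _ ≤ Real.exp (-(5 * δ * L / 48)) := by
              apply Real.exp_le_exp.2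
              have h2 : B * a ^ 2 ≤ L * δ / 48 := by
                have h3 : B * a ^ 2 ≤ B * (1 / 2) ^ 2 := by
                  apply mul_le_mul_of_nonneg_left _ hB0.le
                  exact pow_le_pow_left₀ (by linarith) ha1 2
                have h4 : B = L * δ / 12 := by
                  rw [hB, hM]
                  field_simp
                rw [h4] at h3 ⊢
                linarith
              have h5 : a * L = (1 / 2 - δ / 24) * L := by rw [ha, hκ]
              rw [h5]
              linarith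
          _ ≤ 1 / (5 * δ * L / 48) := exp_neg_le_inv (by positivity)
          _ = 48 / 5 / (δ * L) := by
              field_simp
          _ ≤ 10 / (δ * L) := by
              apply div_le_div_of_nonneg_right _ (by positivity)
              norm_num
      have ha' : 1 / a ≤ 4 := by
        rw [div_le_iff₀ (by linarith)]
        linarith
      calc K * Real.log u * Real.exp (-(a * L) + B * a ^ 2) / a * (2 * V) =
          K * (2 * V) * (1 / a) * (Real.log u * Real.exp (-(a * L) + B * a ^ 2)) := by ring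
        _ ≤ K * (2 * V) * 4 * (10 / (δ * L)) := by
            apply mul_le_mul _ h1 (by positivity) (by positivity)
            apply mul_le_mul_of_nonneg_left ha' (by positivity)
        _ = 80 * V * K / δ / L := by
            field_simp
            ring
        _ ≤ 80 * V * K / δ / Real.sqrt L := hinvL _ (by positivity)
    have hpi : 1 ≤ 2 * Real.pi := by
      have := Real.pi_gt_three
      linarith
    have hn := norm_nonneg (g s0 - SY y s0)
    calc ‖g s0 - SY y s0‖ ≤ 2 * Real.pi * ‖g s0 - SY y s0‖ := le_mul_of_one_le_left hn hpi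
      _ ≤ 2 * K / Real.sqrt L + 12 / Real.sqrt L + 6 * 78 / Real.sqrt L +
          80 * V * K / δ / Real.sqrt L + 6 * 1536 / Real.sqrt L := by linarith
      _ = (2 * K + 12 + 9684 + 80 * V * K / δ) / Real.sqrt L := by ring
      _ ≤ (2 * K + 12 + 10000 + 80 * V * K / δ) / Real.sqrt L := by
          apply div_le_div_of_nonneg_right _ (by positivity)
          linarith
  · -- differentiability of `f`
    intro w h1 h2 h3
    have h4 := (hg' w h1 h2 h3).1
    have h5 : DifferentiableAt ℂ (fun w => g (s0 + w)) w :=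
      DifferentiableAt.comp w h4 ((differentiableAt_const s0).add differentiableAt_id)
    exact h5.mul (diff_EE L B w)
  · intro w h1 h2 h3
    have h4 : DifferentiableAt ℂ (SY y) (s0 + w) := by
      apply diff_SY
      rw [add_re, hs0re]
      linarith
    have h5 : DifferentiableAt ℂ (SY y ∘ fun w => s0 + w) w :=
      DifferentiableAt.comp w h4 ((differentiableAt_const s0).add differentiableAt_id)
    exact DifferentiableAt.mul (show DifferentiableAt ℂ (fun w => SY y (s0 + w)) w from h5)
      (diff_EE L B w)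
  · intro w h1 h2 h3
    rw [norm_mul]
    apply mul_le_mul (hg' w h1 h2 h3.le).2.2.1 (hEhor w (by linarith) h2 h3) (norm_nonneg _)
      (by positivity)
  · intro w h1 h2 h3
    rw [norm_mul]
    apply mul_le_mul _ (hEhor w (by linarith) h2 h3) (norm_nonneg _) (by positivity)
    rw [← hyL]
    apply SY_triv
    rw [add_re, hs0re]
    linarith
  · intro w h1 h2
    rw [norm_mul]
    apply mul_le_mul (hg' w h1.ge (by linarith) h2).2.2.1 _ (norm_nonneg _) (by positivity)
    rw [norm_EE, h1]
    apply Real.exp_le_exp.2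
    have : 0 ≤ B * w.im ^ 2 := by positivity
    have h3 : -a * L + B * ((-a) ^ 2 - w.im ^ 2) = -(a * L) + B * a ^ 2 - B * w.im ^ 2 := by ring
    rw [h3]
    linarith
  · intro w h1 h2
    have h3 := SY_left hy16 hc0 hc1 (by rw [← hL, hc2L]; linarith) (z := s0 + w)
      (by rw [add_re, hs0re, h1]; ring)
    rw [norm_mul, norm_EE, h1]
    rw [← hL, hypow] at h3
    have h4 : Real.exp (-c * L + B * ((-c) ^ 2 - w.im ^ 2)) =
        Real.exp (-(L * c)) * Real.exp 1 * Real.exp (-B * w.im ^ 2) := by
      rw [← Real.exp_add, ← Real.exp_add]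
      congr 1
      linear_combination hBc
    rw [h4]
    calc ‖SY y (s0 + w)‖ * (Real.exp (-(L * c)) * Real.exp 1 * Real.exp (-B * w.im ^ 2)) ≤
        1536 * Real.exp (L * c) / (c * L) *
          (Real.exp (-(L * c)) * Real.exp 1 * Real.exp (-B * w.im ^ 2)) :=
          mul_le_mul_of_nonneg_right h3 (by positivity)
      _ = 1536 * Real.exp 1 / (c * L) * Real.exp (-B * w.im ^ 2) *
          (Real.exp (L * c) * Real.exp (-(L * c))) := by ring
      _ = 1536 * Real.exp 1 / (c * L) * Real.exp (-B * w.im ^ 2) := by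
          rw [← Real.exp_add, add_neg_cancel, Real.exp_zero, mul_one]
  · intro w h1 h2
    have h3 := tail_PP (y := y) (by omega) hc0 (by linarith) (z := s0 + w)
      (by rw [add_re, hs0re, h1])
    have h5 := (hg' w (by linarith) h1.le h2).2.2.2 (by rw [add_re, hs0re, h1]; linarith)
    rw [← sub_mul, norm_mul, norm_EE, h1, h5]
    rw [← hL, hypow] at h3
    have h4 : Real.exp (c * L + B * (c ^ 2 - w.im ^ 2)) =
        Real.exp (L * c) * Real.exp 1 * Real.exp (-B * w.im ^ 2) := by
      rw [← Real.exp_add, ← Real.exp_add]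
      congr 1
      linear_combination hBc
    rw [h4]
    calc ‖PP (s0 + w) - SY y (s0 + w)‖ *
        (Real.exp (L * c) * Real.exp 1 * Real.exp (-B * w.im ^ 2)) ≤
        78 * Real.exp (L * -c) / (c * L) *
          (Real.exp (L * c) * Real.exp 1 * Real.exp (-B * w.im ^ 2)) :=
          mul_le_mul_of_nonneg_right h3 (by positivity)
      _ = 78 * Real.exp 1 / (c * L) * Real.exp (-B * w.im ^ 2) *
          (Real.exp (L * -c) * Real.exp (L * c)) := by ring
      _ = 78 * Real.exp 1 / (c * L) * Real.exp (-B * w.im ^ 2) := by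
          rw [← Real.exp_add]
          have : L * -c + L * c = 0 := by ring
          rw [this, Real.exp_zero, mul_one]

end Pool.Agent.H.MP_2e4794_nt.RL
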