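import Pool.Agent.H.MP_2e4794_nt.ZM.M3c

/-!
# Sums over primes
-/

namespace Pool.Agent.H.MP_2e4794_nt.RL

open Finset Filter Topology
open Pool.Agent.H.MP_2e4794_nt.ZM

/-- the sum of the reciprocals of the primes in `(v, x]` -/
noncomputable def WW (v x : ℕ) : ℝ := ∑ p ∈ prs v x, 1 / (p : ℝ)

lemma sum_prs_add {β : Type*} [AddCommMonoid β] (f : ℕ → β) {a b c : ℕ} (hab : a ≤ b)
    (hbc : b ≤ c) : ∑ p ∈ prs a c, f p = ∑ p ∈ prs a b, f p + ∑ p ∈ prs b c, f p := by
  have h1 : prs a c = prs a b ∪ prs b c := by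
    ext p
    simp only [mem_union, mem_prs]
    constructor
    · rintro ⟨⟨h1, h2⟩, h3⟩
      rcases le_or_gt p b with h | h
      · exact Or.inl ⟨⟨h1, h⟩, h3⟩
      · exact Or.inr ⟨⟨h, h2⟩, h3⟩
    · rintro (⟨⟨h1, h2⟩, h3⟩ | ⟨⟨h1, h2⟩, h3⟩)
      · exact ⟨⟨h1, h2.trans hbc⟩, h3⟩
      · exact ⟨⟨lt_of_le_of_lt hab h1, h2⟩, h3⟩
  rw [h1, sum_union]
  rw [disjoint_left]
  intro p hp hp2
  rw [mem_prs] at hp hp2
  omega

lemma WW_eq {v x : ℕ} (h : v ≤ x) : WW v x = Pool.MP42e49e.FF x - Pool.MP42e49e.FF v := by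
  have := sum_prs_add (fun p : ℕ => 1 / (p : ℝ)) (Nat.zero_le v) h
  unfold WW Pool.MP42e49e.FF
  rw [prm_eq_prs, prm_eq_prs, this]
  ring

lemma WW_nonneg (v x : ℕ) : 0 ≤ WW v x := sum_nonneg fun _ _ => by positivity

lemma WW_window {v x : ℕ} (hv : 2 ≤ v) (hx : v ≤ x) :
    |WW v x - (Real.log (Real.log x) - Real.log (Real.log v))| ≤ 12 / Real.log v := by
  rw [WW_eq hx, abs_le]
  obtain ⟨h1, h2⟩ := Pool.MP42e49e.window hv hx
  constructor <;> linarith

/-- dyadic blocks -/
lemma WW_double {v : ℕ} (hv : 2 ≤ v) : WW v (v * 2) ≤ 13 / Real.log v := by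
  have hv1 : (2 : ℝ) ≤ v := by exact_mod_cast hv
  have hl : 0 < Real.log v := Real.log_pos (by linarith)
  have h1 := (abs_le.1 (WW_window hv (x := v * 2) (by omega))).2
  have h2 : Real.log ((v * 2 : ℕ) : ℝ) = Real.log v + Real.log 2 := by
    push_cast
    rw [Real.log_mul (by linarith) (by norm_num)]
  have hl2 := Real.log_two_lt_d9
  have hl2' := Real.log_two_gt_d9
  have h3 : Real.log (Real.log v + Real.log 2) - Real.log (Real.log v) ≤ 1 / Real.log v := by
    rw [← Real.log_div (by linarith) hl.ne']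
    have h4 := Real.log_le_sub_one_of_pos (x := (Real.log v + Real.log 2) / Real.log v)
      (by positivity)
    refine h4.trans ?_
    rw [add_div, div_self hl.ne', add_sub_cancel_left]
    exact div_le_div_of_nonneg_right (by linarith) hl.le
  rw [h2] at h1
  have h5 : 13 / Real.log v = 1 / Real.log v + 12 / Real.log v := by ring
  linarith

lemma two_rpow_neg {c : ℝ} (hc : 0 < c) (hc1 : c ≤ 1) :
    0 < (2 : ℝ) ^ (-c) ∧ c / 4 ≤ 1 - (2 : ℝ) ^ (-c) := by
  refine ⟨by positivity, ?_⟩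
  have hl := Real.log_two_gt_d9
  have hl2 := Real.log_two_lt_d9
  rw [Real.rpow_def_of_pos (by norm_num)]
  have h1 : 1 + Real.log 2 * c ≤ Real.exp (Real.log 2 * c) := by
    have := Real.add_one_le_exp (Real.log 2 * c)
    linarith
  have h2 : Real.exp (Real.log 2 * -c) = (Real.exp (Real.log 2 * c))⁻¹ := by
    rw [← Real.exp_neg]
    congr 1
    ring
  rw [h2]
  have h3 : 0 < 1 + Real.log 2 * c := by positivity
  have h4 : (Real.exp (Real.log 2 * c))⁻¹ ≤ (1 + Real.log 2 * c)⁻¹ := inv_anti₀ h3 h1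
  have h5 : (1 + Real.log 2 * c)⁻¹ ≤ 1 - c / 4 := by
    rw [inv_le_iff_one_le_mul₀ h3]
    have h6 : 0 ≤ c * (Real.log 2 * (1 - c / 4) - 1 / 4) := by
      apply mul_nonneg hc.le
      nlinarith
    linarith
  linarith

/-- primes above `y` -/
lemma up_sum {y : ℕ} (hy : 2 ≤ y) {c : ℝ} (hc : 0 < c) (hc1 : c ≤ 1) (J : ℕ) :
    ∑ p ∈ prs y (y * 2 ^ J), (p : ℝ) ^ (-(1 + c)) ≤
      13 / Real.log y * ((y : ℝ) ^ (-c) * (4 / c)) := by
  have hy1 : (2 : ℝ) ≤ y := by exact_mod_cast hy
  have hl : 0 < Real.log y := Real.log_pos (by linarith)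
  obtain ⟨hr0, hr1⟩ := two_rpow_neg hc hc1
  set r := (2 : ℝ) ^ (-c) with hr
  have key : ∀ J : ℕ, ∑ p ∈ prs y (y * 2 ^ J), (p : ℝ) ^ (-(1 + c)) ≤
      13 / Real.log y * ((y : ℝ) ^ (-c) * ((1 - r ^ J) / (1 - r))) := by
    intro J
    induction J with
    | zero =>
      have : prs y (y * 2 ^ 0) = ∅ := by
        ext p
        simp only [mem_prs, notMem_empty, iff_false]
        omega
      rw [this, sum_empty]
      simp
    | succ J ih =>
      have h1 : y ≤ y * 2 ^ J := Nat.le_mul_of_pos_right _ (by positivity)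
      have h2 : y * 2 ^ (J + 1) = (y * 2 ^ J) * 2 := by ring
      rw [h2, sum_prs_add _ h1 (by omega)]
      have h3 : ∑ p ∈ prs (y * 2 ^ J) (y * 2 ^ J * 2), (p : ℝ) ^ (-(1 + c)) ≤
          13 / Real.log y * ((y : ℝ) ^ (-c) * r ^ J) := by
        have h4 := WW_double (v := y * 2 ^ J) (by omega)
        have h5 : Real.log y ≤ Real.log ((y * 2 ^ J : ℕ) : ℝ) := by
          apply Real.log_le_log (by linarith)
          exact_mod_cast h1
        have h6 : WW (y * 2 ^ J) (y * 2 ^ J * 2) ≤ 13 / Real.log y :=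
          h4.trans (div_le_div_of_nonneg_left (by norm_num) hl h5)
        have h7 : (((y * 2 ^ J : ℕ) : ℝ)) ^ (-c) = (y : ℝ) ^ (-c) * r ^ J := by
          push_cast
          rw [Real.mul_rpow (by linarith) (by positivity), hr, ← Real.rpow_natCast,
            ← Real.rpow_natCast, ← Real.rpow_mul (by norm_num), ← Real.rpow_mul (by norm_num)]
          congr 2
          ring
        calc ∑ p ∈ prs (y * 2 ^ J) (y * 2 ^ J * 2), (p : ℝ) ^ (-(1 + c)) ≤
            ∑ p ∈ prs (y * 2 ^ J) (y * 2 ^ J * 2), 1 / (p : ℝ) * ((y : ℝ) ^ (-c) * r ^ J) := by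
              apply sum_le_sum
              intro p hp
              rw [mem_prs] at hp
              have hp2 : (2 : ℝ) ≤ p := by exact_mod_cast hp.2.two_le
              have h8 : (p : ℝ) ^ (-(1 + c)) = 1 / (p : ℝ) * (p : ℝ) ^ (-c) := by
                rw [neg_add, Real.rpow_add (by linarith), Real.rpow_neg_one, one_div]
              rw [h8, ← h7]
              apply mul_le_mul_of_nonneg_left _ (by positivity)
              apply Real.rpow_le_rpow_of_nonpos
              · have : 0 < y * 2 ^ J := by positivity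
                exact_mod_cast this
              · exact_mod_cast hp.1.1.le
              · linarith
          _ = WW (y * 2 ^ J) (y * 2 ^ J * 2) * ((y : ℝ) ^ (-c) * r ^ J) := by
              unfold WW
              rw [sum_mul]
          _ ≤ 13 / Real.log y * ((y : ℝ) ^ (-c) * r ^ J) := by
              apply mul_le_mul_of_nonneg_right h6
              positivity
      have h9 : 13 / Real.log y * ((y : ℝ) ^ (-c) * ((1 - r ^ (J + 1)) / (1 - r))) =
          13 / Real.log y * ((y : ℝ) ^ (-c) * ((1 - r ^ J) / (1 - r))) +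
          13 / Real.log y * ((y : ℝ) ^ (-c) * r ^ J) := by
        have : 1 - r ≠ 0 := by
          have : 0 < c / 4 := by positivity
          linarith
        field_simp
        ring
      rw [h9]
      exact add_le_add ih h3
  refine (key J).trans ?_
  apply mul_le_mul_of_nonneg_left _ (by positivity)
  apply mul_le_mul_of_nonneg_left _ (by positivity)
  have h10 : 0 < 1 - r := by
    have : 0 < c / 4 := by positivity
    linarith
  rw [div_le_div_iff₀ h10 hc]
  have h11 : 0 ≤ r ^ J := by positivity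
  nlinarith

lemma up_sum' {y : ℕ} (hy : 2 ≤ y) {c : ℝ} (hc : 0 < c) (hc1 : c ≤ 1) (M : ℕ) :
    ∑ p ∈ prs y M, (p : ℝ) ^ (-(1 + c)) ≤ 52 * (y : ℝ) ^ (-c) / (c * Real.log y) := by
  have hy1 : (2 : ℝ) ≤ y := by exact_mod_cast hy
  have hl : 0 < Real.log y := Real.log_pos (by linarith)
  have h1 : M ≤ y * 2 ^ M := by
    calc M ≤ 2 ^ M := Nat.lt_two_pow_self.le
      _ ≤ y * 2 ^ M := Nat.le_mul_of_pos_left _ (by omega)
  have h2 : ∑ p ∈ prs y M, (p : ℝ) ^ (-(1 + c)) ≤ ∑ p ∈ prs y (y * 2 ^ M), (p : ℝ) ^ (-(1 + c)) := by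
    apply sum_le_sum_of_subset_of_nonneg
    · intro p hp
      rw [mem_prs] at hp ⊢
      exact ⟨⟨hp.1.1, hp.1.2.trans h1⟩, hp.2⟩
    · intro p _ _
      positivity
  refine h2.trans ((up_sum hy hc hc1 M).trans (le_of_eq ?_))
  field_simp
  ring

/-- primes between `v` and `v 2^J` -/
lemma down_sum {v : ℕ} (hv : 2 ≤ v) {c : ℝ} (hc : 0 < c) (hc1 : c ≤ 1) (J : ℕ) :
    ∑ p ∈ prs v (v * 2 ^ J), (p : ℝ) ^ (-(1 - c)) ≤
      13 / Real.log v * (((v * 2 ^ J : ℕ) : ℝ) ^ c * (4 / c)) := by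
  have hv1 : (2 : ℝ) ≤ v := by exact_mod_cast hv
  have hl : 0 < Real.log v := Real.log_pos (by linarith)
  obtain ⟨hr0, hr1⟩ := two_rpow_neg hc hc1
  set r := (2 : ℝ) ^ (-c) with hr
  have h10 : 0 < 1 - r := by
    have : 0 < c / 4 := by positivity
    linarith
  have key : ∀ J : ℕ, ∑ p ∈ prs v (v * 2 ^ J), (p : ℝ) ^ (-(1 - c)) ≤
      13 / Real.log v * (((v * 2 ^ J : ℕ) : ℝ) ^ c * (1 / (1 - r))) := by
    intro J
    induction J with
    | zero =>
      have : prs v (v * 2 ^ 0) = ∅ := by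
        ext p
        simp only [mem_prs, notMem_empty, iff_false]
        omega
      rw [this, sum_empty]
      positivity
    | succ J ih =>
      have h1 : v ≤ v * 2 ^ J := Nat.le_mul_of_pos_right _ (by positivity)
      have h2 : v * 2 ^ (J + 1) = (v * 2 ^ J) * 2 := by ring
      rw [h2, sum_prs_add _ h1 (by omega)]
      have h3 : ∑ p ∈ prs (v * 2 ^ J) (v * 2 ^ J * 2), (p : ℝ) ^ (-(1 - c)) ≤
          13 / Real.log v * ((v * 2 ^ J * 2 : ℕ) : ℝ) ^ c := by
        have h4 := WW_double (v := v * 2 ^ J) (by omega)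
        have h5 : Real.log v ≤ Real.log ((v * 2 ^ J : ℕ) : ℝ) := by
          apply Real.log_le_log (by linarith)
          exact_mod_cast h1
        have h6 : WW (v * 2 ^ J) (v * 2 ^ J * 2) ≤ 13 / Real.log v :=
          h4.trans (div_le_div_of_nonneg_left (by norm_num) hl h5)
        calc ∑ p ∈ prs (v * 2 ^ J) (v * 2 ^ J * 2), (p : ℝ) ^ (-(1 - c)) ≤
            ∑ p ∈ prs (v * 2 ^ J) (v * 2 ^ J * 2), 1 / (p : ℝ) * ((v * 2 ^ J * 2 : ℕ) : ℝ) ^ c := by
              apply sum_le_sum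
              intro p hp
              rw [mem_prs] at hp
              have hp2 : (2 : ℝ) ≤ p := by exact_mod_cast hp.2.two_le
              have h8 : (p : ℝ) ^ (-(1 - c)) = 1 / (p : ℝ) * (p : ℝ) ^ c := by
                have : -(1 - c) = -1 + c := by ring
                rw [this, Real.rpow_add (by linarith), Real.rpow_neg_one, one_div]
              rw [h8]
              apply mul_le_mul_of_nonneg_left _ (by positivity)
              apply Real.rpow_le_rpow (by linarith) _ hc.le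
              exact_mod_cast hp.1.2
          _ = WW (v * 2 ^ J) (v * 2 ^ J * 2) * ((v * 2 ^ J * 2 : ℕ) : ℝ) ^ c := by
              unfold WW
              rw [sum_mul]
          _ ≤ 13 / Real.log v * ((v * 2 ^ J * 2 : ℕ) : ℝ) ^ c := by
              apply mul_le_mul_of_nonneg_right h6
              positivity
      have h9 : ((v * 2 ^ J : ℕ) : ℝ) ^ c = r * ((v * 2 ^ J * 2 : ℕ) : ℝ) ^ c := by
        have e : ((v * 2 ^ J * 2 : ℕ) : ℝ) = ((v * 2 ^ J : ℕ) : ℝ) * 2 := by push_cast; ring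
        rw [e, Real.mul_rpow (by positivity) (by norm_num), hr, Real.rpow_neg (by norm_num)]
        have : (2 : ℝ) ^ c ≠ 0 := by positivity
        field_simp
      rw [h9] at ih
      refine (add_le_add ih h3).trans (le_of_eq ?_)
      field_simp
      ring
  refine (key J).trans ?_
  apply mul_le_mul_of_nonneg_left _ (by positivity)
  apply mul_le_mul_of_nonneg_left _ (by positivity)
  rw [div_le_div_iff₀ h10 hc]
  nlinarith

end Pool.Agent.H.MP_2e4794_nt.RL
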