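import Mathlib

/-!
# Cauchy's formula for a rectangle around the origin
-/

namespace Pool.Agent.H.MP_2e4794_nt.RL

open Set Filter Topology MeasureTheory Complex

lemma ne_zero_of_im {x b : ℝ} (hb : b ≠ 0) : (x : ℂ) + b * I ≠ 0 := by
  intro h
  have := congrArg Complex.im h
  simp at this
  exact hb this

lemma ne_zero_of_re {x b : ℝ} (hx : x ≠ 0) : (x : ℂ) + b * I ≠ 0 := by
  intro h
  have := congrArg Complex.re h
  simp at this
  exact hx this

lemma cont_hor {b : ℝ} (hb : b ≠ 0) : Continuous fun x : ℝ => ((x : ℂ) + b * I)⁻¹ := by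
  apply Continuous.inv₀ (by fun_prop)
  intro x
  exact ne_zero_of_im hb

lemma cont_ver {x : ℝ} (hx : x ≠ 0) : Continuous fun y : ℝ => ((x : ℂ) + y * I)⁻¹ := by
  apply Continuous.inv₀ (by fun_prop)
  intro y
  exact ne_zero_of_re hx

lemma int_hor {p q b : ℝ} (hb : b ≠ 0) : ∫ x in p..q, ((x : ℂ) + b * I)⁻¹ =
    log (q + b * I) - log (p + b * I) := by
  apply intervalIntegral.integral_eq_sub_of_hasDerivAt (f := fun x : ℝ => log ((x : ℂ) + b * I))
  · intro x _
    have h1 : HasDerivAt (fun x : ℝ => (x : ℂ) + b * I) 1 x :=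
      (Complex.ofRealCLM.hasDerivAt (x := x)).add_const _
    have h2 := h1.clog_real (by
      rw [mem_slitPlane_iff]
      right
      simpa using hb)
    rwa [one_div] at h2
  · exact (cont_hor hb).intervalIntegrable _ _

lemma int_ver {p q c : ℝ} (hc : 0 < c) : I * ∫ y in p..q, ((c : ℂ) + y * I)⁻¹ =
    log (c + q * I) - log (c + p * I) := by
  rw [← intervalIntegral.integral_const_mul]
  apply intervalIntegral.integral_eq_sub_of_hasDerivAt (f := fun y : ℝ => log ((c : ℂ) + y * I))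
  · intro y _
    have h0 : HasDerivAt (fun y : ℝ => (y : ℂ) * I) I y := by
      simpa using (Complex.ofRealCLM.hasDerivAt (x := y)).mul_const I
    have h1 : HasDerivAt (fun y : ℝ => (c : ℂ) + y * I) I y := h0.const_add _
    have h2 := h1.clog_real (by
      rw [mem_slitPlane_iff]
      left
      simpa using hc)
    rwa [div_eq_mul_inv] at h2
  · exact ((cont_ver hc.ne').const_mul I).intervalIntegrable _ _

lemma int_ver' {p q a : ℝ} (ha : 0 < a) : I * ∫ y in p..q, (((-a : ℝ) : ℂ) + y * I)⁻¹ =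
    log (a + ((-q : ℝ) : ℂ) * I) - log (a + ((-p : ℝ) : ℂ) * I) := by
  rw [← intervalIntegral.integral_const_mul]
  apply intervalIntegral.integral_eq_sub_of_hasDerivAt
    (f := fun y : ℝ => log ((a : ℂ) + ((-y : ℝ) : ℂ) * I))
  · intro y _
    have h0 : HasDerivAt (fun y : ℝ => ((-y : ℝ) : ℂ) * I) (-I) y := by
      have h3 : HasDerivAt (fun y : ℝ => (y : ℂ) * I) I y := by
        simpa using (Complex.ofRealCLM.hasDerivAt (x := y)).mul_const I
      have h4 := h3.neg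
      refine h4.congr_of_eventuallyEq ?_
      filter_upwards with y
      simp
    have h1 : HasDerivAt (fun y : ℝ => (a : ℂ) + ((-y : ℝ) : ℂ) * I) (-I) y := h0.const_add _
    have h2 := h1.clog_real (by
      rw [mem_slitPlane_iff]
      left
      simpa using ha)
    have h5 : -I / ((a : ℂ) + ((-y : ℝ) : ℂ) * I) = I * (((-a : ℝ) : ℂ) + y * I)⁻¹ := by
      rw [div_eq_mul_inv, neg_mul, ← mul_neg, ← inv_neg]
      congr 2
      push_cast
      ring
    rw [h5] at h2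
    exact h2
  · exact ((cont_ver (neg_ne_zero.2 ha.ne')).const_mul I).intervalIntegrable _ _

lemma inv_bdry {a c V : ℝ} (ha : 0 < a) (hc : 0 < c) (hV : 0 < V) :
    (∫ x in (-a)..c, ((x : ℂ) + ((-V : ℝ) : ℂ) * I)⁻¹) - (∫ x in (-a)..c, ((x : ℂ) + V * I)⁻¹) +
      I * (∫ y in (-V)..V, ((c : ℂ) + y * I)⁻¹) -
      I * (∫ y in (-V)..V, (((-a : ℝ) : ℂ) + y * I)⁻¹) = 2 * Real.pi * I := by
  rw [int_hor (neg_ne_zero.2 hV.ne'), int_hor hV.ne', int_ver hc, int_ver' ha]
  have h1 : log (((-a : ℝ) : ℂ) + V * I) = log (a + ((-V : ℝ) : ℂ) * I) + Real.pi * I := by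
    have h2 : ((-a : ℝ) : ℂ) + V * I = -(a + ((-V : ℝ) : ℂ) * I) := by
      push_cast
      ring
    rw [h2]
    unfold Complex.log
    rw [norm_neg, arg_neg_eq_arg_add_pi_of_im_neg (by simpa using hV)]
    push_cast
    ring
  have h3 : log (((-a : ℝ) : ℂ) + ((-V : ℝ) : ℂ) * I) = log (a + V * I) - Real.pi * I := by
    have h2 : ((-a : ℝ) : ℂ) + ((-V : ℝ) : ℂ) * I = -(a + V * I) := by
      push_cast
      ring
    rw [h2]
    unfold Complex.log
    rw [norm_neg, arg_neg_eq_arg_sub_pi_of_im_pos (by simpa using hV)]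
    push_cast
    ring
  rw [h1, h3, neg_neg]
  ring

/-- **Cauchy's formula on a rectangle.** -/
theorem rect_cauchy {f : ℂ → ℂ} {a c V : ℝ} (ha : 0 < a) (hc : 0 < c) (hV : 0 < V)
    (hf : ∀ w : ℂ, -a ≤ w.re → w.re ≤ c → |w.im| ≤ V → DifferentiableAt ℂ f w) :
    (∫ x in (-a)..c, f ((x : ℂ) + ((-V : ℝ) : ℂ) * I) / ((x : ℂ) + ((-V : ℝ) : ℂ) * I)) -
      (∫ x in (-a)..c, f ((x : ℂ) + V * I) / ((x : ℂ) + V * I)) +
      I * (∫ y in (-V)..V, f ((c : ℂ) + y * I) / ((c : ℂ) + y * I)) -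
      I * (∫ y in (-V)..V, f (((-a : ℝ) : ℂ) + y * I) / (((-a : ℝ) : ℂ) + y * I)) =
      2 * Real.pi * I * f 0 := by
  have hac : -a ≤ c := by linarith
  have hVV : -V ≤ V := by linarith
  set R : Set ℂ := uIcc (-a) c ×ℂ uIcc (-V) V with hR
  have hmem : ∀ w : ℂ, w ∈ R ↔ (-a ≤ w.re ∧ w.re ≤ c) ∧ (-V ≤ w.im ∧ w.im ≤ V) := by
    intro w
    rw [hR, mem_reProdIm, uIcc_of_le hac, uIcc_of_le hVV, mem_Icc, mem_Icc]
  have hfR : DifferentiableOn ℂ f R := by
    intro w hw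
    rw [hmem] at hw
    exact (hf w hw.1.1 hw.1.2 (abs_le.2 hw.2)).differentiableWithinAt
  have hnhds : R ∈ 𝓝 (0 : ℂ) := by
    have h1 : Ioo (-a) c ×ℂ Ioo (-V) V ∈ 𝓝 (0 : ℂ) := by
      apply (isOpen_Ioo.reProdIm isOpen_Ioo).mem_nhds
      rw [mem_reProdIm]
      simp [ha, hc, hV]
    apply Filter.mem_of_superset h1
    intro w hw
    rw [mem_reProdIm] at hw
    rw [hmem]
    exact ⟨⟨hw.1.1.le, hw.1.2.le⟩, ⟨hw.2.1.le, hw.2.2.le⟩⟩
  have hd : DifferentiableOn ℂ (dslope f 0) R := (differentiableOn_dslope hnhds).2 hfR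
  have key := integral_boundary_rect_eq_zero_of_differentiableOn (dslope f 0) (⟨-a, -V⟩ : ℂ) ⟨c, V⟩
    hd
  simp only [smul_eq_mul] at key
  have hsplit : ∀ w : ℂ, w ≠ 0 → f w / w = dslope f 0 w + f 0 * w⁻¹ := by
    intro w hw
    rw [dslope_of_ne _ hw, slope_def_field, sub_zero]
    field_simp
    ring
  have hcont := hd.continuousOn
  -- the four edges
  have e1 : ∀ b : ℝ, b ≠ 0 → |b| ≤ V →
      ∫ x in (-a)..c, f ((x : ℂ) + b * I) / ((x : ℂ) + b * I) =
      (∫ x in (-a)..c, dslope f 0 ((x : ℂ) + b * I)) + f 0 * ∫ x in (-a)..c, ((x : ℂ) + b * I)⁻¹ := by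
    intro b hb hbV
    rw [← intervalIntegral.integral_const_mul, ← intervalIntegral.integral_add]
    · apply intervalIntegral.integral_congr
      intro x _
      exact hsplit _ (ne_zero_of_im hb)
    · apply ContinuousOn.intervalIntegrable
      apply hcont.comp (by fun_prop)
      intro x hx
      rw [uIcc_of_le hac] at hx
      rw [hmem]
      simpa using ⟨⟨hx.1, hx.2⟩, abs_le.1 hbV⟩
    · exact ((cont_hor hb).const_mul _).intervalIntegrable _ _
  have e2 : ∀ σ : ℝ, σ ≠ 0 → -a ≤ σ → σ ≤ c →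
      ∫ y in (-V)..V, f ((σ : ℂ) + y * I) / ((σ : ℂ) + y * I) =
      (∫ y in (-V)..V, dslope f 0 ((σ : ℂ) + y * I)) +
        f 0 * ∫ y in (-V)..V, ((σ : ℂ) + y * I)⁻¹ := by
    intro σ hσ h1 h2
    rw [← intervalIntegral.integral_const_mul, ← intervalIntegral.integral_add]
    · apply intervalIntegral.integral_congr
      intro x _
      exact hsplit _ (ne_zero_of_re hσ)
    · apply ContinuousOn.intervalIntegrable
      apply hcont.comp (by fun_prop)
      intro x hx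
      rw [uIcc_of_le hVV] at hx
      rw [hmem]
      simpa using ⟨⟨h1, h2⟩, ⟨hx.1, hx.2⟩⟩
    · exact ((cont_ver hσ).const_mul _).intervalIntegrable _ _
  have hVabs : |V| = V := abs_of_pos hV
  rw [e1 (-V) (neg_ne_zero.2 hV.ne') (by rw [abs_neg, hVabs]), e1 V hV.ne' hVabs.le,
    e2 c hc.ne' hac le_rfl, e2 (-a) (neg_ne_zero.2 ha.ne') le_rfl hac]
  have hinv := inv_bdry ha hc hV
  linear_combination key + f 0 * hinv

end Pool.Agent.H.MP_2e4794_nt.RL
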