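import Pool.Agent.H.MP_2e4794_nt.RL.RC

/-!
# Comparing two functions by Cauchy's formula on two rectangles
-/

namespace Pool.Agent.H.MP_2e4794_nt.RL

open Set Filter Topology MeasureTheory Complex

lemma gauss_int {B K V : ℝ} (hB : 0 < B) (hK : 0 ≤ K) (hV : 0 ≤ V) :
    ∫ y in (-V)..V, K * Real.exp (-B * y ^ 2) ≤ K * Real.sqrt (Real.pi / B) := by
  rw [intervalIntegral.integral_const_mul]
  apply mul_le_mul_of_nonneg_left _ hK
  rw [intervalIntegral.integral_of_le (by linarith), ← integral_gaussian]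
  apply setIntegral_le_integral (integrable_exp_neg_mul_sq hB)
  filter_upwards with y
  positivity

lemma edge_gauss {F : ℂ → ℂ} {σ B K V : ℝ} (hσ : σ ≠ 0) (hB : 0 < B) (hK : 0 ≤ K) (hV : 0 ≤ V)
    (hF : ∀ y : ℝ, |y| ≤ V → ‖F ((σ : ℂ) + y * I)‖ ≤ K * Real.exp (-B * y ^ 2)) :
    ‖∫ y in (-V)..V, F ((σ : ℂ) + y * I) / ((σ : ℂ) + y * I)‖ ≤
      K / |σ| * Real.sqrt (Real.pi / B) := by
  have hs : 0 < |σ| := abs_pos.2 hσ
  refine le_trans ?_ (gauss_int (K := K / |σ|) hB (by positivity) hV)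
  apply intervalIntegral.norm_integral_le_of_norm_le (by linarith)
  · filter_upwards with y hy
    have h1 : |y| ≤ V := abs_le.2 ⟨hy.1.le, hy.2⟩
    rw [norm_div, div_mul_eq_mul_div]
    apply div_le_div₀ (by positivity) (hF y h1) hs
    have := Complex.abs_re_le_norm ((σ : ℂ) + y * I)
    simpa using this
  · apply Continuous.intervalIntegrable
    fun_prop

lemma edge_ver {F : ℂ → ℂ} {σ K V : ℝ} (hσ : σ ≠ 0) (hK : 0 ≤ K) (hV : 0 ≤ V)
    (hF : ∀ y : ℝ, |y| ≤ V → ‖F ((σ : ℂ) + y * I)‖ ≤ K) :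
    ‖∫ y in (-V)..V, F ((σ : ℂ) + y * I) / ((σ : ℂ) + y * I)‖ ≤ K / |σ| * (2 * V) := by
  have hs : 0 < |σ| := abs_pos.2 hσ
  have h0 : 2 * V = |V - -V| := by
    rw [abs_of_nonneg (by linarith)]
    ring
  rw [h0]
  apply intervalIntegral.norm_integral_le_of_norm_le_const
  intro y hy
  rw [uIoc_of_le (by linarith)] at hy
  have h1 : |y| ≤ V := abs_le.2 ⟨hy.1.le, hy.2⟩
  rw [norm_div]
  apply div_le_div₀ hK (hF y h1) hs
  have := Complex.abs_re_le_norm ((σ : ℂ) + y * I)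
  simpa using this

lemma edge_hor {F : ℂ → ℂ} {a c b K : ℝ} (hb : 1 ≤ |b|) (hac : -a ≤ c) (hK : 0 ≤ K)
    (hF : ∀ x : ℝ, -a ≤ x → x ≤ c → ‖F ((x : ℂ) + b * I)‖ ≤ K) :
    ‖∫ x in (-a)..c, F ((x : ℂ) + b * I) / ((x : ℂ) + b * I)‖ ≤ K * (a + c) := by
  have h0 : a + c = |c - -a| := by
    rw [abs_of_nonneg (by linarith)]
    ring
  rw [h0]
  apply intervalIntegral.norm_integral_le_of_norm_le_const
  intro x hx
  rw [uIoc_of_le hac] at hx
  rw [norm_div]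
  have h1 := hF x hx.1.le hx.2
  have h2 : 1 ≤ ‖(x : ℂ) + b * I‖ := by
    have := Complex.abs_im_le_norm ((x : ℂ) + b * I)
    simp at this
    linarith
  rw [div_le_iff₀ (by linarith)]
  nlinarith

/-- **Comparison of two functions at `0`.** -/
theorem rect_two {f h : ℂ → ℂ} {a b c V B A1 A2 B1 B2 C1 : ℝ} (ha : 0 < a) (hb : 0 < b)
    (hc : 0 < c) (hV : 1 ≤ V) (hB : 0 < B) (hA1 : 0 ≤ A1) (hA2 : 0 ≤ A2) (hB1 : 0 ≤ B1)
    (hB2 : 0 ≤ B2) (hC1 : 0 ≤ C1)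
    (hf : ∀ w : ℂ, -a ≤ w.re → w.re ≤ c → |w.im| ≤ V → DifferentiableAt ℂ f w)
    (hh : ∀ w : ℂ, -b ≤ w.re → w.re ≤ c → |w.im| ≤ V → DifferentiableAt ℂ h w)
    (f1 : ∀ w : ℂ, -a ≤ w.re → w.re ≤ c → |w.im| = V → ‖f w‖ ≤ A1)
    (h1 : ∀ w : ℂ, -b ≤ w.re → w.re ≤ c → |w.im| = V → ‖h w‖ ≤ B1)
    (f2 : ∀ w : ℂ, w.re = -a → |w.im| ≤ V → ‖f w‖ ≤ A2)
    (h2 : ∀ w : ℂ, w.re = -b → |w.im| ≤ V → ‖h w‖ ≤ B2 * Real.exp (-B * w.im ^ 2))
    (fh : ∀ w : ℂ, w.re = c → |w.im| ≤ V → ‖f w - h w‖ ≤ C1 * Real.exp (-B * w.im ^ 2)) :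
    2 * Real.pi * ‖f 0 - h 0‖ ≤ 2 * A1 * (a + c) + 2 * B1 * (b + c) +
      C1 / c * Real.sqrt (Real.pi / B) + A2 / a * (2 * V) + B2 / b * Real.sqrt (Real.pi / B) := by
  have hV0 : 0 < V := by linarith
  have cf := rect_cauchy ha hc hV0 hf
  have ch := rect_cauchy hb hc hV0 hh
  have hVabs : |V| = V := abs_of_pos hV0
  have hVabs' : |(-V)| = V := by rw [abs_neg, hVabs]
  have e1 := edge_hor (F := f) (a := a) (c := c) (b := -V) (K := A1) (by rw [hVabs']; exact hV)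
    (by linarith) hA1 (by
      intro x hx1 hx2
      apply f1 <;> simp [hx1, hx2, hVabs])
  have e2 := edge_hor (F := f) (a := a) (c := c) (b := V) (K := A1) (by rw [hVabs]; exact hV)
    (by linarith) hA1 (by
      intro x hx1 hx2
      apply f1 <;> simp [hx1, hx2, hVabs])
  have e3 := edge_hor (F := h) (a := b) (c := c) (b := -V) (K := B1) (by rw [hVabs']; exact hV)
    (by linarith) hB1 (by
      intro x hx1 hx2
      apply h1 <;> simp [hx1, hx2, hVabs])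
  have e4 := edge_hor (F := h) (a := b) (c := c) (b := V) (K := B1) (by rw [hVabs]; exact hV)
    (by linarith) hB1 (by
      intro x hx1 hx2
      apply h1 <;> simp [hx1, hx2, hVabs])
  have e5 := edge_ver (F := f) (σ := -a) (K := A2) (neg_ne_zero.2 ha.ne') hA2 hV0.le (by
      intro y hy
      apply f2 <;> simp [hy])
  have e6 := edge_gauss (F := h) (σ := -b) (K := B2) (neg_ne_zero.2 hb.ne') hB hB2 hV0.le (by
      intro y hy
      have := h2 (((-b : ℝ) : ℂ) + y * I) (by simp) (by simpa using hy)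
      simpa using this)
  have e7 := edge_gauss (F := fun w => f w - h w) (σ := c) (K := C1) hc.ne' hB hC1 hV0.le (by
      intro y hy
      have := fh ((c : ℂ) + y * I) (by simp) (by simpa using hy)
      simpa using this)
  rw [abs_neg, abs_of_pos ha] at e5
  rw [abs_neg, abs_of_pos hb] at e6
  rw [abs_of_pos hc] at e7
  have hline : ∀ {F : ℂ → ℂ} {q : ℝ}, 0 < q →
      (∀ w : ℂ, -q ≤ w.re → w.re ≤ c → |w.im| ≤ V → DifferentiableAt ℂ F w) →
      IntervalIntegrable (fun y : ℝ => F ((c : ℂ) + y * I) / ((c : ℂ) + y * I)) volume (-V) V := by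
    intro F q hq hF
    apply ContinuousOn.intervalIntegrable
    rw [uIcc_of_le (by linarith)]
    intro y hy
    have h3 : DifferentiableAt ℂ F ((c : ℂ) + y * I) := by
      apply hF
      · simp only [add_re, ofReal_re, mul_re, I_re, mul_zero, ofReal_im, I_im, mul_one, sub_self,
          add_zero]
        linarith
      · simp
      · simpa using abs_le.2 hy
    have h4 : ContinuousAt (fun y : ℝ => F ((c : ℂ) + y * I)) y :=
      ContinuousAt.comp (f := fun y : ℝ => (c : ℂ) + y * I) h3.continuousAt (by fun_prop)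
    exact (h4.div (by fun_prop) (ne_zero_of_re hc.ne')).continuousWithinAt
  have e8 : ∫ y in (-V)..V, (f ((c : ℂ) + y * I) - h ((c : ℂ) + y * I)) / ((c : ℂ) + y * I) =
      (∫ y in (-V)..V, f ((c : ℂ) + y * I) / ((c : ℂ) + y * I)) -
      ∫ y in (-V)..V, h ((c : ℂ) + y * I) / ((c : ℂ) + y * I) := by
    rw [← intervalIntegral.integral_sub (hline ha hf) (hline hb hh)]
    apply intervalIntegral.integral_congr
    intro y _
    simp only
    rw [sub_div]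
  rw [e8] at e7
  set F1 := ∫ x in (-a)..c, f ((x : ℂ) + ((-V : ℝ) : ℂ) * I) / ((x : ℂ) + ((-V : ℝ) : ℂ) * I)
  set F2 := ∫ x in (-a)..c, f ((x : ℂ) + V * I) / ((x : ℂ) + V * I)
  set F3 := ∫ y in (-V)..V, f ((c : ℂ) + y * I) / ((c : ℂ) + y * I)
  set F4 := ∫ y in (-V)..V, f (((-a : ℝ) : ℂ) + y * I) / (((-a : ℝ) : ℂ) + y * I)
  set H1 := ∫ x in (-b)..c, h ((x : ℂ) + ((-V : ℝ) : ℂ) * I) / ((x : ℂ) + ((-V : ℝ) : ℂ) * I)
  set H2 := ∫ x in (-b)..c, h ((x : ℂ) + V * I) / ((x : ℂ) + V * I)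
  set H3 := ∫ y in (-V)..V, h ((c : ℂ) + y * I) / ((c : ℂ) + y * I)
  set H4 := ∫ y in (-V)..V, h (((-b : ℝ) : ℂ) + y * I) / (((-b : ℝ) : ℂ) + y * I)
  have e9 : 2 * Real.pi * I * (f 0 - h 0) = F1 - F2 - H1 + H2 + I * (F3 - H3) - I * F4 + I * H4 := by
    linear_combination ch - cf
  have e10 : 2 * Real.pi * ‖f 0 - h 0‖ = ‖2 * Real.pi * I * (f 0 - h 0)‖ := by
    rw [norm_mul, norm_mul, norm_mul, Complex.norm_I, Complex.norm_real, Complex.norm_ofNat,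
      Real.norm_eq_abs, abs_of_pos Real.pi_pos, mul_one]
  rw [e10, e9]
  have hI : ∀ z : ℂ, ‖I * z‖ = ‖z‖ := by
    intro z
    rw [norm_mul, Complex.norm_I, one_mul]
  calc ‖F1 - F2 - H1 + H2 + I * (F3 - H3) - I * F4 + I * H4‖ ≤
      ‖F1‖ + ‖F2‖ + ‖H1‖ + ‖H2‖ + ‖F3 - H3‖ + ‖F4‖ + ‖H4‖ := by
        have t1 := norm_add_le (F1 - F2 - H1 + H2 + I * (F3 - H3) - I * F4) (I * H4)
        have t2 := norm_sub_le (F1 - F2 - H1 + H2 + I * (F3 - H3)) (I * F4)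
        have t3 := norm_add_le (F1 - F2 - H1 + H2) (I * (F3 - H3))
        have t4 := norm_add_le (F1 - F2 - H1) H2
        have t5 := norm_sub_le (F1 - F2) H1
        have t6 := norm_sub_le F1 F2
        rw [hI] at t1 t2 t3
        linarith
    _ ≤ _ := by linarith

end Pool.Agent.H.MP_2e4794_nt.RL
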