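import Pool.Agent.H.MP_2e4794_nt.RL.PT
import Pool.Agent.H.MP_2e4794_nt.RL.GW
import Pool.Agent.H.MP_2e4794_nt.RL.RE

/-!
# The contribution of the prime powers, and tails of integrals
-/

namespace Pool.Agent.H.MP_2e4794_nt.RL

open Finset Filter Topology MeasureTheory
open Pool.Agent.H.MP_2e4794_nt.ZM (prs mem_prs)

/-- the Euler factor without its main term -/
noncomputable def rr (p : ℕ) (z : ℂ) : ℂ := ll p z - (p : ℂ) ^ (-z)

/-- the prime powers -/
noncomputable def Rf (z : ℂ) : ℂ := ∑' p : Nat.Primes, rr p z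

lemma norm_rr_le {p : ℕ} (hp : 2 ≤ p) {z : ℂ} (hz : 1 / 2 ≤ z.re) :
    ‖rr p z‖ ≤ 2 * (p : ℝ) ^ (-(2 * z.re)) := by
  have hp1 : (2 : ℝ) ≤ p := by exact_mod_cast hp
  have h1 : ‖-((p : ℂ) ^ (-z))‖ ≤ 3 / 4 := by
    rw [norm_neg, norm_pcpow hp]
    calc (p : ℝ) ^ (-z.re) ≤ (2 : ℝ) ^ (-z.re) := by
          apply Real.rpow_le_rpow_of_nonpos (by norm_num) hp1
          linarith
      _ ≤ (2 : ℝ) ^ (-(1 / 2) : ℝ) := by
          apply Real.rpow_le_rpow_of_exponent_le (by norm_num)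
          linarith
      _ ≤ 3 / 4 := by
          rw [Real.rpow_neg (by norm_num), ← Real.sqrt_eq_rpow]
          rw [inv_le_comm₀ (by positivity) (by norm_num)]
          apply Real.le_sqrt_of_sq_le
          norm_num
  have h2 := Complex.norm_log_one_add_sub_self_le (z := -((p : ℂ) ^ (-z))) (by linarith)
  have h3 : ‖-((p : ℂ) ^ (-z))‖ = (p : ℝ) ^ (-z.re) := by rw [norm_neg, norm_pcpow hp]
  have h4 : ‖rr p z‖ = ‖Complex.log (1 + -((p : ℂ) ^ (-z))) - -((p : ℂ) ^ (-z))‖ := by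
    rw [← norm_neg]
    congr 1
    unfold rr ll
    rw [← sub_eq_add_neg]
    ring
  rw [h4]
  refine h2.trans ?_
  have h5 : (p : ℝ) ^ (-(2 * z.re)) = ‖-((p : ℂ) ^ (-z))‖ ^ 2 := by
    rw [h3, ← Real.rpow_natCast, ← Real.rpow_mul (by linarith)]
    congr 1
    push_cast
    ring
  rw [h5]
  set q := ‖-((p : ℂ) ^ (-z))‖ with hq
  have h6 : (1 - q)⁻¹ ≤ 4 := by
    rw [inv_le_comm₀ (by linarith) (by norm_num)]
    linarith
  have h7 : q ^ 2 * (1 - q)⁻¹ ≤ q ^ 2 * 4 := mul_le_mul_of_nonneg_left h6 (by positivity)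
  linarith

lemma summable_rr {κ : ℝ} (hκ : 0 < κ) :
    Summable fun p : Nat.Primes => 2 * ((p : ℕ) : ℝ) ^ (-(1 + κ)) := by
  apply Summable.mul_left
  rw [Nat.Primes.summable_rpow]
  linarith

lemma rr_le_of_le {κ : ℝ} (hκ : 0 < κ) (p : Nat.Primes) {z : ℂ} (hz : 1 / 2 + κ / 2 ≤ z.re) :
    ‖rr p z‖ ≤ 2 * ((p : ℕ) : ℝ) ^ (-(1 + κ)) := by
  have h2 : (2 : ℝ) ≤ (p : ℕ) := by exact_mod_cast p.2.two_le
  refine (norm_rr_le p.2.two_le (by linarith)).trans ?_
  apply mul_le_mul_of_nonneg_left _ (by norm_num)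
  apply Real.rpow_le_rpow_of_exponent_le (by linarith)
  linarith

lemma diff_Rf {z : ℂ} (hz : 1 / 2 < z.re) : DifferentiableAt ℂ Rf z := by
  obtain ⟨κ, hκ⟩ : ∃ κ, κ = z.re - 1 / 2 := ⟨_, rfl⟩
  have hκ0 : 0 < κ := by linarith
  have ho : IsOpen {w : ℂ | 1 / 2 + κ / 2 < w.re} :=
    isOpen_lt continuous_const Complex.continuous_re
  have h1 : DifferentiableOn ℂ Rf {w : ℂ | 1 / 2 + κ / 2 < w.re} := by
    unfold Rf
    apply Complex.differentiableOn_tsum_of_summable_norm (summable_rr hκ0) _ ho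
    · intro p w hw
      have hw1 : 1 / 2 + κ / 2 < w.re := hw
      exact rr_le_of_le hκ0 p hw1.le
    · intro p w hw
      have hw1 : 1 / 2 + κ / 2 < w.re := hw
      have h0 : ((p : ℕ) : ℂ) ≠ 0 := by
        have : (p : ℕ) ≠ 0 := p.2.ne_zero
        exact_mod_cast this
      have h3 : DifferentiableAt ℂ (fun z : ℂ => ((p : ℕ) : ℂ) ^ (-z)) w :=
        (differentiableAt_id.neg).const_cpow (Or.inl h0)
      exact ((continuousAt_ll p.2.two_le (by linarith)).sub h3).differentiableWithinAt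
  exact h1.differentiableAt (ho.mem_nhds (by
    show 1 / 2 + κ / 2 < z.re
    linarith))

lemma norm_Rf_le {κ : ℝ} (hκ : 0 < κ) {z : ℂ} (hz : 1 / 2 + κ / 2 ≤ z.re) :
    ‖Rf z‖ ≤ ∑' p : Nat.Primes, 2 * ((p : ℕ) : ℝ) ^ (-(1 + κ)) := by
  unfold Rf
  apply tsum_of_norm_bounded (summable_rr hκ).hasSum
  intro p
  exact rr_le_of_le hκ p hz

lemma PP_sub_Rf {z : ℂ} (hz : 1 < z.re) :
    PP z - Rf z = ∑' p : Nat.Primes, ((p : ℕ) : ℂ) ^ (-z) := by
  unfold PP Rf
  have h0 : Summable fun p : Nat.Primes => ll p z := by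
    apply Summable.of_norm_bounded (summable_primes hz)
    intro p
    exact ll_le_of_le hz.le p le_rfl
  have h1 : Summable fun p : Nat.Primes => rr p z := by
    apply Summable.of_norm_bounded (summable_rr (κ := 1) (by norm_num))
    intro p
    exact rr_le_of_le (by norm_num) p (by linarith)
  rw [← h0.tsum_sub h1]
  apply tsum_congr
  intro p
  unfold rr
  ring

lemma tendsto_primes {f : ℕ → ℂ} (h0 : Summable fun p : Nat.Primes => f p) :
    Tendsto (fun y : ℕ => ∑ p ∈ prs 0 y, f p) atTop (𝓝 (∑' p : Nat.Primes, f p)) := by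
  have h1 : Summable ({p : ℕ | p.Prime}.indicator fun n : ℕ => f n) := by
    rw [← summable_subtype_iff_indicator]
    exact h0
  have h2 : ∑' n : ℕ, ({p : ℕ | p.Prime}.indicator fun n : ℕ => f n) n =
      ∑' p : Nat.Primes, f p :=
    (_root_.tsum_subtype {p : ℕ | p.Prime} (fun n : ℕ => f n)).symm
  have h3 := (h1.hasSum.tendsto_sum_nat).comp (tendsto_add_atTop_nat 1)
  rw [h2] at h3
  refine h3.congr fun y => ?_
  simp only [Function.comp]
  rw [← Finset.sum_subset (s₁ := prs 0 y)]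
  · apply sum_congr rfl
    intro p hp
    rw [mem_prs] at hp
    rw [Set.indicator_of_mem (by exact hp.2)]
  · intro p hp
    rw [mem_prs] at hp
    rw [mem_range]
    omega
  · intro n hn hn'
    rw [mem_range] at hn
    rw [Set.indicator_of_notMem]
    intro hp
    apply hn'
    have hp' : n.Prime := hp
    rw [mem_prs]
    exact ⟨⟨hp'.pos, by omega⟩, hp'⟩

/-- a sum over the primes, its tail -/
lemma tsum_primes_tail {f : ℕ → ℂ} (h0 : Summable fun p : Nat.Primes => f p) {y : ℕ} {E : ℝ}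
    (hE : ∀ M : ℕ, ∑ p ∈ prs y M, ‖f p‖ ≤ E) :
    ‖∑' p : Nat.Primes, f p - ∑ p ∈ prs 0 y, f p‖ ≤ E := by
  have h1 : Tendsto (fun M : ℕ => ‖∑ p ∈ prs 0 M, f p - ∑ p ∈ prs 0 y, f p‖) atTop
      (𝓝 ‖∑' p : Nat.Primes, f p - ∑ p ∈ prs 0 y, f p‖) :=
    ((tendsto_primes h0).sub_const _).norm
  apply le_of_tendsto h1
  filter_upwards [eventually_ge_atTop y] with M hM
  have h2 : ∑ p ∈ prs 0 M, f p - ∑ p ∈ prs 0 y, f p = ∑ p ∈ prs y M, f p := by
    rw [sum_prs_add _ (Nat.zero_le y) hM]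
    ring
  rw [h2]
  exact (norm_sum_le _ _).trans (hE M)

/-- sums of prime powers over large primes -/
lemma sum_rr_le {y : ℕ} (hy : 1 ≤ y) (M : ℕ) {z : ℂ} (hz : 1 ≤ z.re) :
    ∑ p ∈ prs y M, ‖rr p z‖ ≤ 2 / y := by
  rcases le_or_gt y M with hM | hM
  · calc ∑ p ∈ prs y M, ‖rr p z‖ ≤ ∑ p ∈ prs y M, 2 * ((p : ℝ) ^ 2)⁻¹ := by
          apply sum_le_sum
          intro p hp
          rw [mem_prs] at hp
          have hp2 : (2 : ℝ) ≤ p := by exact_mod_cast hp.2.two_le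
          refine (norm_rr_le hp.2.two_le (by linarith)).trans ?_
          apply mul_le_mul_of_nonneg_left _ (by norm_num)
          rw [← Real.rpow_natCast, ← Real.rpow_neg (by linarith)]
          apply Real.rpow_le_rpow_of_exponent_le (by linarith)
          push_cast
          linarith
      _ ≤ ∑ n ∈ Ioc y M, 2 * ((n : ℝ) ^ 2)⁻¹ := by
          apply sum_le_sum_of_subset_of_nonneg
          · exact filter_subset _ _
          · intro n _ _
            positivity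
      _ = 2 * ∑ n ∈ Ioc y M, ((n : ℝ) ^ 2)⁻¹ := by rw [mul_sum]
      _ ≤ 2 * ((y : ℝ)⁻¹ - (M : ℝ)⁻¹) := by
          apply mul_le_mul_of_nonneg_left _ (by norm_num)
          exact sum_Ioc_inv_sq_le_sub (by omega) hM
      _ ≤ 2 / y := by
          have : (0 : ℝ) ≤ (M : ℝ)⁻¹ := by positivity
          rw [div_eq_mul_inv]
          linarith
  · have : prs y M = ∅ := by
      ext p
      simp only [mem_prs, notMem_empty, iff_false]
      omega
    rw [this, sum_empty]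
    positivity

lemma tail_Rf {y : ℕ} (hy : 1 ≤ y) {z : ℂ} (hz : 1 ≤ z.re) :
    ‖Rf z - ∑ p ∈ prs 0 y, rr p z‖ ≤ 2 / y := by
  unfold Rf
  apply tsum_primes_tail (f := fun p => rr p z)
  · apply Summable.of_norm_bounded (summable_rr (κ := 1) (by norm_num))
    intro p
    exact rr_le_of_le (by norm_num) p (by linarith)
  · intro M
    exact sum_rr_le hy M hz

/-- the tail of an integral over a vertical line -/
lemma line_tail {F : ℝ → ℂ} {B K V : ℝ} (hB : 0 < B) (hK : 0 ≤ K) (hV : 0 ≤ V)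
    (hFi : Integrable F) (hF : ∀ τ : ℝ, ‖F τ‖ ≤ K * Real.exp (-B * τ ^ 2)) :
    ‖(∫ τ, F τ) - ∫ τ in (-V)..V, F τ‖ ≤
      K * Real.exp (-(B * V ^ 2 / 2)) * Real.sqrt (Real.pi / (B / 2)) := by
  rw [intervalIntegral.integral_of_le (by linarith),
    ← integral_add_compl (measurableSet_Ioc (a := -V) (b := V)) hFi, add_sub_cancel_left]
  have hB2 : 0 < B / 2 := by positivity
  have hg : Integrable fun τ : ℝ => K * Real.exp (-(B * V ^ 2 / 2)) *
      Real.exp (-(B / 2) * τ ^ 2) := (integrable_exp_neg_mul_sq hB2).const_mul _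
  have h1 := norm_integral_le_of_norm_le (μ := volume.restrict (Set.Ioc (-V) V)ᶜ) (f := F)
    hg.integrableOn (by
      filter_upwards [ae_restrict_mem measurableSet_Ioc.compl] with τ hτ
      refine (hF τ).trans ?_
      rw [mul_assoc, ← Real.exp_add]
      apply mul_le_mul_of_nonneg_left _ hK
      apply Real.exp_le_exp.2
      have h2 : V ^ 2 ≤ τ ^ 2 := by
        rw [Set.mem_compl_iff, Set.mem_Ioc, not_and_or, not_lt, not_le] at hτ
        rcases hτ with h | h
        · nlinarith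
        · nlinarith
      nlinarith)
  refine h1.trans ?_
  have h3 : ∫ τ in (Set.Ioc (-V) V)ᶜ, K * Real.exp (-(B * V ^ 2 / 2)) *
      Real.exp (-(B / 2) * τ ^ 2) ≤ ∫ τ, K * Real.exp (-(B * V ^ 2 / 2)) *
      Real.exp (-(B / 2) * τ ^ 2) := by
    apply setIntegral_le_integral hg
    filter_upwards with τ
    positivity
  refine h3.trans (le_of_eq ?_)
  rw [integral_const_mul, integral_gaussian]

end Pool.Agent.H.MP_2e4794_nt.RL
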