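import Pool.Agent.H.MP_2e4794_nt.RL.ML
import Pool.Agent.H.MP_2e4794_nt.RL.RF

/-!
# The zeta function on the line `Re s = 1` and smooth sums over primes, under RH
-/

namespace Pool.Agent.H.MP_2e4794_nt.RL

open Filter Topology MeasureTheory Complex

/-- the smoothed sum over the primes -/
noncomputable def PQ (L B : ℝ) (z : ℂ) : ℂ :=
  ∑' p : Nat.Primes, ((QQ B (L - Real.log (p : ℕ)) : ℝ) : ℂ) * ((p : ℕ) : ℂ) ^ (-z)

/-- `∑ p^{-3/2}` -/
noncomputable def C32 : ℝ := ∑' p : Nat.Primes, ((p : ℕ) : ℝ) ^ (-(3 / 2) : ℝ)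

lemma summable_C32 : Summable fun p : Nat.Primes => ((p : ℕ) : ℝ) ^ (-(3 / 2) : ℝ) := by
  rw [Nat.Primes.summable_rpow]
  norm_num

lemma C32_nonneg : 0 ≤ C32 := tsum_nonneg fun p => by positivity

/-- the point on the line -/
noncomputable def ww (τ : ℝ) : ℂ := ((1 / 2 : ℝ) : ℂ) + τ * I

lemma ww_re (τ : ℝ) : (ww τ).re = 1 / 2 := by simp [ww]

lemma ww_im (τ : ℝ) : (ww τ).im = τ := by simp [ww]

lemma ww_ne (τ : ℝ) : ww τ ≠ 0 := by
  intro h
  have := congrArg Complex.re h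
  rw [ww_re] at this
  norm_num at this

lemma norm_ww (τ : ℝ) : 1 / 2 ≤ ‖ww τ‖ := by
  have := Complex.abs_re_le_norm (ww τ)
  rw [ww_re] at this
  exact (le_abs_self _).trans this

lemma continuous_ww : Continuous ww := by
  unfold ww
  fun_prop

lemma continuous_EE (L B : ℝ) : Continuous (EE L B) := by
  unfold EE
  fun_prop

lemma kernel_le (L : ℝ) {B : ℝ} (τ : ℝ) :
    ‖EE L B (ww τ) / ww τ‖ ≤ 2 * Real.exp (L / 2 + B / 4) * Real.exp (-B * τ ^ 2) := by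
  rw [norm_div, norm_EE, ww_re, ww_im, div_le_iff₀ (norm_pos_iff.2 (ww_ne τ))]
  have h1 : Real.exp (1 / 2 * L + B * ((1 / 2) ^ 2 - τ ^ 2)) =
      Real.exp (L / 2 + B / 4) * Real.exp (-B * τ ^ 2) := by
    rw [← Real.exp_add]
    congr 1
    ring
  rw [h1]
  have h2 := norm_ww τ
  have h3 : 0 < Real.exp (L / 2 + B / 4) * Real.exp (-B * τ ^ 2) := by positivity
  nlinarith

/-- one prime -/
noncomputable def Fp (L B : ℝ) (s : ℂ) (p : ℕ) (τ : ℝ) : ℂ :=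
  (p : ℂ) ^ (-(s + ww τ)) * (EE L B (ww τ) / ww τ)

lemma norm_pp {p : ℕ} (hp : 2 ≤ p) {s : ℂ} (hs : s.re = 1) (τ : ℝ) :
    ‖(p : ℂ) ^ (-(s + ww τ))‖ = (p : ℝ) ^ (-(3 / 2) : ℝ) := by
  rw [norm_pcpow hp, add_re, hs, ww_re]
  norm_num

lemma Fp_cont (L B : ℝ) (s : ℂ) {p : ℕ} (hp : 2 ≤ p) : Continuous (Fp L B s p) := by
  unfold Fp
  have h0 : (p : ℂ) ≠ 0 := by
    have : p ≠ 0 := by omega
    exact_mod_cast this
  apply Continuous.mul
  · exact Continuous.const_cpow (by have := continuous_ww; fun_prop) (Or.inl h0)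
  · exact ((continuous_EE L B).comp continuous_ww).div continuous_ww ww_ne

lemma Fp_le (L : ℝ) {B : ℝ} {s : ℂ} (hs : s.re = 1) {p : ℕ} (hp : 2 ≤ p) (τ : ℝ) :
    ‖Fp L B s p τ‖ ≤ (p : ℝ) ^ (-(3 / 2) : ℝ) *
      (2 * Real.exp (L / 2 + B / 4) * Real.exp (-B * τ ^ 2)) := by
  unfold Fp
  rw [norm_mul, norm_pp hp hs]
  exact mul_le_mul_of_nonneg_left (kernel_le L τ) (by positivity)

lemma Fp_int (L : ℝ) {B : ℝ} (hB : 0 < B) {s : ℂ} (hs : s.re = 1) {p : ℕ} (hp : 2 ≤ p) :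
    Integrable (Fp L B s p) := by
  have h1 : Integrable fun τ : ℝ => (p : ℝ) ^ (-(3 / 2) : ℝ) *
      (2 * Real.exp (L / 2 + B / 4) * Real.exp (-B * τ ^ 2)) :=
    ((integrable_exp_neg_mul_sq hB).const_mul _).const_mul _
  refine h1.mono' (Fp_cont L B s hp).aestronglyMeasurable ?_
  filter_upwards with τ
  exact Fp_le L hs hp τ

lemma Fp_norm_int (L : ℝ) {B : ℝ} (hB : 0 < B) {s : ℂ} (hs : s.re = 1) {p : ℕ} (hp : 2 ≤ p) :
    ∫ τ, ‖Fp L B s p τ‖ ≤ (p : ℝ) ^ (-(3 / 2) : ℝ) *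
      (2 * Real.exp (L / 2 + B / 4) * Real.sqrt (Real.pi / B)) := by
  have h1 : Integrable fun τ : ℝ => (p : ℝ) ^ (-(3 / 2) : ℝ) *
      (2 * Real.exp (L / 2 + B / 4) * Real.exp (-B * τ ^ 2)) :=
    ((integrable_exp_neg_mul_sq hB).const_mul _).const_mul _
  refine (integral_mono (Fp_int L hB hs hp).norm h1 (fun τ => Fp_le L hs hp τ)).trans ?_
  rw [integral_const_mul, integral_const_mul, integral_gaussian]

lemma Fp_eval (L : ℝ) {B : ℝ} (hB : 0 < B) (s : ℂ) {p : ℕ} (hp : 2 ≤ p) :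
    ∫ τ, Fp L B s p τ =
      2 * Real.pi * (((QQ B (L - Real.log p) : ℝ) : ℂ) * (p : ℂ) ^ (-s)) := by
  have h0 : (p : ℂ) ≠ 0 := by
    have : p ≠ 0 := by omega
    exact_mod_cast this
  have h1 : ∀ τ : ℝ, Fp L B s p τ = (p : ℂ) ^ (-s) *
      (Complex.exp (((L - Real.log p : ℝ) : ℂ) * (((1 / 2 : ℝ) : ℂ) + τ * I) +
        B * (((1 / 2 : ℝ) : ℂ) + τ * I) ^ 2) / (((1 / 2 : ℝ) : ℂ) + τ * I)) := by
    intro τ
    have h3 : (((1 / 2 : ℝ) : ℂ) + τ * I) = ww τ := rfl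
    rw [h3]
    unfold Fp EE
    rw [neg_add, cpow_add _ _ h0, mul_assoc]
    congr 1
    rw [mul_div_assoc', cpow_def_of_ne_zero h0, ← Complex.exp_add, ← Complex.natCast_log]
    congr 2
    push_cast
    ring
  simp_rw [h1]
  rw [integral_const_mul, line_weight hB (by norm_num)]
  push_cast
  ring

lemma hasSum_Fp (L : ℝ) {B : ℝ} (hB : 0 < B) {s : ℂ} (hs : s.re = 1) :
    HasSum (fun p : Nat.Primes => ∫ τ, Fp L B s p τ) (∫ τ, ∑' p : Nat.Primes, Fp L B s p τ) := by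
  apply hasSum_integral_of_summable_integral_norm
  · intro p
    exact Fp_int L hB hs p.2.two_le
  · apply Summable.of_nonneg_of_le (fun p => integral_nonneg fun τ => norm_nonneg _)
      (fun p => Fp_norm_int L hB hs p.2.two_le)
    exact summable_C32.mul_right _

lemma summable_PQ (L : ℝ) {B : ℝ} (hB : 0 < B) {s : ℂ} (hs : s.re = 1) :
    Summable fun p : Nat.Primes =>
      ((QQ B (L - Real.log (p : ℕ)) : ℝ) : ℂ) * ((p : ℕ) : ℂ) ^ (-s) := by
  have h1 := (hasSum_Fp L hB hs).summable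
  have h2 : ∀ p : Nat.Primes, ∫ τ, Fp L B s p τ =
      2 * Real.pi * (((QQ B (L - Real.log (p : ℕ)) : ℝ) : ℂ) * ((p : ℕ) : ℂ) ^ (-s)) :=
    fun p => Fp_eval L hB s p.2.two_le
  simp_rw [h2] at h1
  have h3 : (2 * Real.pi : ℂ) ≠ 0 := by
    have : (2 * Real.pi : ℝ) ≠ 0 := by positivity
    exact_mod_cast this
  exact (summable_mul_left_iff h3).1 h1

lemma integral_tsum_Fp (L : ℝ) {B : ℝ} (hB : 0 < B) {s : ℂ} (hs : s.re = 1) :
    ∫ τ, ∑' p : Nat.Primes, Fp L B s p τ = 2 * Real.pi * PQ L B s := by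
  rw [← (hasSum_Fp L hB hs).tsum_eq]
  unfold PQ
  rw [← tsum_mul_left]
  apply tsum_congr
  intro p
  exact Fp_eval L hB s p.2.two_le

/-- the sum over the primes on the line `Re z = 3/2` -/
noncomputable def SS (s : ℂ) (τ : ℝ) : ℂ := ∑' p : Nat.Primes, ((p : ℕ) : ℂ) ^ (-(s + ww τ))

lemma SS_cont {s : ℂ} (hs : s.re = 1) : Continuous (SS s) := by
  unfold SS
  apply continuous_tsum (u := fun p : Nat.Primes => ((p : ℕ) : ℝ) ^ (-(3 / 2) : ℝ)) _ summable_C32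
  · intro p τ
    exact (norm_pp p.2.two_le hs τ).le
  · intro p
    have h0 : ((p : ℕ) : ℂ) ≠ 0 := by
      have : (p : ℕ) ≠ 0 := p.2.ne_zero
      exact_mod_cast this
    exact Continuous.const_cpow (by have := continuous_ww; fun_prop) (Or.inl h0)

lemma SS_le {s : ℂ} (hs : s.re = 1) (τ : ℝ) : ‖SS s τ‖ ≤ C32 := by
  unfold SS
  apply tsum_of_norm_bounded summable_C32.hasSum
  intro p
  exact (norm_pp p.2.two_le hs τ).le

lemma tsum_Fp (L B : ℝ) (s : ℂ) (τ : ℝ) :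
    ∑' p : Nat.Primes, Fp L B s p τ = SS s τ * (EE L B (ww τ) / ww τ) := by
  unfold Fp SS
  rw [tsum_mul_right]

/-- **The right edge.** -/
lemma right_edge {L B V : ℝ} (hB : 4 ≤ B) (hV : 0 ≤ V) {s : ℂ} (hs : s.re = 1) :
    ‖2 * Real.pi * PQ L B s - ∫ τ in (-V)..V, SS s τ * (EE L B (ww τ) / ww τ)‖ ≤
      4 * C32 * Real.exp (L / 2 + B / 4 - B * V ^ 2 / 2) := by
  have hB0 : 0 < B := by linarith
  have hbound : ∀ τ : ℝ, ‖SS s τ * (EE L B (ww τ) / ww τ)‖ ≤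
      (2 * C32 * Real.exp (L / 2 + B / 4)) * Real.exp (-B * τ ^ 2) := by
    intro τ
    rw [norm_mul]
    calc ‖SS s τ‖ * ‖EE L B (ww τ) / ww τ‖ ≤
        C32 * (2 * Real.exp (L / 2 + B / 4) * Real.exp (-B * τ ^ 2)) :=
          mul_le_mul (SS_le hs τ) (kernel_le L τ) (norm_nonneg _) C32_nonneg
      _ = _ := by ring
  have hC := C32_nonneg
  have hint : Integrable fun τ : ℝ => SS s τ * (EE L B (ww τ) / ww τ) := by
    refine ((integrable_exp_neg_mul_sq hB0).const_mul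
      (2 * C32 * Real.exp (L / 2 + B / 4))).mono' ?_ ?_
    · apply Continuous.aestronglyMeasurable
      exact (SS_cont hs).mul (((continuous_EE L B).comp continuous_ww).div continuous_ww ww_ne)
    · filter_upwards with τ
      exact hbound τ
  have h1 := line_tail hB0 (by positivity) hV hint hbound
  rw [← integral_tsum_Fp L hB0 hs]
  simp_rw [tsum_Fp]
  refine h1.trans ?_
  have h2 : Real.sqrt (Real.pi / (B / 2)) ≤ 2 := by
    rw [Real.sqrt_le_iff]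
    refine ⟨by norm_num, ?_⟩
    rw [div_le_iff₀ (by positivity)]
    have := Real.pi_le_four
    linarith
  calc 2 * C32 * Real.exp (L / 2 + B / 4) * Real.exp (-(B * V ^ 2 / 2)) *
      Real.sqrt (Real.pi / (B / 2)) ≤
      2 * C32 * Real.exp (L / 2 + B / 4) * Real.exp (-(B * V ^ 2 / 2)) * 2 := by
        apply mul_le_mul_of_nonneg_left h2 (by positivity)
    _ = 4 * C32 * (Real.exp (L / 2 + B / 4) * Real.exp (-(B * V ^ 2 / 2))) := by ring
    _ = 4 * C32 * Real.exp (L / 2 + B / 4 - B * V ^ 2 / 2) := by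
        rw [← Real.exp_add]
        congr 1

end Pool.Agent.H.MP_2e4794_nt.RL
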