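import Pool.Agent.H.MP_2e4794_nt.RL.SM

/-!
# The smoothed approximation
-/

namespace Pool.Agent.H.MP_2e4794_nt.RL

open Filter Topology MeasureTheory Complex

/-- a bound for the logarithm -/
lemma log_bound {δ L l : ℝ} (hδ : 0 < δ) (hδ1 : δ ≤ 1) (hL0 : 0 < L) (hl : 0 < l)
    (h : l ^ (2 + δ) ≤ Real.exp L) : l ≤ Real.exp (L * (1 / 2 - δ / 6)) := by
  have h1 : (2 + δ) * Real.log l ≤ L := by
    rw [← Real.log_rpow hl]
    have := Real.log_le_log (by positivity) h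
    rwa [Real.log_exp] at this
  rw [← Real.log_le_iff_le_exp hl]
  have h3 : 1 ≤ (2 + δ) * (1 / 2 - δ / 6) := by
    have h7 : 0 ≤ δ * (1 - δ) := mul_nonneg hδ.le (by linarith)
    linarith
  have h4 : 0 < 2 + δ := by linarith
  have h5 : L ≤ (2 + δ) * (L * (1 / 2 - δ / 6)) := by
    have h7 := mul_le_mul_of_nonneg_left h3 hL0.le
    linarith
  have h6 : (2 + δ) * Real.log l ≤ (2 + δ) * (L * (1 / 2 - δ / 6)) := by linarith
  exact le_of_mul_le_mul_left h6 h4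

/-- **Smoothed sums over primes, under RH.** -/
theorem smooth_lemma {δ : ℝ} (hδ : 0 < δ) (hδ1 : δ ≤ 1) {K0 : ℝ} (hK : 0 < K0) :
    ∃ K : ℝ, ∃ Y0 : ℕ, 0 < K ∧ ∀ u : ℝ, 3 ≤ u → ∀ g : ℂ → ℂ, IsLog δ K0 u g →
      ∀ y : ℕ, Y0 ≤ y → Real.log u ^ (2 + δ) ≤ y →
      ‖g (1 + u * I) - Rf (1 + u * I) -
        PQ (Real.log y) (Real.log y / (12 / δ)) (1 + u * I)‖ ≤
        K * Real.exp (-(5 * δ / 48 * Real.log y)) := by
  obtain ⟨M, hM⟩ : ∃ M, M = 12 / δ := ⟨_, rfl⟩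
  obtain ⟨κ, hκ⟩ : ∃ κ, κ = δ / 24 := ⟨_, rfl⟩
  obtain ⟨V, hV⟩ : ∃ V, V = Real.sqrt (4 * M + 1) := ⟨_, rfl⟩
  have hM12 : 12 ≤ M := by
    rw [hM, le_div_iff₀ hδ]
    linarith
  have hκ0 : 0 < κ := by rw [hκ]; linarith
  have hκ1 : κ ≤ 1 / 24 := by rw [hκ]; linarith
  have hV2 : V ^ 2 = 4 * M + 1 := by
    rw [hV]
    exact Real.sq_sqrt (by linarith)
  have hV1 : 1 ≤ V := by
    rw [hV]
    apply Real.le_sqrt_of_sq_le
    linarith
  have hV0 : 0 < V := by linarith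
  have hY0 : ∀ᶠ y : ℕ in atTop, 4 * M ≤ Real.log y :=
    (Real.tendsto_log_atTop.comp tendsto_natCast_atTop_atTop).eventually_ge_atTop _
  obtain ⟨Y1, hY1⟩ := eventually_atTop.1 hY0
  obtain ⟨CR, hCR⟩ : ∃ CR, CR = ∑' p : Nat.Primes, 2 * ((p : ℕ) : ℝ) ^ (-(1 + κ)) := ⟨_, rfl⟩
  have hCR0 : 0 ≤ CR := by
    rw [hCR]
    exact tsum_nonneg fun p => by positivity
  have hC32 := C32_nonneg
  refine ⟨2 * (K0 + CR) + 4 * C32 + 8 * V * (K0 + CR), max Y1 16, by positivity, ?_⟩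
  intro u hu g hg
  unfold IsLog at hg
  rw [← hM, ← hκ, ← hV] at hg
  rw [← hM]
  have hlu : 0 < Real.log u := Real.log_pos (by linarith)
  intro y hy hyu
  have hy16 : 16 ≤ y := (le_max_right _ _).trans hy
  have hy16' : (16 : ℝ) ≤ y := by exact_mod_cast hy16
  obtain ⟨L, hL⟩ : ∃ L, L = Real.log y := ⟨_, rfl⟩
  rw [← hL]
  have hL4 : 4 * M ≤ L := by
    rw [hL]
    exact hY1 y ((le_max_left _ _).trans hy)
  have hL0 : 0 < L := by linarith
  have hyL : (y : ℝ) = Real.exp L := by rw [hL, Real.exp_log (by linarith)]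
  obtain ⟨B, hB⟩ : ∃ B, B = L / M := ⟨_, rfl⟩
  rw [← hB]
  have hB4 : 4 ≤ B := by
    rw [hB, le_div_iff₀ (by linarith)]
    exact hL4
  have hB0 : 0 < B := by linarith
  have hBM : B * M = L := by
    rw [hB]
    field_simp
  obtain ⟨a, ha⟩ : ∃ a, a = 1 / 2 - κ := ⟨_, rfl⟩
  have ha0 : 1 / 4 ≤ a := by rw [ha]; linarith
  have ha1 : a ≤ 1 / 2 := by rw [ha]; linarith
  obtain ⟨s0, hs0⟩ : ∃ s0 : ℂ, s0 = 1 + u * I := ⟨_, rfl⟩
  rw [← hs0]
  have hs0re : s0.re = 1 := by rw [hs0]; simp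
  have hs0im : s0.im = u := by rw [hs0]; simp
  rw [hyL] at hyu
  have hlogu := log_bound hδ hδ1 hL0 hlu hyu
  obtain ⟨X, hX⟩ : ∃ X, X = Real.exp (L * (1 / 2 - δ / 6)) := ⟨_, rfl⟩
  rw [← hX] at hlogu
  have hX1 : 1 ≤ X := by
    rw [hX]
    apply Real.one_le_exp
    apply mul_nonneg hL0.le
    linarith
  have hX2 : X ≤ Real.exp (L / 2) := by
    rw [hX]
    apply Real.exp_le_exp.2
    have : 0 ≤ L * δ := by positivity
    linarith
  -- the function `g - Rf`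
  have hg' : ∀ w : ℂ, -a ≤ w.re → w.re ≤ 1 / 2 → |w.im| ≤ V →
      DifferentiableAt ℂ (fun z => g z - Rf z) (s0 + w) ∧
      ‖g (s0 + w) - Rf (s0 + w)‖ ≤ (K0 + CR) * X ∧
      (1 < (s0 + w).re → g (s0 + w) - Rf (s0 + w) =
        ∑' p : Nat.Primes, ((p : ℕ) : ℂ) ^ (-(s0 + w))) := by
    intro w h1 h2 h3
    have h4 : 1 / 2 + κ ≤ (s0 + w).re := by
      rw [add_re, hs0re]
      linarith
    obtain ⟨g1, _, g3, g4⟩ := hg (s0 + w) h4
      (by rw [add_re, hs0re]; linarith) (by rw [add_im, hs0im, add_sub_cancel_left]; exact h3)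
    refine ⟨g1.sub (diff_Rf (by linarith)), ?_, ?_⟩
    · have h5 := norm_Rf_le hκ0 (z := s0 + w) (by linarith)
      rw [← hCR] at h5
      calc ‖g (s0 + w) - Rf (s0 + w)‖ ≤ ‖g (s0 + w)‖ + ‖Rf (s0 + w)‖ := norm_sub_le _ _
        _ ≤ K0 * Real.log u + CR := add_le_add g3 h5
        _ ≤ K0 * X + CR * X := by
            apply add_le_add
            · exact mul_le_mul_of_nonneg_left hlogu hK.le
            · exact le_mul_of_one_le_right hCR0 hX1
        _ = (K0 + CR) * X := by ring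
    · intro h6
      rw [g4 h6]
      exact PP_sub_Rf h6
  have hKC : 0 ≤ (K0 + CR) * X := by positivity
  have hEhor : ∀ w : ℂ, -a ≤ w.re → w.re ≤ 1 / 2 → |w.im| = V →
      ‖EE L B w‖ ≤ Real.exp (-(3 / 2 * L)) := by
    intro w h1 h2 h3
    rw [norm_EE]
    apply Real.exp_le_exp.2
    have h4 : w.im ^ 2 = 4 * M + 1 := by rw [← sq_abs, h3, hV2]
    rw [h4]
    have h5 : w.re ^ 2 ≤ (1 / 2) ^ 2 := sq_le_sq' (by linarith) h2
    norm_num at h5
    have h6 : B * (w.re ^ 2 - (4 * M + 1)) ≤ B * (-2 * M) := by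
      apply mul_le_mul_of_nonneg_left _ hB0.le
      linarith
    have h7 : w.re * L ≤ 1 / 2 * L := mul_le_mul_of_nonneg_right (by linarith) hL0.le
    have h8 : B * (-2 * M) = -2 * L := by
      rw [← hBM]
      ring
    linarith
  obtain ⟨f, hf⟩ : ∃ f : ℂ → ℂ, f = fun w => (g (s0 + w) - Rf (s0 + w)) * EE L B w := ⟨_, rfl⟩
  have hfd : ∀ w : ℂ, -a ≤ w.re → w.re ≤ 1 / 2 → |w.im| ≤ V → DifferentiableAt ℂ f w := by
    intro w h1 h2 h3
    have h4 := (hg' w h1 h2 h3).1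
    have h5 : DifferentiableAt ℂ ((fun z => g z - Rf z) ∘ fun w => s0 + w) w :=
      DifferentiableAt.comp w h4 ((differentiableAt_const s0).add differentiableAt_id)
    rw [hf]
    exact DifferentiableAt.mul
      (show DifferentiableAt ℂ (fun w => g (s0 + w) - Rf (s0 + w)) w from h5) (diff_EE L B w)
  have cf := rect_cauchy (f := f) (a := a) (c := 1 / 2) (V := V) (by linarith) (by norm_num) hV0 hfd
  have hf0 : f 0 = g s0 - Rf s0 := by
    rw [hf]
    simp only [add_zero, EE_zero, mul_one]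
  rw [hf0] at cf
  have hVabs : |V| = V := abs_of_pos hV0
  have hVabs' : |(-V)| = V := by rw [abs_neg, hVabs]
  have hA1 : 0 ≤ (K0 + CR) * X * Real.exp (-(3 / 2 * L)) := by positivity
  have f1 : ∀ w : ℂ, -a ≤ w.re → w.re ≤ 1 / 2 → |w.im| = V →
      ‖f w‖ ≤ (K0 + CR) * X * Real.exp (-(3 / 2 * L)) := by
    intro w h1 h2 h3
    rw [hf, norm_mul]
    exact mul_le_mul (hg' w h1 h2 h3.le).2.1 (hEhor w h1 h2 h3) (norm_nonneg _) hKC
  have e1 := edge_hor (F := f) (a := a) (c := 1 / 2) (b := -V)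
    (K := (K0 + CR) * X * Real.exp (-(3 / 2 * L))) (by rw [hVabs']; exact hV1)
    (by linarith) hA1 (by
      intro x hx1 hx2
      apply f1
      · simpa using hx1
      · simpa using hx2
      · simp [hVabs])
  have e2 := edge_hor (F := f) (a := a) (c := 1 / 2) (b := V)
    (K := (K0 + CR) * X * Real.exp (-(3 / 2 * L))) (by rw [hVabs]; exact hV1)
    (by linarith) hA1 (by
      intro x hx1 hx2
      apply f1
      · simpa using hx1
      · simpa using hx2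
      · simp [hVabs])
  have hA2 : 0 ≤ (K0 + CR) * X * Real.exp (-(a * L) + B * a ^ 2) := by positivity
  have e5 := edge_ver (F := f) (σ := -a) (K := (K0 + CR) * X * Real.exp (-(a * L) + B * a ^ 2))
    (neg_ne_zero.2 (by linarith)) hA2 hV0.le (by
      intro τ hτ
      have hre : (((-a : ℝ) : ℂ) + τ * I).re = -a := by simp
      have him : (((-a : ℝ) : ℂ) + τ * I).im = τ := by simp
      rw [hf, norm_mul]
      apply mul_le_mul (hg' _ (by rw [hre]) (by rw [hre]; linarith) (by rw [him]; exact hτ)).2.1 _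
        (norm_nonneg _) hKC
      rw [norm_EE, hre, him]
      apply Real.exp_le_exp.2
      have : 0 ≤ B * τ ^ 2 := by positivity
      have h3 : -a * L + B * ((-a) ^ 2 - τ ^ 2) = -(a * L) + B * a ^ 2 - B * τ ^ 2 := by ring
      rw [h3]
      linarith)
  rw [abs_neg, abs_of_pos (by linarith : 0 < a)] at e5
  -- the right edge
  have e3 : ∫ τ in (-V)..V, f (((1 / 2 : ℝ) : ℂ) + τ * I) / (((1 / 2 : ℝ) : ℂ) + τ * I) =
      ∫ τ in (-V)..V, SS s0 τ * (EE L B (ww τ) / ww τ) := by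
    apply intervalIntegral.integral_congr
    intro τ hτ
    rw [Set.uIcc_of_le (by linarith)] at hτ
    have h3 : (((1 / 2 : ℝ) : ℂ) + τ * I) = ww τ := rfl
    simp only
    rw [h3, hf]
    simp only
    have h4 := (hg' (ww τ) (by rw [ww_re]; linarith) (by rw [ww_re])
      (by rw [ww_im]; exact abs_le.2 hτ)).2.2 (by rw [add_re, hs0re, ww_re]; norm_num)
    rw [h4, mul_div_assoc]
    rfl
  have e4 := right_edge (L := L) hB4 hV0.le hs0re
  rw [← e3] at e4
  set F1 := ∫ x in (-a)..(1 / 2), f ((x : ℂ) + ((-V : ℝ) : ℂ) * I) / ((x : ℂ) + ((-V : ℝ) : ℂ) * I)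
  set F2 := ∫ x in (-a)..(1 / 2), f ((x : ℂ) + V * I) / ((x : ℂ) + V * I)
  set F3 := ∫ τ in (-V)..V, f (((1 / 2 : ℝ) : ℂ) + τ * I) / (((1 / 2 : ℝ) : ℂ) + τ * I)
  set F4 := ∫ y in (-V)..V, f (((-a : ℝ) : ℂ) + y * I) / (((-a : ℝ) : ℂ) + y * I)
  have e9 : 2 * Real.pi * I * (g s0 - Rf s0 - PQ L B s0) =
      F1 - F2 - I * (2 * Real.pi * PQ L B s0 - F3) - I * F4 := by
    linear_combination -cf
  have e10 : 2 * Real.pi * ‖g s0 - Rf s0 - PQ L B s0‖ =
      ‖2 * Real.pi * I * (g s0 - Rf s0 - PQ L B s0)‖ := by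
    rw [norm_mul, norm_mul, norm_mul, Complex.norm_I, Complex.norm_real, Complex.norm_ofNat,
      Real.norm_eq_abs, abs_of_pos Real.pi_pos, mul_one]
  have hI : ∀ z : ℂ, ‖I * z‖ = ‖z‖ := by
    intro z
    rw [norm_mul, Complex.norm_I, one_mul]
  have e11 : 2 * Real.pi * ‖g s0 - Rf s0 - PQ L B s0‖ ≤
      ‖F1‖ + ‖F2‖ + ‖2 * Real.pi * PQ L B s0 - F3‖ + ‖F4‖ := by
    rw [e10, e9]
    have t1 := norm_sub_le (F1 - F2 - I * (2 * Real.pi * PQ L B s0 - F3)) (I * F4)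
    have t2 := norm_sub_le (F1 - F2) (I * (2 * Real.pi * PQ L B s0 - F3))
    have t3 := norm_sub_le F1 F2
    rw [hI] at t1 t2
    linarith
  obtain ⟨Q, hQ⟩ : ∃ Q, Q = Real.exp (-(5 * δ / 48 * L)) := ⟨_, rfl⟩
  rw [← hQ]
  have hLQ : Real.exp (-L) ≤ Q := by
    rw [hQ]
    apply Real.exp_le_exp.2
    have : δ * L ≤ 1 * L := mul_le_mul_of_nonneg_right hδ1 hL0.le
    linarith
  have t1 : (K0 + CR) * X * Real.exp (-(3 / 2 * L)) * (a + 1 / 2) ≤ (K0 + CR) * Q := by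
    have h1 : X * Real.exp (-(3 / 2 * L)) ≤ Q := by
      calc X * Real.exp (-(3 / 2 * L)) ≤ Real.exp (L / 2) * Real.exp (-(3 / 2 * L)) :=
            mul_le_mul_of_nonneg_right hX2 (Real.exp_pos _).le
        _ = Real.exp (-L) := by
            rw [← Real.exp_add]
            congr 1
            ring
        _ ≤ Q := hLQ
    have hX0 : 0 < X := by linarith
    calc (K0 + CR) * X * Real.exp (-(3 / 2 * L)) * (a + 1 / 2) =
        (K0 + CR) * (X * Real.exp (-(3 / 2 * L))) * (a + 1 / 2) := by ring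
      _ ≤ (K0 + CR) * (X * Real.exp (-(3 / 2 * L))) * 1 := by
          apply mul_le_mul_of_nonneg_left _ (by positivity)
          linarith
      _ ≤ (K0 + CR) * Q := by
          rw [mul_one]
          exact mul_le_mul_of_nonneg_left h1 (by positivity)
  have t2 : 4 * C32 * Real.exp (L / 2 + B / 4 - B * V ^ 2 / 2) ≤ 4 * C32 * Q := by
    apply mul_le_mul_of_nonneg_left _ (by positivity)
    refine le_trans (Real.exp_le_exp.2 ?_) hLQ
    rw [hV2]
    have h1 : B * (4 * M + 1) / 2 = 2 * L + B / 2 := by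
      rw [← hBM]
      ring
    rw [h1]
    linarith
  have t3 : (K0 + CR) * X * Real.exp (-(a * L) + B * a ^ 2) / a * (2 * V) ≤
      8 * V * (K0 + CR) * Q := by
    have h1 : X * Real.exp (-(a * L) + B * a ^ 2) ≤ Q := by
      rw [hX, hQ, ← Real.exp_add]
      apply Real.exp_le_exp.2
      have h2 : B * a ^ 2 ≤ L * δ / 48 := by
        have h3 : B * a ^ 2 ≤ B * (1 / 2) ^ 2 := by
          apply mul_le_mul_of_nonneg_left _ hB0.le
          exact pow_le_pow_left₀ (by linarith) ha1 2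
        have h4 : B = L * δ / 12 := by
          rw [hB, hM]
          field_simp
        rw [h4] at h3 ⊢
        linarith
      have h5 : a * L = (1 / 2 - δ / 24) * L := by rw [ha, hκ]
      rw [h5]
      linarith
    have ha' : 1 / a ≤ 4 := by
      rw [div_le_iff₀ (by linarith)]
      linarith
    have hX0 : 0 < X := by linarith
    calc (K0 + CR) * X * Real.exp (-(a * L) + B * a ^ 2) / a * (2 * V) =
        (K0 + CR) * (2 * V) * (1 / a) * (X * Real.exp (-(a * L) + B * a ^ 2)) := by ring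
      _ ≤ (K0 + CR) * (2 * V) * 4 * Q := by
          apply mul_le_mul _ h1 (by positivity) (by positivity)
          apply mul_le_mul_of_nonneg_left ha' (by positivity)
      _ = 8 * V * (K0 + CR) * Q := by ring
  have hpi : 1 ≤ 2 * Real.pi := by
    have := Real.pi_gt_three
    linarith
  have hn := norm_nonneg (g s0 - Rf s0 - PQ L B s0)
  calc ‖g s0 - Rf s0 - PQ L B s0‖ ≤ 2 * Real.pi * ‖g s0 - Rf s0 - PQ L B s0‖ :=
        le_mul_of_one_le_left hn hpi
    _ ≤ (2 * (K0 + CR) + 4 * C32 + 8 * V * (K0 + CR)) * Q := by linarith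

end Pool.Agent.H.MP_2e4794_nt.RL
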