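import Pool.Agent.H.MP_2e4794_nt.RL.SN

/-!
# The weights, and the approximation of the zeta function
-/

namespace Pool.Agent.H.MP_2e4794_nt.RL

open Finset Filter Topology
open Pool.Agent.H.MP_2e4794_nt.ZM (prs mem_prs)

/-- the large primes, weighted -/
noncomputable def VV (w : ℕ → ℝ) (y : ℕ) (s : ℂ) : ℂ :=
  ∑ p ∈ prs 0 y, (w p : ℂ) * (p : ℂ) ^ (-s)

section

variable {M L B c : ℝ} {Y : ℕ}

/-- the standing hypotheses about the parameters -/
structure Par (M L B c : ℝ) (Y : ℕ) : Prop where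
  hM : 1 ≤ M
  hY : 16 ≤ Y
  hL : L = Real.log Y
  hLM : 4 * M ≤ L
  hB : B = L / M
  hc : c = Real.sqrt (M / L)

lemma Par.L0 (h : Par M L B c Y) : 0 < L := by
  have := h.hM
  have := h.hLM
  linarith

lemma Par.B0 (h : Par M L B c Y) : 0 < B := by
  have := h.hM
  have := h.L0
  rw [h.hB]
  positivity

lemma Par.c0 (h : Par M L B c Y) : 0 < c := by
  have := h.hM
  have := h.L0
  rw [h.hc]
  positivity

lemma Par.csq (h : Par M L B c Y) : c ^ 2 = M / L := by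
  have := h.hM
  have := h.L0
  rw [h.hc]
  exact Real.sq_sqrt (by positivity)

lemma Par.cL (h : Par M L B c Y) : c ^ 2 * L = M := by
  have := h.L0
  rw [h.csq]
  field_simp

lemma Par.Bc (h : Par M L B c Y) : B * c ^ 2 = 1 := by
  have := h.L0
  have := h.hM
  rw [h.csq, h.hB]
  field_simp

lemma Par.c1 (h : Par M L B c Y) : c ≤ 1 / 2 := by
  have h1 := h.hM
  have h2 := h.hLM
  apply le_of_sq_le_sq _ (by norm_num)
  rw [h.csq, div_le_iff₀ h.L0]
  linarith

lemma Par.clog (h : Par M L B c Y) {l : ℝ} (hl : L ≤ l) : Real.sqrt l ≤ c * l := by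
  have h0 := h.L0
  have h1 := h.hM
  have hl0 : 0 < l := by linarith
  have h2 : 1 ≤ c * Real.sqrt l := by
    have h3 : (1 : ℝ) ^ 2 ≤ (c * Real.sqrt l) ^ 2 := by
      rw [mul_pow, Real.sq_sqrt hl0.le]
      have h4 : c ^ 2 * L ≤ c ^ 2 * l := mul_le_mul_of_nonneg_left hl (by positivity)
      rw [h.cL] at h4
      linarith
    have h5 := h.c0
    exact le_of_sq_le_sq h3 (by positivity)
  calc Real.sqrt l = 1 * Real.sqrt l := (one_mul _).symm
    _ ≤ c * Real.sqrt l * Real.sqrt l := mul_le_mul_of_nonneg_right h2 (Real.sqrt_nonneg _)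
    _ = c * l := by rw [mul_assoc, Real.mul_self_sqrt hl0.le]

/-- the weight of a large prime is small -/
lemma q_sum (h : Par M L B c Y) {y : ℕ} (hy : Y ≤ y) (Z : ℕ) :
    ∑ p ∈ prs y Z, QQ B (L - Real.log p) * (1 / (p : ℝ)) ≤ 150 / Real.sqrt (Real.log y) := by
  have hY16 := h.hY
  have hY1 : (16 : ℝ) ≤ Y := by exact_mod_cast hY16
  have hYy : (Y : ℝ) ≤ y := by exact_mod_cast hy
  have hc0 := h.c0
  have hl : L ≤ Real.log y := by
    rw [h.hL]
    exact Real.log_le_log (by linarith) hYy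
  have hl0 : 0 < Real.log y := lt_of_lt_of_le h.L0 hl
  have h1 : ∀ p ∈ prs y Z, QQ B (L - Real.log p) * (1 / (p : ℝ)) ≤
      Real.exp 1 * (Y : ℝ) ^ c * (p : ℝ) ^ (-(1 + c)) := by
    intro p hp
    rw [mem_prs] at hp
    have hp2 : (2 : ℝ) ≤ p := by exact_mod_cast hp.2.two_le
    have h2 := QQ_le_exp h.B0 hc0.le (L - Real.log p)
    rw [h.Bc] at h2
    have h3 : (p : ℝ) ^ (-(1 + c)) = (p : ℝ) ^ (-c) * (1 / (p : ℝ)) := by
      rw [neg_add, Real.rpow_add (by linarith), Real.rpow_neg_one, one_div]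
      ring
    rw [h3, ← mul_assoc]
    apply mul_le_mul_of_nonneg_right _ (by positivity)
    refine h2.trans (le_of_eq ?_)
    rw [Real.rpow_def_of_pos (by linarith), Real.rpow_def_of_pos (by linarith), ← h.hL,
      ← Real.exp_add, ← Real.exp_add]
    congr 1
    ring
  refine (sum_le_sum h1).trans ?_
  rw [← mul_sum]
  have h4 := up_sum' (y := y) (by omega) hc0 (by linarith [h.c1]) Z
  have h5 : (Y : ℝ) ^ c * (y : ℝ) ^ (-c) ≤ 1 := by
    have h6 : (Y : ℝ) ^ c ≤ (y : ℝ) ^ c := Real.rpow_le_rpow (by linarith) hYy hc0.le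
    calc (Y : ℝ) ^ c * (y : ℝ) ^ (-c) ≤ (y : ℝ) ^ c * (y : ℝ) ^ (-c) :=
          mul_le_mul_of_nonneg_right h6 (by positivity)
      _ = 1 := by
          rw [← Real.rpow_add (by linarith), add_neg_cancel, Real.rpow_zero]
  have h7 := h.clog hl
  have hs : 0 < Real.sqrt (Real.log y) := Real.sqrt_pos.2 hl0
  calc Real.exp 1 * (Y : ℝ) ^ c * ∑ p ∈ prs y Z, (p : ℝ) ^ (-(1 + c)) ≤
      Real.exp 1 * (Y : ℝ) ^ c * (52 * (y : ℝ) ^ (-c) / (c * Real.log y)) :=
        mul_le_mul_of_nonneg_left h4 (by positivity)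
    _ = 52 * Real.exp 1 * ((Y : ℝ) ^ c * (y : ℝ) ^ (-c)) / (c * Real.log y) := by ring
    _ ≤ 52 * Real.exp 1 * 1 / (c * Real.log y) := by
        apply div_le_div_of_nonneg_right _ (by positivity)
        apply mul_le_mul_of_nonneg_left h5 (by positivity)
    _ ≤ 150 / Real.sqrt (Real.log y) := by
        apply div_le_div₀ (by norm_num) _ hs h7
        have := Real.exp_one_lt_d9
        linarith

/-- the complementary weight of a small prime is small -/
lemma w_sum (h : Par M L B c Y) :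
    ∑ p ∈ prs 0 Y, (1 - QQ B (L - Real.log p)) * (1 / (p : ℝ)) ≤ 1400 / Real.sqrt L := by
  have hY16 := h.hY
  have hY1 : (16 : ℝ) ≤ Y := by exact_mod_cast hY16
  have hc0 := h.c0
  have hl0 := h.L0
  have h1 : ∀ p ∈ prs 0 Y, (1 - QQ B (L - Real.log p)) * (1 / (p : ℝ)) ≤
      Real.exp 1 * (Y : ℝ) ^ (-c) * (p : ℝ) ^ (-(1 - c)) := by
    intro p hp
    rw [mem_prs] at hp
    have hp2 : (2 : ℝ) ≤ p := by exact_mod_cast hp.2.two_le
    have h2 := one_sub_QQ_le_exp h.B0 hc0.le (L - Real.log p)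
    rw [h.Bc] at h2
    have h3 : (p : ℝ) ^ (-(1 - c)) = (p : ℝ) ^ c * (1 / (p : ℝ)) := by
      have : -(1 - c) = c + -1 := by ring
      rw [this, Real.rpow_add (by linarith), Real.rpow_neg_one, one_div]
    rw [h3, ← mul_assoc]
    apply mul_le_mul_of_nonneg_right _ (by positivity)
    refine h2.trans (le_of_eq ?_)
    rw [Real.rpow_def_of_pos (by linarith), Real.rpow_def_of_pos (by linarith), ← h.hL,
      ← Real.exp_add, ← Real.exp_add]
    congr 1
    ring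
  refine (sum_le_sum h1).trans ?_
  rw [← mul_sum]
  have h4 := down_sum' hY16 hc0 (by linarith [h.c1]) (by rw [← h.hL, h.cL]; exact h.hM)
  rw [← h.hL] at h4
  have h5 : (Y : ℝ) ^ (-c) * (Y : ℝ) ^ c = 1 := by
    rw [← Real.rpow_add (by linarith), neg_add_cancel, Real.rpow_zero]
  have h7 := h.clog (le_refl L)
  have hs : 0 < Real.sqrt L := Real.sqrt_pos.2 hl0
  calc Real.exp 1 * (Y : ℝ) ^ (-c) * ∑ p ∈ prs 0 Y, (p : ℝ) ^ (-(1 - c)) ≤
      Real.exp 1 * (Y : ℝ) ^ (-c) * (512 * (Y : ℝ) ^ c / (c * L)) :=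
        mul_le_mul_of_nonneg_left h4 (by positivity)
    _ = 512 * Real.exp 1 * ((Y : ℝ) ^ (-c) * (Y : ℝ) ^ c) / (c * L) := by ring
    _ = 512 * Real.exp 1 * 1 / (c * L) := by rw [h5]
    _ ≤ 1400 / Real.sqrt L := by
        apply div_le_div₀ (by norm_num) _ hs h7
        have := Real.exp_one_lt_d9
        linarith

end

lemma norm_p_one {p : ℕ} (hp : 2 ≤ p) {s : ℂ} (hs : s.re = 1) :
    ‖(p : ℂ) ^ (-s)‖ = 1 / (p : ℝ) := by
  rw [norm_pcpow hp, hs, Real.rpow_neg_one, one_div]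

/-- **The approximation of the zeta function, under RH.** -/
theorem package (RH : RiemannHypothesis) {δ : ℝ} (hδ : 0 < δ) (hδ1 : δ ≤ 1) :
    ∃ K U0 : ℝ, ∃ Y0 : ℕ, 0 < K ∧ 3 ≤ U0 ∧ 16 ≤ Y0 ∧ ∀ Y y : ℕ, Y0 ≤ Y → Y ≤ y →
      ∃ w : ℕ → ℝ, (∀ p, 0 ≤ w p) ∧
        (∑ p ∈ prs 0 y, w p * (1 / (p : ℝ)) ≤ WW Y y + K / Real.sqrt (Real.log Y)) ∧
        (∀ u : ℝ, U0 ≤ u → Real.log u ^ (2 + δ) ≤ Y → ‖VV w y (1 + u * Complex.I)‖ ≤
          K * (Real.exp (-(5 * δ / 48 * Real.log Y)) + 1 / Real.sqrt (Real.log y))) ∧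
        (∀ t : ℝ, U0 ≤ t → Real.log t ^ (2 + δ) ≤ y → ∃ z : ℂ,
          ‖z‖ ≤ K / Real.sqrt (Real.log Y) ∧ riemannZeta (1 + t * Complex.I) =
            Complex.exp (SY Y (1 + t * Complex.I) + VV w y (1 + t * Complex.I) + z)) := by
  obtain ⟨K0, U0, hK0, hU0, hlog⟩ := log_zeta_bound RH (κ := δ / 24)
    (V := Real.sqrt (4 * (12 / δ) + 1)) (by linarith) (by linarith) (Real.sqrt_nonneg _)
  obtain ⟨K1, Y1, hK1, hsharp⟩ := sharp_lemma hδ hδ1 hK0
  obtain ⟨K2, Y2, hK2, hsmooth⟩ := smooth_lemma hδ hδ1 hK0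
  have hY3 : ∀ᶠ y : ℕ in atTop, 4 * (12 / δ) ≤ Real.log y :=
    (Real.tendsto_log_atTop.comp tendsto_natCast_atTop_atTop).eventually_ge_atTop _
  obtain ⟨Y3, hY3⟩ := eventually_atTop.1 hY3
  refine ⟨K1 + K2 + 1600, U0, max (max Y1 Y2) (max Y3 16), by positivity, hU0,
    (le_max_right _ _).trans (le_max_right _ _), ?_⟩
  intro Y y hY hYy
  have hYY1 : Y1 ≤ Y := ((le_max_left _ _).trans (le_max_left _ _)).trans hY
  have hYY2 : Y2 ≤ Y := ((le_max_right _ _).trans (le_max_left _ _)).trans hY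
  have hYY3 : Y3 ≤ Y := ((le_max_left _ _).trans (le_max_right _ _)).trans hY
  have hY16 : 16 ≤ Y := ((le_max_right _ _).trans (le_max_right _ _)).trans hY
  have hY16' : (16 : ℝ) ≤ Y := by exact_mod_cast hY16
  have hYy' : (Y : ℝ) ≤ y := by exact_mod_cast hYy
  obtain ⟨M, hM⟩ : ∃ M, M = 12 / δ := ⟨_, rfl⟩
  have hM12 : 12 ≤ M := by
    rw [hM, le_div_iff₀ hδ]
    linarith
  obtain ⟨L, hL⟩ : ∃ L, L = Real.log Y := ⟨_, rfl⟩
  obtain ⟨B, hB⟩ : ∃ B, B = L / M := ⟨_, rfl⟩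
  obtain ⟨c, hc⟩ : ∃ c, c = Real.sqrt (M / L) := ⟨_, rfl⟩
  have hLM : 4 * M ≤ L := by
    rw [hM, hL]
    exact hY3 Y hYY3
  have par : Par M L B c Y := ⟨by linarith, hY16, hL, hLM, hB, hc⟩
  have hL0 := par.L0
  have hl : L ≤ Real.log y := by
    rw [hL]
    exact Real.log_le_log (by linarith) hYy'
  have hl0 : 0 < Real.log y := lt_of_lt_of_le hL0 hl
  have hsL : 0 < Real.sqrt L := Real.sqrt_pos.2 hL0
  have hsl : 0 < Real.sqrt (Real.log y) := Real.sqrt_pos.2 hl0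
  have hsLl : Real.sqrt L ≤ Real.sqrt (Real.log y) := Real.sqrt_le_sqrt hl
  obtain ⟨q, hq⟩ : ∃ q : ℕ → ℝ, q = fun p : ℕ => QQ B (L - Real.log p) := ⟨_, rfl⟩
  have hq0 : ∀ p, 0 ≤ q p := by
    intro p
    rw [hq]
    exact QQ_nonneg _ _
  have hq1 : ∀ p, q p ≤ 1 := by
    intro p
    rw [hq]
    exact QQ_le_one par.B0 _
  have hqs : ∀ {y' : ℕ}, Y ≤ y' → ∀ Z, ∑ p ∈ prs y' Z, q p * (1 / (p : ℝ)) ≤
      150 / Real.sqrt (Real.log y') := by
    intro y' hy' Z
    rw [hq]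
    exact q_sum par hy' Z
  have hws : ∑ p ∈ prs 0 Y, (1 - q p) * (1 / (p : ℝ)) ≤ 1400 / Real.sqrt L := by
    rw [hq]
    exact w_sum par
  -- norms of weighted sums
  have hnorm : ∀ (v : ℕ → ℝ) (a b : ℕ) (s : ℂ), (∀ p, 0 ≤ v p) → s.re = 1 →
      ∑ p ∈ prs a b, ‖(v p : ℂ) * (p : ℂ) ^ (-s)‖ = ∑ p ∈ prs a b, v p * (1 / (p : ℝ)) := by
    intro v a b s hv hs
    apply sum_congr rfl
    intro p hp
    rw [mem_prs] at hp
    rw [norm_mul, norm_p_one hp.2.two_le hs, Complex.norm_real, Real.norm_eq_abs,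
      abs_of_nonneg (hv p)]
  have hsre : ∀ t : ℝ, ((1 : ℂ) + t * Complex.I).re = 1 := by
    intro t
    simp
  -- `1/y ≤ 1/√log y`
  have hinv : ∀ {n : ℕ}, 16 ≤ n → 2 / (n : ℝ) ≤ 2 / Real.sqrt (Real.log n) := by
    intro n hn
    have hn' : (16 : ℝ) ≤ n := by exact_mod_cast hn
    have h1 : 1 ≤ Real.log n := by
      rw [Real.le_log_iff_exp_le (by linarith)]
      have := Real.exp_one_lt_d9
      linarith
    apply div_le_div_of_nonneg_left (by norm_num) (Real.sqrt_pos.2 (by linarith))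
    rw [Real.sqrt_le_iff]
    refine ⟨by linarith, ?_⟩
    have h2 : Real.log n ≤ n := (Real.log_le_sub_one_of_pos (by linarith)).trans (by linarith)
    nlinarith
  refine ⟨fun p => 1 - q p, fun p => by linarith [hq1 p], ?_, ?_, ?_⟩
  · -- the total weight
    rw [sum_prs_add _ (Nat.zero_le Y) hYy]
    have h1 : ∑ p ∈ prs Y y, (1 - q p) * (1 / (p : ℝ)) ≤ WW Y y := by
      unfold WW
      apply sum_le_sum
      intro p hp
      have h2 : 0 ≤ 1 / (p : ℝ) := by positivity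
      have := hq0 p
      exact mul_le_of_le_one_left h2 (by linarith)
    rw [← hL]
    have h3 : 1400 / Real.sqrt L ≤ (K1 + K2 + 1600) / Real.sqrt L := by
      apply div_le_div_of_nonneg_right _ hsL.le
      linarith
    linarith
  · -- off-diagonal terms
    intro u hu hu2
    obtain ⟨g, hg⟩ := hlog u hu
    have hgl : IsLog δ K0 u g := hg
    have huy : Real.log u ^ (2 + δ) ≤ y := hu2.trans hYy'
    have h1 := hsharp u (by linarith) g hgl y (hYY1.trans hYy) huy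
    have h2 := hsmooth u (by linarith) g hgl Y hYY2 hu2
    rw [← hM, ← hL, ← hB] at h2
    have h3 := tail_Rf (y := y) (by omega) (z := 1 + u * Complex.I) (hsre u).ge
    have h4 : ‖PQ L B (1 + u * Complex.I) -
        ∑ p ∈ prs 0 y, ((q p : ℝ) : ℂ) * (p : ℂ) ^ (-((1 : ℂ) + u * Complex.I))‖ ≤
        150 / Real.sqrt (Real.log y) := by
      unfold PQ
      rw [hq]
      apply tsum_primes_tail (f := fun p : ℕ => ((QQ B (L - Real.log p) : ℝ) : ℂ) *
        (p : ℂ) ^ (-((1 : ℂ) + u * Complex.I)))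
      · exact summable_PQ L par.B0 (hsre u)
      · intro Z
        rw [hnorm (fun p : ℕ => QQ B (L - Real.log p)) y Z _ (fun p => QQ_nonneg _ _) (hsre u)]
        exact q_sum par hYy Z
    have h5 : VV (fun p => 1 - q p) y (1 + u * Complex.I) =
        -(g (1 + u * Complex.I) - SY y (1 + u * Complex.I)) +
        (g (1 + u * Complex.I) - Rf (1 + u * Complex.I) - PQ L B (1 + u * Complex.I)) +
        (Rf (1 + u * Complex.I) - ∑ p ∈ prs 0 y, rr p (1 + u * Complex.I)) +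
        (PQ L B (1 + u * Complex.I) -
          ∑ p ∈ prs 0 y, ((q p : ℝ) : ℂ) * (p : ℂ) ^ (-((1 : ℂ) + u * Complex.I))) := by
      have h6 : SY y (1 + u * Complex.I) - ∑ p ∈ prs 0 y, rr p (1 + u * Complex.I) -
          ∑ p ∈ prs 0 y, ((q p : ℝ) : ℂ) * (p : ℂ) ^ (-((1 : ℂ) + u * Complex.I)) =
          VV (fun p => 1 - q p) y (1 + u * Complex.I) := by
        unfold SY VV rr
        rw [← sum_sub_distrib, ← sum_sub_distrib]
        apply sum_congr rfl
        intro p _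
        push_cast
        ring
      rw [← h6]
      ring
    rw [h5]
    refine (norm_add_le _ _).trans ?_
    have h7 := norm_add_le (-(g (1 + u * Complex.I) - SY y (1 + u * Complex.I)) +
        (g (1 + u * Complex.I) - Rf (1 + u * Complex.I) - PQ L B (1 + u * Complex.I)))
        (Rf (1 + u * Complex.I) - ∑ p ∈ prs 0 y, rr p (1 + u * Complex.I))
    have h8 := norm_add_le (-(g (1 + u * Complex.I) - SY y (1 + u * Complex.I)))
        (g (1 + u * Complex.I) - Rf (1 + u * Complex.I) - PQ L B (1 + u * Complex.I))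
    rw [norm_neg] at h8
    have h9 := hinv (hY16.trans hYy)
    rw [← hL]
    have hE := Real.exp_pos (-(5 * δ / 48 * L))
    have h10 : (K1 + K2 + 1600) * (Real.exp (-(5 * δ / 48 * L)) + 1 / Real.sqrt (Real.log y)) =
        K2 * Real.exp (-(5 * δ / 48 * L)) + (K1 + 1600) * Real.exp (-(5 * δ / 48 * L)) +
        K1 / Real.sqrt (Real.log y) + 2 / Real.sqrt (Real.log y) +
        150 / Real.sqrt (Real.log y) + (K2 + 1448) * (1 / Real.sqrt (Real.log y)) := by ring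
    rw [h10]
    have h11 : 0 ≤ (K1 + 1600) * Real.exp (-(5 * δ / 48 * L)) := by positivity
    have h12 : 0 ≤ (K2 + 1448) * (1 / Real.sqrt (Real.log y)) := by positivity
    linarith
  · -- the zeta function
    intro t ht ht2
    obtain ⟨g, hg⟩ := hlog t ht
    have hgl : IsLog δ K0 t g := hg
    have h1 := hsharp t (by linarith) g hgl y (hYY1.trans hYy) ht2
    obtain ⟨s, hs⟩ : ∃ s : ℂ, s = 1 + t * Complex.I := ⟨_, rfl⟩
    have hsr : s.re = 1 := by rw [hs]; exact hsre t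
    have hsi : s.im = t := by rw [hs]; simp
    have h0 : Complex.exp (g s) = riemannZeta s := by
      refine (hg s ?_ ?_ ?_).2.1
      · rw [hsr]
        linarith
      · rw [hsr]
        norm_num
      · rw [hsi, sub_self, abs_zero]
        exact Real.sqrt_nonneg _
    rw [← hs] at h1 ⊢
    refine ⟨g s - SY Y s - VV (fun p => 1 - q p) y s, ?_, ?_⟩
    · have h2 : g s - SY Y s - VV (fun p => 1 - q p) y s = (g s - SY y s) +
          ∑ p ∈ prs Y y, rr p s - ∑ p ∈ prs 0 Y, (((1 - q p : ℝ)) : ℂ) * (p : ℂ) ^ (-s) +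
          ∑ p ∈ prs Y y, ((q p : ℝ) : ℂ) * (p : ℂ) ^ (-s) := by
        unfold VV SY
        rw [sum_prs_add (fun p => ll p s) (Nat.zero_le Y) hYy,
          sum_prs_add (fun p => ((1 - q p : ℝ) : ℂ) * (p : ℂ) ^ (-s)) (Nat.zero_le Y) hYy]
        have h3 : ∑ p ∈ prs Y y, rr p s = ∑ p ∈ prs Y y, ll p s -
            ∑ p ∈ prs Y y, ((1 - q p : ℝ) : ℂ) * (p : ℂ) ^ (-s) -
            ∑ p ∈ prs Y y, ((q p : ℝ) : ℂ) * (p : ℂ) ^ (-s) := by
          unfold rr
          rw [← sum_sub_distrib, ← sum_sub_distrib]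
          apply sum_congr rfl
          intro p _
          push_cast
          ring
        rw [h3]
        ring
      rw [h2]
      have h4 : ‖∑ p ∈ prs Y y, rr p s‖ ≤ 2 / Real.sqrt (Real.log Y) :=
        ((norm_sum_le _ _).trans (sum_rr_le (by omega) y hsr.ge)).trans (hinv hY16)
      have h5 : ‖∑ p ∈ prs 0 Y, (((1 - q p : ℝ)) : ℂ) * (p : ℂ) ^ (-s)‖ ≤
          1400 / Real.sqrt L := by
        refine (norm_sum_le _ _).trans ?_
        rw [hnorm (fun p => 1 - q p) 0 Y s (fun p => by linarith [hq1 p]) hsr]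
        exact hws
      have h6 : ‖∑ p ∈ prs Y y, ((q p : ℝ) : ℂ) * (p : ℂ) ^ (-s)‖ ≤
          150 / Real.sqrt (Real.log Y) := by
        refine (norm_sum_le _ _).trans ?_
        rw [hnorm q Y y s hq0 hsr]
        exact hqs le_rfl y
      rw [← hL] at h4 h6 ⊢
      have h7 : K1 / Real.sqrt (Real.log y) ≤ K1 / Real.sqrt L :=
        div_le_div_of_nonneg_left hK1.le hsL hsLl
      have t1 := norm_add_le ((g s - SY y s) + ∑ p ∈ prs Y y, rr p s -
        ∑ p ∈ prs 0 Y, (((1 - q p : ℝ)) : ℂ) * (p : ℂ) ^ (-s))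
        (∑ p ∈ prs Y y, ((q p : ℝ) : ℂ) * (p : ℂ) ^ (-s))
      have t2 := norm_sub_le ((g s - SY y s) + ∑ p ∈ prs Y y, rr p s)
        (∑ p ∈ prs 0 Y, (((1 - q p : ℝ)) : ℂ) * (p : ℂ) ^ (-s))
      have t3 := norm_add_le (g s - SY y s) (∑ p ∈ prs Y y, rr p s)
      have h8 : (K1 + K2 + 1600) / Real.sqrt L = K1 / Real.sqrt L + 2 / Real.sqrt L +
          1400 / Real.sqrt L + 150 / Real.sqrt L + (K2 + 48) / Real.sqrt L := by ring
      have h9 : 0 ≤ (K2 + 48) / Real.sqrt L := by positivity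
      rw [h8]
      linarith
    · rw [← h0]
      congr 1
      ring

end Pool.Agent.H.MP_2e4794_nt.RL
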